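import Mathlib

/-!
Classes of a function on a finite set and the discrete entropy.
-/

namespace Pool.Agent.V7H68.SS

open Finset Real

set_option linter.unusedSectionVars false

variable {Ω κ : Type*} [Fintype Ω] [DecidableEq κ]

/-- The class of a point. -/
def cls (F : Ω → κ) (w : Ω) : Finset Ω := Finset.univ.filter (fun v => F v = F w)

theorem mem_cls {F : Ω → κ} {w v : Ω} : v ∈ cls F w ↔ F v = F w := by simp [cls]

theorem cls_ne (F : Ω → κ) (w : Ω) : (cls F w).Nonempty := ⟨w, mem_cls.2 rfl⟩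

theorem cls_pos (F : Ω → κ) (w : Ω) : (0:ℝ) < (cls F w).card := by
  exact_mod_cast Finset.card_pos.2 (cls_ne F w)

theorem cls_congr {F : Ω → κ} {w v : Ω} (h : F v = F w) : cls F v = cls F w := by
  unfold cls; rw [h]

theorem sum_cls (F : Ω → κ) (f : Ω → ℝ) :
    ∑ w, ∑ v ∈ cls F w, ((cls F w).card : ℝ)⁻¹ * f v = ∑ v, f v := by
  have h1 : ∀ w, ∑ v ∈ cls F w, ((cls F w).card : ℝ)⁻¹ * f v =
      ∑ v, if F v = F w then ((cls F v).card : ℝ)⁻¹ * f v else 0 := by
    intro w
    rw [← Finset.sum_filter]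
    refine Finset.sum_congr rfl fun v hv => ?_
    rw [cls_congr (mem_cls.1 hv)]
  rw [Finset.sum_congr rfl fun w _ => h1 w, Finset.sum_comm]
  refine Finset.sum_congr rfl fun v _ => ?_
  have h2 : ∀ w, (if F v = F w then ((cls F v).card : ℝ)⁻¹ * f v else 0) =
      if F w = F v then ((cls F v).card : ℝ)⁻¹ * f v else 0 := fun w => by
    simp only [eq_comm]
  rw [Finset.sum_congr rfl fun w _ => h2 w, ← Finset.sum_filter]
  change ∑ w ∈ cls F v, ((cls F v).card : ℝ)⁻¹ * f v = f v
  rw [Finset.sum_const, nsmul_eq_mul, ← mul_assoc, mul_inv_cancel₀ (cls_pos F v).ne', one_mul]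

/-- Mean logarithm of the class size. -/
noncomputable def hf (F : Ω → κ) : ℝ :=
  ∑ w, (Fintype.card Ω : ℝ)⁻¹ * log (cls F w).card

theorem sum_inv_cls_le (F : Ω → κ) (S : Finset κ) :
    ∑ w, (if F w ∈ S then ((cls F w).card : ℝ)⁻¹ else 0) ≤ S.card := by
  calc ∑ w, (if F w ∈ S then ((cls F w).card : ℝ)⁻¹ else 0)
      = ∑ w, ∑ z ∈ S, (if F w = z then ((cls F w).card : ℝ)⁻¹ else 0) := by
        refine Finset.sum_congr rfl fun w _ => ?_
        rw [Finset.sum_ite_eq]
    _ = ∑ z ∈ S, ∑ w, (if F w = z then ((cls F w).card : ℝ)⁻¹ else 0) := Finset.sum_comm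
    _ ≤ ∑ z ∈ S, 1 := by
        refine Finset.sum_le_sum fun z _ => ?_
        rw [← Finset.sum_filter]
        rcases (Finset.univ.filter (fun w => F w = z)).eq_empty_or_nonempty with h | ⟨w0, hw0⟩
        · rw [h]; simp
        · have hz : F w0 = z := by simpa using hw0
          have h3 : Finset.univ.filter (fun w => F w = z) = cls F w0 := by
            unfold cls; rw [hz]
          rw [h3]
          have h4 : ∑ w ∈ cls F w0, ((cls F w).card : ℝ)⁻¹ =
              ∑ w ∈ cls F w0, ((cls F w0).card : ℝ)⁻¹ :=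
            Finset.sum_congr rfl fun w hw => by rw [cls_congr (mem_cls.1 hw)]
          rw [h4, Finset.sum_const, nsmul_eq_mul, mul_inv_cancel₀ (cls_pos F w0).ne']
    _ = S.card := by simp

/-- The counting inequality behind all discrete Gibbs estimates. -/
theorem sum_rel_le (F : Ω → κ) (R : Ω → Ω → Prop) [∀ v w, Decidable (R v w)]
    (S : Ω → Finset κ) (hS : ∀ v w, R v w → F w ∈ S v) {M : ℝ}
    (hM : ∀ v, ((S v).card : ℝ) ≤ M) :
    ∑ w, ((Finset.univ.filter (fun v => R v w)).card : ℝ) / (cls F w).card ≤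
      Fintype.card Ω * M := by
  have h1 : ∀ w, ((Finset.univ.filter (fun v => R v w)).card : ℝ) / (cls F w).card =
      ∑ v, if R v w then ((cls F w).card : ℝ)⁻¹ else 0 := by
    intro w
    rw [← Finset.sum_filter, Finset.sum_const, nsmul_eq_mul]
    rfl
  rw [Finset.sum_congr rfl fun w _ => h1 w, Finset.sum_comm]
  have h2 : ∀ v, ∑ w, (if R v w then ((cls F w).card : ℝ)⁻¹ else 0) ≤ M := by
    intro v
    refine le_trans ?_ ((sum_inv_cls_le F (S v)).trans (hM v))
    refine Finset.sum_le_sum fun w _ => ?_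
    by_cases h : R v w
    · simp [h, hS v w h]
    · rw [if_neg h]
      split
      · positivity
      · exact le_rfl
  refine (Finset.sum_le_sum fun v _ => h2 v).trans ?_
  simp

/-- Mean logarithm of a function whose quotients by the class sizes have mean at most `M`. -/
theorem mean_log_le [Nonempty Ω] (F : Ω → κ) {g : Ω → ℝ} (hg : ∀ w, 0 < g w) {M : ℝ}
    (hM : 0 < M) (h : ∑ w, g w / (cls F w).card ≤ Fintype.card Ω * M) :
    ∑ w, (Fintype.card Ω : ℝ)⁻¹ * log (g w) ≤ hf F + log M := by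
  have hN : (0:ℝ) < Fintype.card Ω := by exact_mod_cast Fintype.card_pos
  have h1 : ∀ w, log (g w) - log (cls F w).card - log M ≤ (g w / (cls F w).card) / M - 1 := by
    intro w
    have h2 := Real.log_le_sub_one_of_pos
      (show 0 < (g w / (cls F w).card) / M from div_pos (div_pos (hg w) (cls_pos F w)) hM)
    rw [Real.log_div (div_pos (hg w) (cls_pos F w)).ne' hM.ne',
      Real.log_div (hg w).ne' (cls_pos F w).ne'] at h2
    exact h2
  have h2 := Finset.sum_le_sum fun w (_ : w ∈ (Finset.univ : Finset Ω)) =>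
    mul_le_mul_of_nonneg_left (h1 w) (show 0 ≤ (Fintype.card Ω : ℝ)⁻¹ by positivity)
  have h3 : ∑ w, (Fintype.card Ω : ℝ)⁻¹ * ((g w / (cls F w).card) / M - 1) ≤ 0 := by
    rw [← Finset.mul_sum]
    refine mul_nonpos_of_nonneg_of_nonpos (by positivity) ?_
    rw [Finset.sum_sub_distrib, ← Finset.sum_div]
    simp only [Finset.sum_const, Finset.card_univ, nsmul_eq_mul, mul_one]
    rw [sub_nonpos, div_le_iff₀ hM]
    exact h
  have h4 : ∑ w, (Fintype.card Ω : ℝ)⁻¹ * (log (g w) - log (cls F w).card - log M) =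
      ∑ w, (Fintype.card Ω : ℝ)⁻¹ * log (g w) - hf F - log M := by
    unfold hf
    simp only [mul_sub, Finset.sum_sub_distrib, Finset.sum_const, Finset.card_univ, nsmul_eq_mul]
    field_simp
  linarith

/-- Some class is at least as large as the exponential of the mean logarithm. -/
theorem exists_large_cls [Nonempty Ω] (F : Ω → κ) : ∃ w, Real.exp (hf F) ≤ (cls F w).card := by
  have hN : (0:ℝ) < Fintype.card Ω := by exact_mod_cast Fintype.card_pos
  obtain ⟨w, -, hw⟩ := Finset.exists_le_of_sum_le (s := (Finset.univ : Finset Ω))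
    (f := fun _ => (Fintype.card Ω : ℝ)⁻¹ * hf F)
    (g := fun w => (Fintype.card Ω : ℝ)⁻¹ * log (cls F w).card) Finset.univ_nonempty (by
      rw [Finset.sum_const, nsmul_eq_mul, Finset.card_univ]
      unfold hf
      field_simp
      exact le_rfl)
  refine ⟨w, ?_⟩
  have h1 : hf F ≤ log (cls F w).card := le_of_mul_le_mul_left hw (by positivity)
  rw [← Real.exp_log (cls_pos F w)]
  exact Real.exp_le_exp.2 h1

end Pool.Agent.V7H68.SS
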