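import Pool.Agent.V7H68.SS.Gap

/-!
The indicator of the unit cube.
-/

namespace Pool.Agent.V7H68.SS

open Finset Real MeasureTheory

set_option linter.unusedSectionVars false

variable {ι : Type*} [Fintype ι]

/-- The half-open unit cube. -/
def cube (ι : Type*) : Set (ι → ℝ) := {u | ∀ i, 0 ≤ u i ∧ u i < 1}

theorem cube_eq : cube ι = Set.univ.pi fun _ => Set.Ico (0:ℝ) 1 := by
  ext u; simp [cube]

theorem cube_meas : MeasurableSet (cube ι) := by
  rw [cube_eq]
  exact MeasurableSet.univ_pi fun _ => measurableSet_Ico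

/-- Indicator of the unit cube. -/
noncomputable def q0 : (ι → ℝ) → ℝ := (cube ι).indicator 1

theorem q0_mem {u : ι → ℝ} (h : u ∈ cube ι) : q0 u = 1 := by simp [q0, h]
theorem q0_not_mem {u : ι → ℝ} (h : u ∉ cube ι) : q0 u = 0 := by simp [q0, h]

theorem norm_le_of_cube {u : ι → ℝ} (h : u ∈ cube ι) : ‖u‖ ≤ 1 := by
  rw [pi_norm_le_iff_of_nonneg zero_le_one]
  intro i
  rw [Real.norm_eq_abs, abs_of_nonneg (h i).1]
  exact (h i).2.le

theorem q0_zero_or_one (u : ι → ℝ) : q0 u = 0 ∨ q0 u = 1 := by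
  by_cases h : u ∈ cube ι
  · exact Or.inr (q0_mem h)
  · exact Or.inl (q0_not_mem h)

theorem q0_dens : Dens (q0 : (ι → ℝ) → ℝ) := by
  refine ⟨⟨?_, ⟨1, fun u => ?_⟩, ⟨1, fun u hu => ?_⟩⟩, fun u => ?_, fun u => ?_, ?_⟩
  · exact measurable_one.indicator cube_meas
  · rcases q0_zero_or_one u with h | h <;> simp [h]
  · exact q0_not_mem fun h => absurd (norm_le_of_cube h) (not_le.2 hu)
  · rcases q0_zero_or_one u with h | h <;> simp [h]
  · rcases q0_zero_or_one u with h | h <;> simp [h]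
  · unfold q0
    rw [integral_indicator_one cube_meas, cube_eq, Measure.real, Real.volume_pi_Ico]
    simp

theorem ent_q0 : ent (q0 : (ι → ℝ) → ℝ) = 0 := by
  unfold ent
  have : (fun u : ι → ℝ => negMulLog (q0 u)) = fun _ => 0 := by
    funext u
    rcases q0_zero_or_one u with h | h <;> simp [h]
  rw [this]; simp

theorem coarse_q0 {b : ℕ} (hb : 0 < b) : coarse b (q0 : (ι → ℝ) → ℝ) = q0 := by
  classical
  have hb' : (0:ℝ) < b := by exact_mod_cast hb
  funext v
  rw [coarse_apply]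
  by_cases hv : v ∈ cube ι
  · rw [q0_mem hv]
    have hfl : ∀ i, (⌊(b:ℝ) * v i⌋).toNat < b := by
      intro i
      have h1 : ⌊(b:ℝ) * v i⌋ < b := by
        rw [Int.floor_lt]
        push_cast
        nlinarith [(hv i).2]
      have h0 : 0 ≤ ⌊(b:ℝ) * v i⌋ := Int.floor_nonneg.2 (mul_nonneg hb'.le (hv i).1)
      omega
    have hcast : ∀ i, (((⌊(b:ℝ) * v i⌋).toNat : ℕ) : ℝ) = ⌊(b:ℝ) * v i⌋ := by
      intro i
      have h0 : 0 ≤ ⌊(b:ℝ) * v i⌋ := Int.floor_nonneg.2 (mul_nonneg hb'.le (hv i).1)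
      have : (((⌊(b:ℝ) * v i⌋).toNat : ℤ) : ℝ) = ⌊(b:ℝ) * v i⌋ := by rw [Int.toNat_of_nonneg h0]
      exact_mod_cast this
    rw [Finset.sum_eq_single (fun i => (⟨(⌊(b:ℝ) * v i⌋).toNat, hfl i⟩ : Fin b))]
    · apply q0_mem
      intro i
      simp only [Pi.add_apply, Pi.smul_apply, smul_eq_mul]
      rw [hcast i]
      have h1 := Int.floor_le ((b:ℝ) * v i)
      have h2 := Int.lt_floor_add_one ((b:ℝ) * v i)
      constructor <;> linarith
    · intro e _ hne
      apply q0_not_mem
      intro hmem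
      apply hne
      funext i
      have h1 := hmem i
      simp only [Pi.add_apply, Pi.smul_apply, smul_eq_mul] at h1
      apply Fin.ext
      simp only
      have h2 : ⌊(b:ℝ) * v i⌋ = ((e i : ℕ) : ℤ) := by
        rw [Int.floor_eq_iff]
        push_cast
        constructor <;> linarith [h1.1, h1.2]
      rw [h2]
      simp
    · intro h
      exact absurd (Finset.mem_univ _) h
  · rw [q0_not_mem hv]
    refine Finset.sum_eq_zero fun e _ => q0_not_mem fun hmem => hv ?_
    intro i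
    have h1 := hmem i
    simp only [Pi.add_apply, Pi.smul_apply, smul_eq_mul] at h1
    have h2 : ((e i : ℕ) : ℝ) + 1 ≤ b := by exact_mod_cast (e i).2
    have h3 : (0:ℝ) ≤ ((e i : ℕ) : ℝ) := by positivity
    constructor
    · have : 0 ≤ (b:ℝ) * v i := by linarith [h1.1]
      exact nonneg_of_mul_nonneg_right this hb'
    · have : (b:ℝ) * v i < b * 1 := by linarith [h1.2]
      exact lt_of_mul_lt_mul_left this hb'.le

/-- A thin box near a face. -/
noncomputable def box [DecidableEq ι] (i : ι) (a ρ : ℝ) : Set (ι → ℝ) :=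
  Set.Icc (Function.update (fun _ => (-2:ℝ)) i (a - ρ)) (Function.update (fun _ => (2:ℝ)) i (a + ρ))

theorem mem_box [DecidableEq ι] {i : ι} {a ρ : ℝ} {u : ι → ℝ} (hu : ‖u‖ ≤ 2)
    (h : |u i - a| ≤ ρ) : u ∈ box i a ρ := by
  rw [abs_le] at h
  have hj : ∀ j, |u j| ≤ 2 := fun j => by
    have := norm_le_pi_norm u j
    rw [Real.norm_eq_abs] at this
    linarith
  constructor
  · intro j
    by_cases hji : j = i
    · subst hji; simp; linarith [h.1]
    · simp [Function.update_of_ne hji]; linarith [(abs_le.1 (hj j)).1]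
  · intro j
    by_cases hji : j = i
    · subst hji; simp; linarith [h.2]
    · simp [Function.update_of_ne hji]; linarith [(abs_le.1 (hj j)).2]

theorem box_vol [DecidableEq ι] (i : ι) (a : ℝ) {ρ : ℝ} (hρ : 0 ≤ ρ) :
    volume.real (box i a ρ) ≤ 2 * ρ * 4 ^ Fintype.card ι := by
  unfold box Measure.real
  rw [Real.volume_Icc_pi, ENNReal.toReal_prod]
  have h1 : ∀ j, (ENNReal.ofReal (Function.update (fun _ => (2:ℝ)) i (a + ρ) j -
      Function.update (fun _ => (-2:ℝ)) i (a - ρ) j)).toReal =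
      if j = i then 2 * ρ else 4 := by
    intro j
    by_cases hji : j = i
    · subst hji
      simp only [Function.update_self, if_true]
      rw [ENNReal.toReal_ofReal (by linarith)]
      ring
    · simp only [Function.update_of_ne hji, if_neg hji]
      rw [ENNReal.toReal_ofReal (by norm_num)]
      norm_num
  rw [Finset.prod_congr rfl fun j _ => h1 j, Fintype.prod_eq_mul_prod_compl i]
  simp only [if_true]
  refine mul_le_mul_of_nonneg_left ?_ (by positivity)
  have h2 : ∏ j ∈ {i}ᶜ, (if j = i then 2 * ρ else (4:ℝ)) = 4 ^ (({i}ᶜ : Finset ι).card) := by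
    rw [Finset.prod_congr rfl (g := fun _ => (4:ℝ)) (fun j hj => by
      have : j ≠ i := by simpa using hj
      simp [this])]
    simp
  rw [h2]
  exact pow_le_pow_right₀ (by norm_num) (Finset.card_le_univ _)

/-- Sum of the indicators of the thin boxes. -/
noncomputable def bump (ρ : ℝ) (u : ι → ℝ) : ℝ := by
  classical
  exact ∑ i : ι, ((box i 0 ρ).indicator 1 u + (box i 1 ρ).indicator 1 u)

theorem bump_nonneg (ρ : ℝ) (u : ι → ℝ) : 0 ≤ bump ρ u := by
  unfold bump
  refine Finset.sum_nonneg fun i _ => add_nonneg ?_ ?_ <;>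
  exact Set.indicator_nonneg (fun _ _ => zero_le_one) _

theorem box_cs [DecidableEq ι] (i : ι) (a ρ : ℝ) : CS ((box i a ρ).indicator (1 : (ι → ℝ) → ℝ)) := by
  refine ⟨measurable_one.indicator measurableSet_Icc, ⟨1, fun u => ?_⟩, ?_⟩
  · by_cases h : u ∈ box i a ρ <;> simp [h]
  · have hb : Bornology.IsBounded (box i a ρ) := by
      unfold box
      exact Metric.isBounded_Icc _ _
    obtain ⟨R, hR⟩ := hb.subset_closedBall 0
    refine ⟨R, fun u hu => ?_⟩
    have : u ∉ box i a ρ := fun h => by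
      have := hR h
      simp at this
      linarith
    simp [this]

theorem bump_cs (ρ : ℝ) : CS (bump ρ : (ι → ℝ) → ℝ) := by
  classical
  have : (bump ρ : (ι → ℝ) → ℝ) = fun u => ∑ i : ι, ((box i 0 ρ).indicator 1 u +
      (box i 1 ρ).indicator 1 u) := by
    funext u
    rfl
  rw [this]
  exact CS.sum _ fun i _ => (box_cs i 0 ρ).add (box_cs i 1 ρ)

/-- The constant in the boundary estimates. -/
noncomputable def KK (ι : Type*) [Fintype ι] : ℝ := Fintype.card ι * (4 * 4 ^ Fintype.card ι)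

theorem KK_nonneg (ι : Type*) [Fintype ι] : 0 ≤ KK ι := by unfold KK; positivity

theorem bump_integral {ρ : ℝ} (hρ : 0 ≤ ρ) : ∫ u : ι → ℝ, bump ρ u ≤ KK ι * ρ := by
  classical
  have : (bump ρ : (ι → ℝ) → ℝ) = fun u => ∑ i : ι, ((box i 0 ρ).indicator 1 u +
      (box i 1 ρ).indicator 1 u) := by
    funext u
    rfl
  rw [this, integral_finsetSum _ fun i _ => ((box_cs i 0 ρ).add (box_cs i 1 ρ)).integrable]
  have h1 : ∀ i : ι, ∫ u : ι → ℝ, ((box i 0 ρ).indicator 1 u + (box i 1 ρ).indicator 1 u) ≤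
      4 * 4 ^ Fintype.card ι * ρ := by
    intro i
    rw [integral_add (box_cs i 0 ρ).integrable (box_cs i 1 ρ).integrable,
      integral_indicator_one (s := box i 0 ρ) measurableSet_Icc,
      integral_indicator_one (s := box i 1 ρ) measurableSet_Icc]
    have h2 := box_vol i 0 hρ
    have h3 := box_vol i 1 hρ
    linarith
  refine (Finset.sum_le_sum fun i _ => h1 i).trans (le_of_eq ?_)
  simp [KK]
  ring

theorem one_le_bump [DecidableEq ι] {ρ : ℝ} {u : ι → ℝ}
    (h : ∃ i, u ∈ box i 0 ρ ∨ u ∈ box i 1 ρ) : 1 ≤ bump ρ u := by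
  obtain ⟨i, hi⟩ := h
  have : bump ρ u = ∑ i : ι, ((box i 0 ρ).indicator 1 u + (box i 1 ρ).indicator 1 u) := by
    unfold bump
    have hd : (fun a b => Classical.propDecidable (a = b) : DecidableEq ι) = ‹DecidableEq ι› :=
      Subsingleton.elim _ _
    rw [hd]
  rw [this]
  have h0 : ∀ (j : ι) (a : ℝ), 0 ≤ (box j a ρ).indicator (1 : (ι → ℝ) → ℝ) u := fun j a =>
    Set.indicator_nonneg (fun _ _ => zero_le_one) _
  refine le_trans ?_ (Finset.single_le_sum
    (f := fun i => (box i 0 ρ).indicator (1 : (ι → ℝ) → ℝ) u + (box i 1 ρ).indicator 1 u)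
    (fun j _ => add_nonneg (h0 j 0) (h0 j 1)) (Finset.mem_univ i))
  rcases hi with hi | hi
  · have := h0 i 1
    simp only [Set.indicator_of_mem hi, Pi.one_apply]
    linarith
  · have := h0 i 0
    simp only [Set.indicator_of_mem hi, Pi.one_apply]
    linarith

theorem q0_eq_of_bump {ρ : ℝ} (hρ : ρ ≤ 1) {u y : ι → ℝ} (hy : ‖y‖ ≤ ρ)
    (h : bump ρ u < 1) : q0 (u - y) = q0 u := by
  classical
  have hyi : ∀ i, |y i| ≤ ρ := fun i => by
    have := norm_le_pi_norm y i
    rw [Real.norm_eq_abs] at this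
    linarith
  rcases le_or_gt ‖u‖ 2 with hu | hu
  · have h0 : ∀ i, ρ < |u i| ∧ ρ < |u i - 1| := by
      intro i
      by_contra hcon
      rw [not_and_or, not_lt, not_lt] at hcon
      refine absurd (one_le_bump ⟨i, ?_⟩) (not_le.2 h)
      rcases hcon with hc | hc
      · left; exact mem_box hu (by simpa using hc)
      · right; exact mem_box hu hc
    have hiff : (u - y) ∈ cube ι ↔ u ∈ cube ι := by
      unfold cube
      simp only [Set.mem_ofPred_eq, Pi.sub_apply]
      refine forall_congr' fun i => ?_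
      obtain ⟨h1, h2⟩ := h0 i
      have h3 := abs_le.1 (hyi i)
      rcases lt_abs.1 h1 with h4 | h4 <;> rcases lt_abs.1 h2 with h5 | h5
      · constructor
        · intro h6; exfalso; linarith [h6.2, h3.2]
        · intro h6; exfalso; linarith [h6.2, (abs_nonneg (y i)).trans (hyi i)]
      · constructor
        · intro _; exact ⟨by linarith [(abs_nonneg (y i)).trans (hyi i)],
            by linarith [(abs_nonneg (y i)).trans (hyi i)]⟩
        · intro _; exact ⟨by linarith, by linarith⟩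
      · exfalso; linarith [(abs_nonneg (y i)).trans (hyi i)]
      · constructor
        · intro h6; exfalso; linarith [h6.1, h3.1]
        · intro h6; exfalso; linarith [h6.1, (abs_nonneg (y i)).trans (hyi i)]
    by_cases hm : u ∈ cube ι
    · rw [q0_mem hm, q0_mem (hiff.2 hm)]
    · rw [q0_not_mem hm, q0_not_mem (fun hh => hm (hiff.1 hh))]
  · have h1 : u ∉ cube ι := fun hh => by linarith [norm_le_of_cube hh]
    have h2 : (u - y) ∉ cube ι := fun hh => by
      have h3 := norm_le_of_cube hh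
      have h4 := norm_sub_norm_le u y
      linarith
    rw [q0_not_mem h1, q0_not_mem h2]

theorem nrm_q0_le {y : ι → ℝ} (hy : ‖y‖ ≤ 1) : nrm q0 y ≤ KK ι * ‖y‖ := by
  refine le_trans ?_ (bump_integral (norm_nonneg y))
  unfold nrm
  refine integral_mono ((q0_dens.cs.comp_sub y).sub q0_dens.cs).abs.integrable
    (bump_cs _).integrable ?_
  intro u
  simp only
  rcases lt_or_ge (bump ‖y‖ u) 1 with h | h
  · rw [q0_eq_of_bump hy le_rfl h]
    simp [bump_nonneg]
  · refine le_trans ?_ h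
    rcases q0_zero_or_one (u - y) with h1 | h1 <;> rcases q0_zero_or_one u with h2 | h2 <;>
    simp [h1, h2]

theorem gap_q0_le {Ω : Type*} {s : Finset Ω} (hs : s.Nonempty) (Y : Ω → ι → ℝ)
    {ρ : ℝ} (hρ : ρ ≤ 1) (hY : ∀ w ∈ s, ∀ w' ∈ s, ‖Y w - Y w'‖ ≤ ρ) :
    gap s Y q0 ≤ KK ι * ρ := by
  obtain ⟨w0, hw0⟩ := hs
  have hρ0 : 0 ≤ ρ := (norm_nonneg _).trans (hY w0 hw0 w0 hw0)
  have hc : (0:ℝ) < s.card := by exact_mod_cast Finset.card_pos.2 ⟨w0, hw0⟩
  have hd := q0_dens.avg ⟨w0, hw0⟩ Y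
  unfold gap
  rw [ent_q0, sub_zero]
  refine le_trans ?_ (bump_integral hρ0)
  rw [← integral_comp_sub (f := bump ρ) (Y w0)]
  unfold ent
  refine integral_mono hd.cs.negMulLog.integrable ((bump_cs ρ).comp_sub _).integrable ?_
  intro u
  simp only
  rcases lt_or_ge (bump ρ (u - Y w0)) 1 with h | h
  · have h1 : avg s Y q0 u = q0 (u - Y w0) := by
      unfold avg
      have : ∀ w ∈ s, (s.card : ℝ)⁻¹ * q0 (u - Y w) = (s.card : ℝ)⁻¹ * q0 (u - Y w0) := by
        intro w hw
        congr 1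
        rw [← q0_eq_of_bump hρ (hY w hw w0 hw0) h]
        congr 1
        abel
      rw [Finset.sum_congr rfl this]
      simp only [Finset.sum_const, nsmul_eq_mul]
      field_simp
    rw [h1]
    refine le_trans (le_of_eq ?_) (bump_nonneg ρ _)
    rcases q0_zero_or_one (u - Y w0) with h2 | h2 <;> simp [h2]
  · exact (negMulLog_le_one (hd.nonneg u)).trans h

end Pool.Agent.V7H68.SS
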