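import Pool.Agent.V7H68.SS.Key
import Pool.Agent.V7H68.SS.Bridge

/-!
An asymptotically invariant direction splits off a full factor of entropy.
-/

namespace Pool.Agent.V7H68.SS

open Finset Real MeasureTheory

set_option linter.unusedSectionVars false

variable {ι : Type*} [Fintype ι] {D : Type*} [Fintype D] [Nonempty D] {b : ℕ} (c : D → ι → ℝ)

theorem coarse_avg_PP (hb : 2 ≤ b) {Θ : Type*} [Fintype Θ] (T : Θ → ι → ℝ)
    (lo : ℤ) (n i : ℕ) :
    coarse b (avg Finset.univ (fun t => ((b:ℝ) ^ i)⁻¹ • T t) (PP b c (lo - i) n)) =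
      avg Finset.univ (fun t => ((b:ℝ) ^ (i + 1))⁻¹ • T t) (PP b c (lo - (i + 1 : ℕ)) n) := by
  have hb0 : (b:ℝ) ≠ 0 := by exact_mod_cast (by omega : b ≠ 0)
  rw [coarse_avg (by omega), coarse_PP c hb]
  congr 1
  · funext t
    rw [smul_smul]
    congr 1
    rw [pow_succ, mul_inv]
    ring
  · congr 1
    push_cast
    ring

theorem ent_avg_shifts (hb : 2 ≤ b) {Θ : Type*} [Fintype Θ] (T : Θ → ι → ℝ)
    (lo : ℤ) (n r : ℕ) :
    ent (avg Finset.univ T (PP b c lo n)) =
      ent (avg Finset.univ (fun t => ((b:ℝ) ^ r)⁻¹ • T t) (PP b c (lo - r) n)) +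
      ∑ i ∈ Finset.range r,
        inc b (avg Finset.univ (fun t => ((b:ℝ) ^ i)⁻¹ • T t) (PP b c (lo - i) n)) := by
  induction r with
  | zero => simp
  | succ r ih =>
    rw [ih, Finset.sum_range_succ]
    have : inc b (avg Finset.univ (fun t => ((b:ℝ) ^ r)⁻¹ • T t) (PP b c (lo - r) n)) =
        ent (avg Finset.univ (fun t => ((b:ℝ) ^ r)⁻¹ • T t) (PP b c (lo - r) n)) -
        ent (avg Finset.univ (fun t => ((b:ℝ) ^ (r + 1))⁻¹ • T t)
          (PP b c (lo - (r + 1 : ℕ)) n)) := by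
      unfold inc
      rw [coarse_avg_PP c hb]
    rw [this]
    ring

theorem avg_avg {Θ Ω : Type*} [Fintype Θ] [Fintype Ω] (T : Θ → ι → ℝ) (Y : Ω → ι → ℝ)
    (p : (ι → ℝ) → ℝ) :
    avg Finset.univ T (avg Finset.univ Y p) =
      avg Finset.univ (fun z : Θ × Ω => T z.1 + Y z.2) p := by
  funext u
  unfold avg
  rw [Fintype.sum_prod_type]
  refine Finset.sum_congr rfl fun t _ => ?_
  rw [Finset.mul_sum]
  refine Finset.sum_congr rfl fun w _ => ?_
  rw [← mul_assoc]
  congr 1
  · simp only [Finset.card_univ, Fintype.card_prod]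
    push_cast
    rw [mul_inv]
  · rw [sub_sub]

theorem inv_upper (hb : 2 ≤ b) {u : ι → ℝ} (hu : nn b c u = 0) : ∃ C : ℝ, ∀ q : ℕ,
    ent (avg Finset.univ (fun j : Fin (b ^ q) => ((j : ℕ) : ℝ) • u) (PP b c 0 q)) ≤
      q * alpha b c + C := by
  have hb0 : (0:ℝ) < b := by exact_mod_cast (by omega : 0 < b)
  refine ⟨1 + volume.real (Metric.closedBall (0 : ι → ℝ) (1 + cn c + ‖u‖)), fun q => ?_⟩
  set T : Fin (b ^ q) → ι → ℝ := fun j => ((j : ℕ) : ℝ) • u with hT
  have : Nonempty (Fin (b ^ q)) := ⟨⟨0, pow_pos (by omega) q⟩⟩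
  have hTne : (Finset.univ : Finset (Fin (b ^ q))).Nonempty := Finset.univ_nonempty
  have hlB : 0 ≤ log ((Finset.univ : Finset (Fin (b ^ q))).card : ℝ) :=
    Real.log_nonneg (by exact_mod_cast Finset.card_pos.2 hTne)
  set ε : ℝ := (1 + log ((Finset.univ : Finset (Fin (b ^ q))).card : ℝ))⁻¹ with hε
  have hε0 : 0 < ε := by positivity
  have hnn : ∀ j j', nn b c (T j - T j') = 0 := by
    intro j j'
    refine le_antisymm ?_ (nn_nonneg c _)
    have h1 := nn_add (b := b) c (T j) (-(T j'))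
    rw [← sub_eq_add_neg, nn_neg, nn_nsmul c hu, nn_nsmul c hu] at h1
    linarith
  have hex : ∀ z : Fin (b ^ q) × Fin (b ^ q), ∃ k0 : ℕ, ∀ (lo : ℤ) (n : ℕ),
      lo ≤ -k0 → (k0 : ℤ) ≤ lo + n → nrm (PP b c lo n) (T z.1 - T z.2) ≤ ε := by
    intro z
    obtain ⟨k0, h⟩ := nn_window (b := b) c (T z.1 - T z.2) hε0
    refine ⟨k0, fun lo n h1 h2 => ?_⟩
    have := h lo n h1 h2
    rw [hnn] at this
    linarith
  choose K hK using hex
  set M := q + ∑ z, K z with hM
  have hKM : ∀ z, K z ≤ M := fun z => by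
    have := Finset.single_le_sum (f := K) (fun _ _ => Nat.zero_le _) (Finset.mem_univ z)
    omega
  have hgap : gap Finset.univ T (PP b c (-M) (2 * M)) ≤ 1 := by
    refine (gap_le_pair hTne T (PP_dens c _ _).cs (PP_dens c _ _).nonneg).trans ?_
    have h1 : pairN Finset.univ T (nrm (PP b c (-M) (2 * M))) ≤ ε := by
      unfold pairN
      have hc : (0:ℝ) < ((Finset.univ : Finset (Fin (b ^ q))).card : ℝ) := by
        exact_mod_cast Finset.card_pos.2 hTne
      calc _ ≤ ∑ w ∈ (Finset.univ : Finset (Fin (b ^ q))),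
            ((Finset.univ : Finset (Fin (b ^ q))).card : ℝ)⁻¹ *
            ∑ w' ∈ (Finset.univ : Finset (Fin (b ^ q))),
              ((Finset.univ : Finset (Fin (b ^ q))).card : ℝ)⁻¹ * ε := by
            refine Finset.sum_le_sum fun w _ => mul_le_mul_of_nonneg_left ?_ (by positivity)
            refine Finset.sum_le_sum fun w' _ => mul_le_mul_of_nonneg_left ?_ (by positivity)
            have := hKM (w, w')
            exact hK (w, w') _ _ (by omega) (by push_cast; omega)
        _ = ε := by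
            simp only [Finset.sum_const, nsmul_eq_mul]
            field_simp
    calc _ ≤ (1 + log ((Finset.univ : Finset (Fin (b ^ q))).card : ℝ)) * ε :=
          mul_le_mul_of_nonneg_left h1 (by positivity)
      _ = 1 := by rw [hε]; field_simp
  -- big window
  have h1 := ent_avg_shifts c hb T (-M) (2 * M) q
  have h2 := ent_shifts c hb (-M) (2 * M) q
  have h3 : ∑ i ∈ Finset.range q, inc b (PP b c (-M - i) (2 * M)) ≤ q * alpha b c := by
    refine (Finset.sum_le_sum fun i _ => inc_le_alpha c hb _ _).trans ?_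
    simp
  have h4 : 0 ≤ gap Finset.univ (fun t => ((b:ℝ) ^ q)⁻¹ • T t) (PP b c (-M - q) (2 * M)) :=
    gap_nonneg hTne _ (PP_dens c _ _).cs (PP_dens c _ _).nonneg
  -- small window
  have h5 := ent_avg_shifts c hb T 0 q q
  have h6 : ∀ i ∈ Finset.range q,
      inc b (avg Finset.univ (fun t => ((b:ℝ) ^ i)⁻¹ • T t) (PP b c (0 - i) q)) ≤
      inc b (avg Finset.univ (fun t => ((b:ℝ) ^ i)⁻¹ • T t) (PP b c (-M - i) (2 * M))) := by
    intro i _
    obtain ⟨n1, n2, h⟩ := PP_split (b := b) c (lo := 0 - i) (lo' := -M - i) (n := q)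
      (n' := 2 * M) (by omega) (by push_cast; omega)
    rw [h, avg_It, avg_It]
    have hd : Dens (avg Finset.univ (fun t => ((b:ℝ) ^ i)⁻¹ • T t) (PP b c (0 - i) q)) :=
      (PP_dens c _ _).avg hTne _
    exact (inc_It_ge c hb _ _ hd).trans (inc_It_ge c hb _ _ (It_dens c _ _ hd))
  have h7 := Finset.sum_le_sum h6
  have h8 : ent (avg Finset.univ (fun t => ((b:ℝ) ^ q)⁻¹ • T t) (PP b c (0 - q) q)) ≤
      volume.real (Metric.closedBall (0 : ι → ℝ) (1 + cn c + ‖u‖)) := by
    refine ent_le_vol ((PP_dens c _ _).avg hTne _) ?_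
    refine avg_supp _ _ ?_ ?_
    · rw [zero_sub]
      exact fun v hv => PP_neg_supp c hb q v hv
    · intro t _
      rw [hT]
      simp only
      rw [smul_smul, norm_smul]
      have ht : ((t : ℕ) : ℝ) ≤ (b:ℝ) ^ q := by exact_mod_cast t.2.le
      have : ‖((b:ℝ) ^ q)⁻¹ * ((t:ℕ):ℝ)‖ ≤ 1 := by
        rw [Real.norm_of_nonneg (by positivity), inv_mul_le_iff₀ (by positivity), mul_one]
        exact ht
      nlinarith [norm_nonneg u]
  unfold gap at hgap h4
  linarith

/-- Projection along `u`, with the coordinate `p` removed. -/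
noncomputable def prj (u : ι → ℝ) (p : ι) : (ι → ℝ) →ₗ[ℝ] ({i // i ≠ p} → ℝ) :=
  LinearMap.pi fun i => LinearMap.proj i.1 - (u i.1 / u p) • LinearMap.proj p

theorem prj_apply (u : ι → ℝ) (p : ι) (x : ι → ℝ) (i : {i // i ≠ p}) :
    prj u p x i = x i.1 - (u i.1 / u p) * x p := by
  simp [prj]

theorem prj_self {u : ι → ℝ} {p : ι} (hp : u p ≠ 0) (a : ℝ) : prj u p (a • u) = 0 := by
  funext i
  rw [prj_apply]
  simp only [Pi.smul_apply, smul_eq_mul, Pi.zero_apply]
  field_simp
  ring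

theorem prj_norm [DecidableEq ι] {u : ι → ℝ} {p : ι} (hp : 1 ≤ |u p|) (x : ι → ℝ) :
    ‖prj u p x‖ ≤ (1 + ‖u‖) * ‖x‖ := by
  rw [pi_norm_le_iff_of_nonneg (by positivity)]
  intro i
  rw [prj_apply]
  refine (norm_sub_le _ _).trans ?_
  rw [norm_mul, norm_div]
  have h1 := norm_le_pi_norm x i.1
  have h2 := norm_le_pi_norm x p
  have h3 := norm_le_pi_norm u i.1
  have h4 : ‖u i.1‖ / ‖u p‖ ≤ ‖u‖ := by
    rw [Real.norm_eq_abs (u p)]
    rw [div_le_iff₀ (by linarith)]
    nlinarith [norm_nonneg u]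
  have h5 : ‖u i.1‖ / ‖u p‖ * ‖x p‖ ≤ ‖u‖ * ‖x‖ :=
    mul_le_mul h4 h2 (norm_nonneg _) (norm_nonneg _)
  linarith

theorem XX_map {κ : Type*} (P : (ι → ℝ) →ₗ[ℝ] (κ → ℝ)) (k : ℕ) (w : Fin k → D) :
    XX b (fun d => P (c d)) k w = P (XX b c k w) := by
  unfold XX
  rw [map_sum]
  simp only [map_smul]

theorem norm_sub_le_of_fl2 {x y : ι → ℝ} (h : fl x = fl y) : ‖x - y‖ ≤ 1 := by
  rw [pi_norm_le_iff_of_nonneg zero_le_one]
  intro i
  have h1 : ⌊x i⌋ = ⌊y i⌋ := congrFun h i
  have h2 := Int.abs_sub_lt_one_of_floor_eq_floor h1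
  simpa using h2.le

theorem inv_lower (hb : 2 ≤ b) [DecidableEq ι] {u : ι → ℝ} {p : ι} (hp : 1 ≤ |u p|) :
    ∃ C : ℝ, ∀ q : ℕ,
    q * log b + ent (PP b (fun d => prj u p (c d)) 0 q) ≤
    ent (avg Finset.univ (fun j : Fin (b ^ q) => ((j : ℕ) : ℝ) • u) (PP b c 0 q)) + C := by
  classical
  have hb0 : (0:ℝ) < b := by exact_mod_cast (by omega : 0 < b)
  have hup : u p ≠ 0 := by
    intro h
    rw [h] at hp
    norm_num at hp
  obtain ⟨K, hK⟩ := exists_nat_ge ((1 + ‖u‖) * 1 + 1)
  set M : ℝ := (2 * K + 1) ^ Fintype.card {i // i ≠ p} with hM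
  have hM0 : 0 < M := by positivity
  refine ⟨4 ^ Fintype.card {i // i ≠ p} + log M + Fintype.card ι * log 2, fun q => ?_⟩
  have hbq : 0 < b ^ q := pow_pos (by omega) q
  have : Nonempty (Fin (b ^ q)) := ⟨⟨0, hbq⟩⟩
  set c' : D → {i // i ≠ p} → ℝ := fun d => prj u p (c d) with hc'
  set T : Fin (b ^ q) → ι → ℝ := fun j => ((j : ℕ) : ℝ) • u with hT
  have e1 : PP b c 0 q = avg Finset.univ (fun w => XX b c q w) q0 := by
    have := avg_XX c hb 0 q q0
    simpa [PP] using this.symm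
  have e1' : PP b c' 0 q = avg Finset.univ (fun w => XX b c' q w) q0 := by
    have := avg_XX c' hb 0 q q0
    simpa [PP] using this.symm
  rw [e1, avg_avg, e1']
  set Y : Fin (b ^ q) × (Fin q → D) → ι → ℝ := fun z => T z.1 + XX b c q z.2 with hY
  have h1 := bridge_lower Y
  have h2 := bridge_upper (fun w => XX b c' q w)
  set N : ℝ := (Fintype.card (Fin q → D) : ℝ) with hN
  have hNpos : 0 < N := by rw [hN]; exact_mod_cast Fintype.card_pos
  set F' : (Fin q → D) → {i // i ≠ p} → ℤ := fun w => fl (XX b c' q w) with hF'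
  set R : (Fin q → D) → (Fin q → D) → Prop := fun v w => ∀ j, |F' w j - F' v j| ≤ K with hR
  set nr : (Fin q → D) → ℝ := fun w => ((Finset.univ.filter (fun v => R v w)).card : ℝ) with hnr
  have hnrpos : ∀ w, 0 < nr w := by
    intro w
    rw [hnr]
    simp only
    have : 0 < (Finset.univ.filter (fun v => R v w)).card := by
      rw [Finset.card_pos]
      exact ⟨w, by simp [hR]⟩
    exact_mod_cast this
  have hsum : ∑ w, nr w / (cls F' w).card ≤ N * M := by
    refine sum_rel_le F' R (fun v => Fintype.piFinset fun j =>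
      Finset.Icc (F' v j - K) (F' v j + K)) (fun v w hvw => ?_) (fun v => ?_)
    · rw [Fintype.mem_piFinset]
      intro j
      rw [Finset.mem_Icc]
      have := abs_le.1 (hvw j)
      constructor <;> omega
    · rw [Fintype.card_piFinset]
      have : ∀ j, (Finset.Icc (F' v j - K) (F' v j + K)).card = 2 * K + 1 := by
        intro j
        rw [Int.card_Icc]
        have : F' v j + K + 1 - (F' v j - K) = ((2 * K + 1 : ℕ) : ℤ) := by push_cast; ring
        rw [this]; rfl
      simp only [this, Finset.prod_const, Finset.card_univ]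
      rw [hM]
      push_cast
      exact le_rfl
  have hlog := mean_log_le F' hnrpos hM0 hsum
  -- class sizes in the product
  have hcls : ∀ z : Fin (b ^ q) × (Fin q → D),
      ((cls (fun z => fl (Y z)) z).card : ℝ) ≤ nr z.2 := by
    intro z
    rw [hnr]
    simp only
    refine Nat.cast_le.2 ?_
    refine Finset.card_le_card_of_injOn (fun z => z.2) ?_ ?_
    · intro z' hz'
      have hz1 : fl (Y z') = fl (Y z) :=
        (mem_cls (F := fun z => fl (Y z))).1 (Finset.mem_coe.1 hz')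
      have h3 := norm_sub_le_of_fl2 hz1.symm
      simp only [Finset.coe_filter, Finset.mem_univ, true_and, Set.mem_ofPred_eq, hR]
      intro j
      have h4 : ‖XX b c' q z.2 - XX b c' q z'.2‖ ≤ (1 + ‖u‖) * 1 := by
        rw [hc', XX_map, XX_map, ← map_sub]
        have h5 : prj u p (XX b c q z.2 - XX b c q z'.2) = prj u p (Y z - Y z') := by
          rw [hY]
          simp only [hT, map_sub, map_add, prj_self hup]
          abel
        rw [h5]
        refine (prj_norm hp _).trans (mul_le_mul_of_nonneg_left h3 (by positivity))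
      have h5 := norm_le_pi_norm (XX b c' q z.2 - XX b c' q z'.2) j
      rw [Real.norm_eq_abs, Pi.sub_apply] at h5
      have h6 : |XX b c' q z.2 j - XX b c' q z'.2 j| ≤ (1 + ‖u‖) * 1 := h5.trans h4
      rw [abs_le] at h6 ⊢
      simp only [hF', fl]
      have h7 := Int.floor_le (XX b c' q z.2 j)
      have h8 := Int.lt_floor_add_one (XX b c' q z.2 j)
      have h9 := Int.floor_le (XX b c' q z'.2 j)
      have h10 := Int.lt_floor_add_one (XX b c' q z'.2 j)
      constructor
      · have : (-(K:ℝ)) ≤ (⌊XX b c' q z.2 j⌋ : ℝ) - ⌊XX b c' q z'.2 j⌋ := by linarith [h6.1]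
        exact_mod_cast this
      · have : (⌊XX b c' q z.2 j⌋ : ℝ) - ⌊XX b c' q z'.2 j⌋ ≤ K := by linarith [h6.2]
        exact_mod_cast this
    · intro z1 hz1 z2 hz2 h12
      have e1 : fl (Y z1) = fl (Y z) := (mem_cls (F := fun z => fl (Y z))).1 (Finset.mem_coe.1 hz1)
      have e2 : fl (Y z2) = fl (Y z) := (mem_cls (F := fun z => fl (Y z))).1 (Finset.mem_coe.1 hz2)
      have e3 : ⌊Y z1 p⌋ = ⌊Y z2 p⌋ := congrFun (e1.trans e2.symm) p
      have e4 := Int.abs_sub_lt_one_of_floor_eq_floor e3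
      have e5 : Y z1 p - Y z2 p = (((z1.1 : ℕ) : ℝ) - ((z2.1 : ℕ) : ℝ)) * u p := by
        rw [hY]
        simp only [hT, Pi.add_apply, Pi.smul_apply, smul_eq_mul]
        simp only at h12
        rw [h12]
        ring
      rw [e5, abs_mul] at e4
      have e6 : |((z1.1 : ℕ) : ℝ) - ((z2.1 : ℕ) : ℝ)| < 1 := by
        by_contra hcon
        rw [not_lt] at hcon
        nlinarith [abs_nonneg (u p)]
      have e7 : (z1.1 : ℕ) = (z2.1 : ℕ) := by
        have e8 : |(((z1.1 : ℕ) : ℤ) - ((z2.1 : ℕ) : ℤ) : ℤ)| < 1 := by exact_mod_cast e6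
        rw [Int.abs_lt_one_iff] at e8
        omega
      exact Prod.ext (Fin.ext e7) h12
  have hhf : hf (fun z => fl (Y z)) ≤ ∑ w, N⁻¹ * log (nr w) := by
    unfold hf
    have h3 : ∀ z : Fin (b ^ q) × (Fin q → D), z ∈ (Finset.univ : Finset _) →
        (Fintype.card (Fin (b ^ q) × (Fin q → D)) : ℝ)⁻¹ *
          log ((cls (fun z => fl (Y z)) z).card) ≤
        (Fintype.card (Fin (b ^ q) × (Fin q → D)) : ℝ)⁻¹ * log (nr z.2) := fun z _ =>
      mul_le_mul_of_nonneg_left (Real.log_le_log (cls_pos _ z) (hcls z)) (by positivity)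
    refine (Finset.sum_le_sum h3).trans (le_of_eq ?_)
    rw [Fintype.sum_prod_type]
    simp only [Finset.sum_const, Finset.card_univ, Fintype.card_fin, nsmul_eq_mul]
    rw [Finset.mul_sum]
    refine Finset.sum_congr rfl fun w _ => ?_
    rw [Fintype.card_prod, Fintype.card_fin]
    push_cast
    rw [← hN, mul_inv]
    field_simp
  have hcard : log (Fintype.card (Fin (b ^ q) × (Fin q → D))) = q * log b + log N := by
    rw [Fintype.card_prod, Fintype.card_fin]
    push_cast
    rw [Real.log_mul (by positivity) (by rw [← hN]; exact hNpos.ne'), Real.log_pow]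
  rw [hcard] at h1
  linarith

/-- The entropy rate splits along an asymptotically invariant direction. -/
theorem alpha_split (hb : 2 ≤ b) [DecidableEq ι] {u : ι → ℝ} {p : ι} (hp : 1 ≤ |u p|)
    (hu : nn b c u = 0) : log b + alpha b (fun d => prj u p (c d)) ≤ alpha b c := by
  obtain ⟨C1, h1⟩ := inv_upper c hb hu
  obtain ⟨C2, h2⟩ := inv_lower c hb hp
  refine le_of_forall_pos_le_add fun η hη => ?_
  obtain ⟨C3, -, h3⟩ := ent_lower (fun d => prj u p (c d)) hb (half_pos hη)
  obtain ⟨q, hq⟩ := exists_nat_ge ((C1 + C2 + C3) * 2 / η + 1)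
  have hq0 : (0:ℝ) ≤ q := by positivity
  have h4 := h1 q
  have h5 := h2 q
  have h6 := h3 q
  have h7 : C1 + C2 + C3 ≤ q * (η / 2) := by
    have : (C1 + C2 + C3) * 2 / η ≤ q := by linarith
    rw [div_le_iff₀ hη] at this
    linarith
  have h8 : q * (log b + alpha b (fun d => prj u p (c d))) ≤ q * (alpha b c + η) := by
    linarith
  rcases Nat.eq_zero_or_pos q with h | h
  · rcases le_or_gt 0 (C1 + C2 + C3) with hC | hC
    · exfalso
      rw [h] at hq
      have : 0 ≤ (C1 + C2 + C3) * 2 / η := by positivity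
      norm_num at hq
      linarith
    · -- use q = 1
      have h4 := h1 1
      have h5 := h2 1
      have h6 := h3 1
      push_cast at h4 h5 h6
      linarith
  · exact le_of_mul_le_mul_left h8 (by exact_mod_cast h)

end Pool.Agent.V7H68.SS
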