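import Pool.Agent.V7H68.SS.Conc
import Pool.Agent.V7H68.SS.Inv

/-!
Structure theorem: after a linear projection the words concentrate at all exponential scales.
-/

namespace Pool.Agent.V7H68.SS

open Finset Real MeasureTheory

set_option linter.unusedSectionVars false

variable {D : Type*} [Fintype D] [Nonempty D] {b : ℕ}

theorem prj_surj {ι : Type} [Fintype ι] [DecidableEq ι] {u : ι → ℝ} {p : ι} :
    Function.Surjective (prj u p) := by
  intro z
  refine ⟨fun i => if h : i ≠ p then z ⟨i, h⟩ else 0, ?_⟩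
  funext i
  rw [prj_apply]
  simp [i.2]

theorem structure_aux (hb : 2 ≤ b) (n : ℕ) : ∀ (ι : Type) [Fintype ι] [DecidableEq ι]
    (c : D → ι → ℝ), Fintype.card ι = n →
    ∃ (l : ℕ) (κ : Type) (_ : Fintype κ) (P : (ι → ℝ) →ₗ[ℝ] (κ → ℝ)),
      Fintype.card κ + l = Fintype.card ι ∧ Function.Surjective P ∧
      ∀ (A : ℕ) (η : ℝ), 0 < η → ∃ k0 : ℕ, ∀ k : ℕ, k0 ≤ k → ∃ w0 : Fin k → D,
        (Fintype.card (Fin k → D) : ℝ) * exp (- ((alpha b c - l * log b + η) * k)) ≤
        (Nat.card {w : Fin k → D //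
          ‖(b:ℝ) ^ (A * k) • (P (XX b c k w) - P (XX b c k w0))‖ ≤ 1} : ℝ) := by
  induction n with
  | zero =>
    intro ι _ _ c hcard
    have hemp : IsEmpty ι := Fintype.card_eq_zero_iff.1 hcard
    refine ⟨0, ι, inferInstance, LinearMap.id, by simp, Function.surjective_id, ?_⟩
    intro A η hη
    refine ⟨0, fun k _ => ⟨Classical.arbitrary _, ?_⟩⟩
    have ha : alpha b c = 0 := by
      have h1 := alpha_le c hb
      rw [hcard] at h1
      have h2 := alpha_nonneg c hb
      simp at h1
      linarith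
    have h1 : Nat.card {w : Fin k → D //
          ‖(b:ℝ) ^ (A * k) • (LinearMap.id (R := ℝ) (XX b c k w) -
            LinearMap.id (R := ℝ) (XX b c k (Classical.arbitrary _)))‖ ≤ 1} =
        Fintype.card (Fin k → D) := by
      have h2 : ∀ w : Fin k → D, ‖(b:ℝ) ^ (A * k) • (LinearMap.id (R := ℝ) (XX b c k w) -
            LinearMap.id (R := ℝ) (XX b c k (Classical.arbitrary _)))‖ ≤ 1 := by
        intro w
        have : (b:ℝ) ^ (A * k) • (LinearMap.id (R := ℝ) (XX b c k w) -
            LinearMap.id (R := ℝ) (XX b c k (Classical.arbitrary _))) = 0 :=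
          Subsingleton.elim _ _
        rw [this]
        simp
      rw [← Nat.card_eq_fintype_card]
      exact Nat.card_congr (Equiv.subtypeUnivEquiv h2)
    rw [h1, ha]
    have h3 : exp (-((0 - ((0:ℕ):ℝ) * log b + η) * k)) ≤ 1 := by
      rw [Real.exp_le_one_iff]
      push_cast
      have : 0 ≤ η * k := by positivity
      linarith
    have h4 : (0:ℝ) ≤ Fintype.card (Fin k → D) := by positivity
    nlinarith
  | succ n ih =>
    intro ι _ _ c hcard
    by_cases hne : ∀ y, y ≠ 0 → nn b c y ≠ 0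
    · refine ⟨0, ι, inferInstance, LinearMap.id, by simp, Function.surjective_id, ?_⟩
      intro A η hη
      obtain ⟨k0, hk0⟩ := conc c hb hne A hη
      refine ⟨k0, fun k hk => ?_⟩
      obtain ⟨w0, hw0⟩ := hk0 k hk
      refine ⟨w0, ?_⟩
      simpa using hw0
    · push Not at hne
      obtain ⟨u, hu0, hu⟩ := hne
      obtain ⟨p, hp⟩ : ∃ p, u p ≠ 0 := by
        by_contra hcon
        push Not at hcon
        exact hu0 (funext hcon)
      obtain ⟨N, hN⟩ := exists_nat_ge (1 / |u p|)
      set u' : ι → ℝ := (N:ℝ) • u with hu'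
      have hp' : 1 ≤ |u' p| := by
        rw [hu']
        simp only [Pi.smul_apply, smul_eq_mul, abs_mul]
        rw [div_le_iff₀ (abs_pos.2 hp)] at hN
        rw [abs_of_nonneg (show (0:ℝ) ≤ N by positivity)]
        exact hN
      have hnu' : nn b c u' = 0 := nn_nsmul c hu N
      have hsplit := alpha_split c hb hp' hnu'
      set c' : D → {i // i ≠ p} → ℝ := fun d => prj u' p (c d) with hc'
      have hcard' : Fintype.card {i // i ≠ p} = n := by
        rw [Fintype.card_subtype_compl, hcard]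
        simp
      obtain ⟨l, κ, hκ, P, h1, h2, h3⟩ := ih {i // i ≠ p} c' hcard'
      refine ⟨l + 1, κ, hκ, P.comp (prj u' p), ?_, ?_, ?_⟩
      · rw [hcard, ← add_assoc, h1, hcard']
      · exact h2.comp prj_surj
      · intro A η hη
        obtain ⟨k0, hk0⟩ := h3 A η hη
        refine ⟨k0, fun k hk => ?_⟩
        obtain ⟨w0, hw0⟩ := hk0 k hk
        refine ⟨w0, ?_⟩
        have h4 : ∀ w, P (XX b c' k w) = (P.comp (prj u' p)) (XX b c k w) := by
          intro w
          rw [hc', XX_map]
          rfl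
        simp only [h4] at hw0
        refine le_trans ?_ hw0
        refine mul_le_mul_of_nonneg_left ?_ (by positivity)
        apply Real.exp_le_exp.2
        have hk : (0:ℝ) ≤ k := by positivity
        push_cast
        nlinarith

/-- Structure theorem. -/
theorem structure_thm (hb : 2 ≤ b) {ι : Type} [Fintype ι] (c : D → ι → ℝ) :
    ∃ (l : ℕ) (κ : Type) (_ : Fintype κ) (P : (ι → ℝ) →ₗ[ℝ] (κ → ℝ)),
      Fintype.card κ + l = Fintype.card ι ∧ Function.Surjective P ∧
      ∀ (A : ℕ) (η : ℝ), 0 < η → ∃ k0 : ℕ, ∀ k : ℕ, k0 ≤ k → ∃ w0 : Fin k → D,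
        (Fintype.card (Fin k → D) : ℝ) * exp (- ((alpha b c - l * log b + η) * k)) ≤
        (Nat.card {w : Fin k → D //
          ‖(b:ℝ) ^ (A * k) • (P (XX b c k w) - P (XX b c k w0))‖ ≤ 1} : ℝ) := by
  classical
  exact structure_aux hb _ ι c rfl

end Pool.Agent.V7H68.SS
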