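import Pool.Agent.V7H68.SS.Cube

/-!
Windows of digit levels.
-/

namespace Pool.Agent.V7H68.SS

open Finset Real MeasureTheory

set_option linter.unusedSectionVars false

variable {ι : Type*} [Fintype ι] {D : Type*} [Fintype D] [Nonempty D]

theorem avg_comm {Ω Θ : Type*} (s : Finset Ω) (Y : Ω → ι → ℝ) (t : Finset Θ)
    (Z : Θ → ι → ℝ) (p : (ι → ℝ) → ℝ) : avg s Y (avg t Z p) = avg t Z (avg s Y p) := by
  funext u
  unfold avg
  simp only [Finset.mul_sum]
  rw [Finset.sum_comm]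
  refine Finset.sum_congr rfl fun z _ => Finset.sum_congr rfl fun w _ => ?_
  rw [mul_left_comm]
  congr 3
  abel

/-- One digit level. -/
noncomputable def step (b : ℕ) (c : D → ι → ℝ) (j : ℤ) (p : (ι → ℝ) → ℝ) : (ι → ℝ) → ℝ :=
  avg Finset.univ (fun d => (b : ℝ) ^ j • c d) p

/-- Digit levels `lo, …, lo + n - 1`. -/
noncomputable def It (b : ℕ) (c : D → ι → ℝ) (lo : ℤ) : ℕ → ((ι → ℝ) → ℝ) → (ι → ℝ) → ℝ
  | 0, q => q
  | n + 1, q => step b c (lo + n) (It b c lo n q)

/-- The density of a window. -/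
noncomputable def PP (b : ℕ) (c : D → ι → ℝ) (lo : ℤ) (n : ℕ) : (ι → ℝ) → ℝ := It b c lo n q0

variable {b : ℕ} (c : D → ι → ℝ)

theorem univ_ne : (Finset.univ : Finset D).Nonempty := Finset.univ_nonempty

theorem It_dens (lo : ℤ) (n : ℕ) {q : (ι → ℝ) → ℝ} (hq : Dens q) : Dens (It b c lo n q) := by
  induction n with
  | zero => exact hq
  | succ n ih => exact ih.avg univ_ne _

theorem PP_dens (lo : ℤ) (n : ℕ) : Dens (PP b c lo n) := It_dens c lo n q0_dens

theorem avg_It {Ω : Type*} (s : Finset Ω) (Y : Ω → ι → ℝ) (lo : ℤ) (n : ℕ)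
    (q : (ι → ℝ) → ℝ) : avg s Y (It b c lo n q) = It b c lo n (avg s Y q) := by
  induction n with
  | zero => rfl
  | succ n ih => simp only [It, step]; rw [avg_comm, ih]

theorem It_It_comm (lo lo' : ℤ) (n n' : ℕ) (q : (ι → ℝ) → ℝ) :
    It b c lo n (It b c lo' n' q) = It b c lo' n' (It b c lo n q) := by
  induction n with
  | zero => rfl
  | succ n ih =>
    simp only [It]
    rw [ih]
    exact avg_It c _ _ lo' n' _

theorem It_add (lo : ℤ) (n n' : ℕ) (q : (ι → ℝ) → ℝ) :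
    It b c lo (n + n') q = It b c (lo + n) n' (It b c lo n q) := by
  induction n' with
  | zero => rfl
  | succ n' ih =>
    rw [← Nat.add_assoc]
    simp only [It]
    rw [ih]
    congr 1
    push_cast
    ring

theorem PP_split {lo lo' : ℤ} {n n' : ℕ} (h1 : lo' ≤ lo) (h2 : lo + n ≤ lo' + n') :
    ∃ n1 n2 : ℕ, PP b c lo' n' = It b c (lo + n) n2 (It b c lo' n1 (PP b c lo n)) := by
  obtain ⟨n1, hn1⟩ := Int.eq_ofNat_of_zero_le (sub_nonneg.2 h1)
  obtain ⟨n2, hn2⟩ := Int.eq_ofNat_of_zero_le (sub_nonneg.2 h2)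
  refine ⟨n1, n2, ?_⟩
  have h3 : n' = n1 + n + n2 := by omega
  unfold PP
  rw [h3, It_add, It_add]
  have h4 : lo' + (n1 : ℤ) = lo := by omega
  have h5 : lo' + ((n1 + n : ℕ) : ℤ) = lo + n := by push_cast; omega
  rw [h4, h5, It_It_comm c lo lo']

theorem coarse_step (hb : 2 ≤ b) (j : ℤ) (q : (ι → ℝ) → ℝ) :
    coarse b (step b c j q) = step b c (j - 1) (coarse b q) := by
  have hb0 : 0 < b := by omega
  have hb' : (b:ℝ) ≠ 0 := by exact_mod_cast hb0.ne'
  unfold step
  rw [coarse_avg hb0]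
  congr 1
  funext d
  rw [smul_smul, zpow_sub_one₀ hb']
  congr 1
  ring

theorem coarse_It (hb : 2 ≤ b) (lo : ℤ) (n : ℕ) (q : (ι → ℝ) → ℝ) :
    coarse b (It b c lo n q) = It b c (lo - 1) n (coarse b q) := by
  induction n with
  | zero => rfl
  | succ n ih =>
    simp only [It]
    rw [coarse_step c hb, ih]
    congr 1
    ring

theorem coarse_PP (hb : 2 ≤ b) (lo : ℤ) (n : ℕ) :
    coarse b (PP b c lo n) = PP b c (lo - 1) n := by
  unfold PP
  rw [coarse_It c hb, coarse_q0 (by omega)]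

theorem inc_It_ge (hb : 2 ≤ b) (lo : ℤ) (n : ℕ) {q : (ι → ℝ) → ℝ} (hq : Dens q) :
    inc b q ≤ inc b (It b c lo n q) := by
  induction n with
  | zero => exact le_rfl
  | succ n ih =>
    exact ih.trans (inc_avg_ge (by omega) univ_ne _ (It_dens c lo n hq).cs
      (It_dens c lo n hq).nonneg)

theorem gap_It_le {Ω : Type*} {s : Finset Ω} (hs : s.Nonempty) (Y : Ω → ι → ℝ)
    (lo : ℤ) (n : ℕ) {q : (ι → ℝ) → ℝ} (hq : Dens q) :
    gap s Y (It b c lo n q) ≤ gap s Y q := by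
  induction n with
  | zero => exact le_rfl
  | succ n ih =>
    exact (gap_avg_le hs Y univ_ne _ (It_dens c lo n hq).cs (It_dens c lo n hq).nonneg).trans ih

theorem nrm_It_le (lo : ℤ) (n : ℕ) {q : (ι → ℝ) → ℝ} (hq : Dens q) (y : ι → ℝ) :
    nrm (It b c lo n q) y ≤ nrm q y := by
  induction n with
  | zero => exact le_rfl
  | succ n ih =>
    exact (nrm_avg_le univ_ne _ (It_dens c lo n hq).cs y).trans ih

theorem inc_PP_mono (hb : 2 ≤ b) {lo lo' : ℤ} {n n' : ℕ} (h1 : lo' ≤ lo)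
    (h2 : lo + n ≤ lo' + n') : inc b (PP b c lo n) ≤ inc b (PP b c lo' n') := by
  obtain ⟨n1, n2, h⟩ := PP_split (b := b) c h1 h2
  rw [h]
  exact (inc_It_ge c hb _ _ (PP_dens c lo n)).trans
    (inc_It_ge c hb _ _ (It_dens c _ _ (PP_dens c lo n)))

theorem nrm_PP_anti {lo lo' : ℤ} {n n' : ℕ} (h1 : lo' ≤ lo)
    (h2 : lo + n ≤ lo' + n') (y : ι → ℝ) :
    nrm (PP b c lo' n') y ≤ nrm (PP b c lo n) y := by
  obtain ⟨n1, n2, h⟩ := PP_split (b := b) c h1 h2
  rw [h]
  exact (nrm_It_le c _ _ (It_dens c _ _ (PP_dens c lo n)) y).trans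
    (nrm_It_le c _ _ (PP_dens c lo n) y)

theorem inc_nonneg (hb : 0 < b) {p : (ι → ℝ) → ℝ} (hp : Dens p) : 0 ≤ inc b p := by
  classical
  rw [inc_eq hb hp.cs]
  unfold FF
  exact integral_nonneg fun v => psi_nonneg fun e => by simpa using hp.nonneg _

theorem inc_le_log (hb : 0 < b) {p : (ι → ℝ) → ℝ} (hp : Dens p) :
    inc b p ≤ Fintype.card ι * log b := by
  classical
  have hb' : (0:ℝ) < b := by exact_mod_cast hb
  rw [inc_eq hb hp.cs]
  unfold FF
  have h1 : Fintype.card ι * log b = ∫ v, (∑ e : ι → Fin b,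
      p ((b : ℝ) • v + fun i => - ((e i : ℕ) : ℝ))) * (Fintype.card ι * log b) := by
    rw [integral_mul_const, sum_integral_affine hb hp.cs, hp.mass, one_mul]
  rw [h1]
  refine integral_mono ?_ ?_ ?_
  · exact (CS.psi fun e => (hp.cs.comp_affine hb' _).const_mul 1).integrable
  · exact ((CS.sum _ fun e _ => hp.cs.comp_affine hb' _).integrable).mul_const _
  · intro v
    simp only
    have h2 := psi_le_log (r := fun e : ι → Fin b =>
      1 * p ((b : ℝ) • v + fun i => - ((e i : ℕ) : ℝ)))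
      (fun e => by simpa using hp.nonneg _) Finset.univ (fun e _ => Finset.mem_univ e)
      ((b:ℝ) ^ Fintype.card ι) (by simp [Fintype.card_pi])
    rw [Real.log_pow] at h2
    simpa using h2

/-- Entropy growth rate of the digit system. -/
noncomputable def alpha (b : ℕ) (c : D → ι → ℝ) : ℝ := ⨆ k : ℕ, inc b (PP b c (-k) (2 * k))

theorem alpha_bdd (hb : 2 ≤ b) : BddAbove (Set.range fun k : ℕ => inc b (PP b c (-k) (2 * k))) := by
  refine ⟨Fintype.card ι * log b, ?_⟩
  rintro _ ⟨k, rfl⟩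
  exact inc_le_log (by omega) (PP_dens c _ _)

theorem inc_le_alpha (hb : 2 ≤ b) (lo : ℤ) (n : ℕ) : inc b (PP b c lo n) ≤ alpha b c := by
  set k := lo.natAbs + n with hk
  refine le_trans ?_ (le_ciSup (alpha_bdd c hb) k)
  exact inc_PP_mono c hb (by omega) (by push_cast; omega)

theorem alpha_nonneg (hb : 2 ≤ b) : 0 ≤ alpha b c :=
  (inc_nonneg (by omega) (PP_dens c 0 0)).trans (inc_le_alpha c hb 0 0)

theorem alpha_le (hb : 2 ≤ b) : alpha b c ≤ Fintype.card ι * log b :=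
  ciSup_le fun _ => inc_le_log (by omega) (PP_dens c _ _)

theorem exists_window (hb : 2 ≤ b) {η : ℝ} (hη : 0 < η) : ∃ k0 : ℕ, ∀ (lo : ℤ) (n : ℕ),
    lo ≤ -k0 → (k0 : ℤ) ≤ lo + n → alpha b c - η ≤ inc b (PP b c lo n) := by
  obtain ⟨k0, hk0⟩ := exists_lt_of_lt_ciSup (show alpha b c - η < alpha b c by linarith)
  refine ⟨k0, fun lo n h1 h2 => hk0.le.trans (inc_PP_mono c hb h1 ?_)⟩
  push_cast
  omega

/-- The word sums. -/
noncomputable def XX (b : ℕ) (c : D → ι → ℝ) (k : ℕ) (w : Fin k → D) : ι → ℝ :=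
  ∑ j : Fin k, (b : ℝ) ^ (j : ℕ) • c (w j)

theorem avg_XX (hb : 2 ≤ b) (i : ℤ) (k : ℕ) (q : (ι → ℝ) → ℝ) :
    avg Finset.univ (fun w => (b : ℝ) ^ i • XX b c k w) q = It b c i k q := by
  have hb' : (b:ℝ) ≠ 0 := by exact_mod_cast (by omega : b ≠ 0)
  induction k with
  | zero =>
    funext u
    simp [avg, XX, It]
  | succ k ih =>
    simp only [It]
    rw [← ih]
    funext u
    unfold step avg
    rw [← (Fin.snocEquiv fun _ : Fin (k+1) => D).sum_comp, Fintype.sum_prod_type]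
    refine Finset.sum_congr rfl fun d _ => ?_
    rw [Finset.mul_sum]
    refine Finset.sum_congr rfl fun w _ => ?_
    simp only [Finset.card_univ, Fintype.card_pi, Finset.prod_const, Fintype.card_fin]
    rw [← mul_assoc]
    have h1 : XX b c (k+1) (Fin.snocEquiv (fun _ : Fin (k+1) => D) (d, w)) =
        XX b c k w + (b:ℝ) ^ k • c d := by
      unfold XX
      rw [Fin.sum_univ_castSucc]
      simp [Fin.snocEquiv]
    rw [h1]
    congr 1
    · push_cast
      rw [pow_succ]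
      rw [mul_inv]
      ring
    · congr 1
      rw [smul_add, smul_smul, zpow_add₀ hb', zpow_natCast]
      abel

/-- A bound for the digits. -/
noncomputable def cn (c : D → ι → ℝ) : ℝ := ∑ d, ‖c d‖

theorem norm_le_cn (d : D) : ‖c d‖ ≤ cn c :=
  Finset.single_le_sum (f := fun d => ‖c d‖) (fun _ _ => norm_nonneg _) (Finset.mem_univ d)

theorem cn_nonneg : 0 ≤ cn c := Finset.sum_nonneg fun _ _ => norm_nonneg _

theorem norm_XX_le (hb : 2 ≤ b) (k : ℕ) (w : Fin k → D) : ‖XX b c k w‖ ≤ (b:ℝ) ^ k * cn c := by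
  have hb2 : (2:ℝ) ≤ b := by exact_mod_cast hb
  have h0 := cn_nonneg c
  have key : ∀ k : ℕ, ∑ j : Fin k, (b:ℝ) ^ (j:ℕ) ≤ (b:ℝ) ^ k := by
    intro k
    induction k with
    | zero => simp
    | succ k ih =>
      rw [Fin.sum_univ_castSucc]
      simp only [Fin.val_castSucc, Fin.val_last]
      have : (0:ℝ) < (b:ℝ) ^ k := by positivity
      rw [pow_succ]
      nlinarith
  unfold XX
  refine (norm_sum_le _ _).trans ?_
  calc ∑ j : Fin k, ‖(b:ℝ) ^ (j:ℕ) • c (w j)‖ ≤ ∑ j : Fin k, (b:ℝ) ^ (j:ℕ) * cn c := by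
        refine Finset.sum_le_sum fun j _ => ?_
        rw [norm_smul, Real.norm_of_nonneg (by positivity)]
        exact mul_le_mul_of_nonneg_left (norm_le_cn c _) (by positivity)
    _ = (∑ j : Fin k, (b:ℝ) ^ (j:ℕ)) * cn c := by rw [Finset.sum_mul]
    _ ≤ _ := mul_le_mul_of_nonneg_right (key k) h0

theorem ent_le_vol {p : (ι → ℝ) → ℝ} (hp : Dens p) {R : ℝ} (hR : ∀ u, R < ‖u‖ → p u = 0) :
    ent p ≤ volume.real (Metric.closedBall (0 : ι → ℝ) R) := by
  have h1 : volume.real (Metric.closedBall (0 : ι → ℝ) R) =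
      ∫ u, (Metric.closedBall (0 : ι → ℝ) R).indicator 1 u :=
    (integral_indicator_one Metric.isClosed_closedBall.measurableSet).symm
  rw [h1]
  unfold ent
  refine integral_mono hp.cs.negMulLog.integrable ?_ ?_
  · have : IntegrableOn (fun _ : ι → ℝ => (1:ℝ)) (Metric.closedBall (0 : ι → ℝ) R) :=
      integrableOn_const (isCompact_closedBall (0 : ι → ℝ) R).measure_lt_top.ne
    exact (integrable_indicator_iff Metric.isClosed_closedBall.measurableSet).2 this
  · intro u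
    simp only
    by_cases h : u ∈ Metric.closedBall (0 : ι → ℝ) R
    · rw [Set.indicator_of_mem h]
      exact negMulLog_le_one (hp.nonneg u)
    · rw [Set.indicator_of_notMem h, hR u (by simpa using h)]
      simp

theorem avg_supp {Ω : Type*} (s : Finset Ω) (Y : Ω → ι → ℝ) {p : (ι → ℝ) → ℝ} {R R' : ℝ}
    (hp : ∀ u, R < ‖u‖ → p u = 0) (hY : ∀ w ∈ s, ‖Y w‖ ≤ R') :
    ∀ u, R + R' < ‖u‖ → avg s Y p u = 0 := by
  intro u hu
  unfold avg
  refine Finset.sum_eq_zero fun w hw => ?_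
  rw [hp, mul_zero]
  have h1 := norm_sub_norm_le u (Y w)
  have h2 := hY w hw
  linarith

theorem q0_supp (u : ι → ℝ) (h : 1 < ‖u‖) : q0 u = 0 :=
  q0_not_mem fun hh => absurd (norm_le_of_cube hh) (not_le.2 h)

theorem PP_neg_supp (hb : 2 ≤ b) (k : ℕ) (u : ι → ℝ) (hu : 1 + cn c < ‖u‖) :
    PP b c (-k) k u = 0 := by
  have hb' : (0:ℝ) < b := by exact_mod_cast (by omega : 0 < b)
  unfold PP
  rw [← avg_XX c hb]
  refine avg_supp _ _ q0_supp (fun w _ => ?_) u hu
  rw [norm_smul, Real.norm_of_nonneg (by positivity), zpow_neg, zpow_natCast]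
  calc ((b:ℝ) ^ k)⁻¹ * ‖XX b c k w‖ ≤ ((b:ℝ) ^ k)⁻¹ * ((b:ℝ) ^ k * cn c) :=
        mul_le_mul_of_nonneg_left (norm_XX_le c hb k w) (by positivity)
    _ = cn c := by field_simp

theorem ent_shift (hb : 2 ≤ b) (lo : ℤ) (n : ℕ) :
    ent (PP b c lo n) = ent (PP b c (lo - 1) n) + inc b (PP b c lo n) := by
  unfold inc
  rw [coarse_PP c hb]
  ring

theorem ent_shifts (hb : 2 ≤ b) (lo : ℤ) (n r : ℕ) :
    ent (PP b c lo n) = ent (PP b c (lo - r) n) +
      ∑ i ∈ Finset.range r, inc b (PP b c (lo - i) n) := by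
  induction r with
  | zero => simp
  | succ r ih =>
    rw [ih, Finset.sum_range_succ, ent_shift c hb (lo - r) n]
    have : lo - (r:ℤ) - 1 = lo - ((r + 1 : ℕ) : ℤ) := by push_cast; ring
    rw [this]
    ring

/-- Upper bound of the entropy. -/
theorem ent_upper (hb : 2 ≤ b) : ∃ C : ℝ, 0 ≤ C ∧ ∀ k : ℕ,
    ent (PP b c 0 k) ≤ k * alpha b c + C := by
  refine ⟨volume.real (Metric.closedBall (0 : ι → ℝ) (1 + cn c)), measureReal_nonneg, fun k => ?_⟩
  rw [ent_shifts c hb 0 k k, zero_sub]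
  have h1 := ent_le_vol (PP_dens (b := b) c (-k) k) (PP_neg_supp c hb k)
  have h2 : ∑ i ∈ Finset.range k, inc b (PP b c (0 - i) k) ≤ k * alpha b c := by
    refine (Finset.sum_le_sum fun i _ => inc_le_alpha c hb _ _).trans ?_
    simp
  linarith

/-- Lower bound of the entropy. -/
theorem ent_lower (hb : 2 ≤ b) {η : ℝ} (hη : 0 < η) : ∃ C : ℝ, 0 ≤ C ∧ ∀ k : ℕ,
    k * (alpha b c - η) - C ≤ ent (PP b c 0 k) := by
  obtain ⟨k0, hk0⟩ := exists_window c hb hη
  have ha := alpha_nonneg c hb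
  refine ⟨(2 * k0) * alpha b c, by positivity, fun k => ?_⟩
  rw [ent_shifts c hb 0 k k]
  have h1 := (PP_dens (b := b) c (0 - k) k).ent_nonneg
  have h2 : ∀ i ∈ Finset.range k, (alpha b c - η) -
      ((if i < k0 then alpha b c else 0) + (if k < i + k0 then alpha b c else 0))
      ≤ inc b (PP b c (0 - i) k) := by
    intro i hi
    have hn := inc_nonneg (b := b) (by omega) (PP_dens (b := b) c (0 - i) k)
    split_ifs with h3 h4 h4
    · linarith
    · linarith
    · linarith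
    · have := hk0 (0 - i) k (by omega) (by omega)
      linarith
  have h3 := Finset.sum_le_sum h2
  rw [Finset.sum_sub_distrib, Finset.sum_add_distrib, ← Finset.sum_filter, ← Finset.sum_filter]
    at h3
  simp only [Finset.sum_const, nsmul_eq_mul, Finset.card_range] at h3
  have h4 : ((Finset.filter (fun i => i < k0) (Finset.range k)).card : ℝ) ≤ k0 := by
    have : (Finset.filter (fun i => i < k0) (Finset.range k)).card ≤ (Finset.range k0).card := by
      refine Finset.card_le_card fun i hi => ?_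
      simp at hi ⊢
      exact hi.2
    simpa using (Nat.cast_le (α := ℝ)).2 this
  have h5 : ((Finset.filter (fun i => k < i + k0) (Finset.range k)).card : ℝ) ≤ k0 := by
    have : (Finset.filter (fun i => k < i + k0) (Finset.range k)).card ≤
        (Finset.Ico (k - k0) k).card := by
      refine Finset.card_le_card fun i hi => ?_
      simp at hi ⊢
      omega
    rw [Nat.card_Ico] at this
    have h6 : k - (k - k0) ≤ k0 := by omega
    exact_mod_cast this.trans h6
  nlinarith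

end Pool.Agent.V7H68.SS
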