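import Mathlib

/-!
Linear algebra: nonzero minors from counting, small minors from near-kernel vectors, and
sublevel sets of polynomials.
-/

namespace Pool.Agent.V7H68.SS

open Finset Real MeasureTheory

set_option linter.unusedSectionVars false

theorem exists_minor_aux {Ω ι : Type*} (S : Finset Ω) (V : Ω → ι → ℕ) (Q l : ℕ)
    (hV : ∀ w ∈ S, ∀ i, V w i < Q) (hinj : ∀ w ∈ S, ∀ w' ∈ S, V w = V w' → w = w')
    (hcard : Q ^ l < S.card) (hQ : 1 ≤ Q) (w0 : Ω) (r : ℕ) (hr : r ≤ l + 1) :
    ∃ ws : Fin r → Ω, (∀ i, ws i ∈ S) ∧ ∃ σ : Fin r → ι,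
      (Matrix.of fun i j => ((V (ws i) (σ j) : ℝ) - V w0 (σ j))).det ≠ 0 := by
  classical
  induction r with
  | zero =>
    refine ⟨Fin.elim0, fun i => i.elim0, Fin.elim0, ?_⟩
    simp
  | succ r ih =>
    obtain ⟨ws, hws, σ, hdet⟩ := ih (by omega)
    have hlt : Fintype.card (Fin r → Fin Q) < S.card := by
      simp only [Fintype.card_pi, Fintype.card_fin, Finset.prod_const, Finset.card_univ]
      exact (Nat.pow_le_pow_right hQ (by omega)).trans_lt hcard
    have hmaps : ∃ w ∈ S, ∃ w' ∈ S, w ≠ w' ∧ ∀ j, V w (σ j) = V w' (σ j) := by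
      obtain ⟨w, hw, w', hw', hne, heq⟩ := Finset.exists_ne_map_eq_of_card_lt_of_maps_to
        (s := S) (t := (Finset.univ : Finset (Fin r → Fin Q))) (by simpa using hlt)
        (f := fun w j => if h : V w (σ j) < Q then (⟨V w (σ j), h⟩ : Fin Q) else ⟨0, hQ⟩)
        (fun _ _ => Finset.mem_univ _)
      refine ⟨w, hw, w', hw', hne, fun j => ?_⟩
      have h := congrFun heq j
      simp only [hV w hw (σ j), hV w' hw' (σ j), dif_pos] at h
      exact congrArg Fin.val h
    obtain ⟨w, hw, w', hw', hne, heq⟩ := hmaps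
    obtain ⟨i, hi⟩ : ∃ i, V w i ≠ V w' i := by
      by_contra hcon
      push Not at hcon
      exact hne (hinj w hw w' hw' (funext hcon))
    set σ' : Fin (r + 1) → ι := Fin.snoc (α := fun _ => ι) σ i with hσ'
    set M : Ω → Matrix (Fin (r+1)) (Fin (r+1)) ℝ := fun x =>
      Matrix.of fun a j => ((V ((Fin.snoc (α := fun _ => Ω) ws x : Fin (r+1) → Ω) a) (σ' j) : ℝ)
        - V w0 (σ' j)) with hM
    set z : Fin (r+1) → ℝ := fun j => (V w (σ' j) : ℝ) - V w' (σ' j) with hz
    have h1 : (M w).det = (M w').det + ((M w').updateRow (Fin.last r) z).det := by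
      have h2 : M w = (M w').updateRow (Fin.last r) (M w' (Fin.last r) + z) := by
        ext a j
        rcases Fin.eq_castSucc_or_eq_last a with ⟨a', rfl⟩ | rfl
        · rw [Matrix.updateRow_ne (Fin.castSucc_ne_last a')]
          simp [hM]
        · rw [Matrix.updateRow_self]
          simp [hM, hz]
      rw [h2, Matrix.det_updateRow_add]
      congr 1
      rw [Matrix.updateRow_eq_self]
    have h3 : ((M w').updateRow (Fin.last r) z).det = ((V w i : ℝ) - V w' i) *
        (Matrix.of fun i j => ((V (ws i) (σ j) : ℝ) - V w0 (σ j))).det := by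
      rw [Matrix.det_succ_row _ (Fin.last r), Finset.sum_eq_single (Fin.last r)]
      · rw [Matrix.updateRow_self]
        have h4 : z (Fin.last r) = (V w i : ℝ) - V w' i := by simp [hz, hσ']
        rw [h4]
        have h5 : ((-1 : ℝ)) ^ ((Fin.last r : ℕ) + (Fin.last r : ℕ)) = 1 := by
          rw [← two_mul, pow_mul]; simp
        rw [h5, one_mul]
        congr 2
        ext a j
        simp only [Matrix.submatrix_apply, Fin.succAbove_last]
        rw [Matrix.updateRow_ne (Fin.castSucc_ne_last a)]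
        simp [hM, hσ']
      · intro j _ hj
        rcases Fin.eq_castSucc_or_eq_last j with ⟨j', rfl⟩ | rfl
        · rw [Matrix.updateRow_self]
          have h4 : z (Fin.castSucc j') = 0 := by simp [hz, hσ', heq j']
          rw [h4]
          ring
        · exact absurd rfl hj
      · intro h
        exact absurd (Finset.mem_univ _) h
    have h4 : ((V w i : ℝ) - V w' i) ≠ 0 := by
      rw [sub_ne_zero]
      exact_mod_cast hi
    have h5 : (M w).det ≠ 0 ∨ (M w').det ≠ 0 := by
      by_contra hcon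
      push Not at hcon
      rw [hcon.1, hcon.2, zero_add] at h1
      rw [h3] at h1
      exact mul_ne_zero h4 hdet h1.symm
    have hsnoc : ∀ x ∈ S, ∀ a, (Fin.snoc (α := fun _ => Ω) ws x : Fin (r+1) → Ω) a ∈ S := by
      intro x hx a
      rcases Fin.eq_castSucc_or_eq_last a with ⟨a', rfl⟩ | rfl
      · simpa using hws a'
      · simpa using hx
    rcases h5 with h5 | h5
    · exact ⟨_, hsnoc w hw, σ', h5⟩
    · exact ⟨_, hsnoc w' hw', σ', h5⟩

theorem exists_minor {Ω ι : Type*} (S : Finset Ω) (V : Ω → ι → ℕ) (Q l : ℕ)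
    (hV : ∀ w ∈ S, ∀ i, V w i < Q) (hinj : ∀ w ∈ S, ∀ w' ∈ S, V w = V w' → w = w')
    (hcard : Q ^ l < S.card) (hQ : 1 ≤ Q) (w0 : Ω) :
    ∃ ws : Fin (l + 1) → Ω, (∀ i, ws i ∈ S) ∧ ∃ σ : Fin (l + 1) → ι,
      (Matrix.of fun i j => ((V (ws i) (σ j) : ℝ) - V w0 (σ j))).det ≠ 0 :=
  exists_minor_aux S V Q l hV hinj hcard hQ w0 (l + 1) le_rfl

/-- Minors of vectors that are nearly in the kernel of a linear map. -/
theorem small_minor {ι κ : Type} [Fintype ι] [Fintype κ] (P : (ι → ℝ) →ₗ[ℝ] (κ → ℝ))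
    (hP : Function.Surjective P) {l : ℕ} (hl : Fintype.card κ + l = Fintype.card ι)
    (σ : Fin (l + 1) → ι) : ∃ C : ℝ, 0 ≤ C ∧ ∀ (Z : Fin (l + 1) → ι → ℝ) (δ R : ℝ), 1 ≤ R →
      (∀ i, ‖P (Z i)‖ ≤ δ) → (∀ i, ‖Z i‖ ≤ R) →
      |(Matrix.of fun i j => Z i (σ j)).det| ≤ C * δ * R ^ (l + 1) := by
  classical
  -- a functional vanishing on the kernel
  set K := LinearMap.ker P with hK
  have hKdim : Module.finrank ℝ K = l := by
    have h1 := LinearMap.finrank_range_add_finrank_ker P
    rw [LinearMap.range_eq_top.2 hP, finrank_top] at h1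
    simp only [Module.finrank_fintype_fun_eq_card] at h1
    have h2 : Module.finrank ℝ K = Module.finrank ℝ (LinearMap.ker P) := rfl
    omega
  set τ : K →ₗ[ℝ] (Fin (l + 1) → ℝ) := (LinearMap.funLeft ℝ ℝ σ).comp K.subtype with hτ
  have hrange : LinearMap.range τ ≠ ⊤ := by
    intro h
    have h1 := LinearMap.finrank_range_le τ
    rw [h, finrank_top, hKdim] at h1
    simp at h1
  obtain ⟨g, hg0, hg⟩ := Submodule.exists_le_ker_of_lt_top _ (lt_top_iff_ne_top.2 hrange)
  -- coordinates of the functional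
  set lam : Fin (l + 1) → ℝ := fun j => g (Pi.single j 1) with hlam
  have hglam : ∀ x : Fin (l + 1) → ℝ, g x = ∑ j, lam j * x j := by
    intro x
    conv_lhs => rw [pi_eq_sum_univ' x]
    rw [map_sum]
    refine Finset.sum_congr rfl fun j _ => ?_
    rw [map_smul, smul_eq_mul, mul_comm]
  obtain ⟨j0, hj0⟩ : ∃ j0, lam j0 ≠ 0 := by
    by_contra hcon
    push Not at hcon
    apply hg0
    ext x
    simp [hglam, hcon]
  set f : (ι → ℝ) →ₗ[ℝ] ℝ := g.comp (LinearMap.funLeft ℝ ℝ σ) with hf
  have hfK : ∀ x, P x = 0 → f x = 0 := by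
    intro x hx
    have h1 : (LinearMap.funLeft ℝ ℝ σ) x ∈ LinearMap.range τ := ⟨⟨x, hx⟩, rfl⟩
    exact hg h1
  obtain ⟨Rv, hRv⟩ := P.exists_rightInverse_of_surjective (LinearMap.range_eq_top.2 hP)
  have hfac : ∀ x, f x = (f.comp Rv) (P x) := by
    intro x
    have h1 : P (x - Rv (P x)) = 0 := by
      rw [map_sub]
      have : P (Rv (P x)) = P x := by
        have := LinearMap.congr_fun hRv (P x)
        simpa using this
      rw [this, sub_self]
    have h2 := hfK _ h1
    rw [map_sub, sub_eq_zero] at h2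
    exact h2
  set L := LinearMap.toContinuousLinearMap (f.comp Rv) with hL
  have hfbound : ∀ x, |f x| ≤ ‖L‖ * ‖P x‖ := by
    intro x
    rw [hfac x]
    exact L.le_opNorm (P x)
  refine ⟨(l + 1) * (Nat.factorial (l + 1) * ‖L‖) / |lam j0|, by positivity, ?_⟩
  intro Z δ R hR hδ hZ
  set M : Matrix (Fin (l + 1)) (Fin (l + 1)) ℝ := Matrix.of fun i j => Z i (σ j) with hM
  have hMlam : ∀ i, (M.mulVec lam) i = f (Z i) := by
    intro i
    rw [hf]
    simp only [LinearMap.comp_apply, hglam, LinearMap.funLeft_apply, Matrix.mulVec, dotProduct, hM,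
      Matrix.of_apply]
    refine Finset.sum_congr rfl fun j _ => by ring
  have hadj : ∀ i j, |M.adjugate i j| ≤ Nat.factorial (l + 1) * R ^ (l + 1) := by
    intro i j
    rw [Matrix.adjugate_apply]
    have h1 : ∀ a a', |(M.updateRow j (Pi.single i 1)) a a'| ≤ R := by
      intro a a'
      by_cases ha : a = j
      · subst ha
        rw [Matrix.updateRow_self]
        by_cases hb : a' = i
        · subst hb; simp; exact hR
        · rw [Pi.single_eq_of_ne hb]; simp; linarith
      · rw [Matrix.updateRow_ne ha]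
        have := norm_le_pi_norm (Z a) (σ a')
        rw [Real.norm_eq_abs] at this
        exact this.trans (hZ a)
    have h2 := Matrix.det_le (A := M.updateRow j (Pi.single i 1))
      (abv := (IsAbsoluteValue.toAbsoluteValue (abs : ℝ → ℝ))) (x := R) (by
        intro a a'
        exact h1 a a')
    simpa using h2
  have hkey : M.det * lam j0 = ∑ i, M.adjugate j0 i * (M.mulVec lam) i := by
    have h1 : M.adjugate.mulVec (M.mulVec lam) = M.det • lam := by
      rw [Matrix.mulVec_mulVec, Matrix.adjugate_mul, Matrix.smul_mulVec, Matrix.one_mulVec]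
    have h2 := congrFun h1 j0
    simp only [Pi.smul_apply, smul_eq_mul] at h2
    rw [← h2]
    rfl
  have hδ0 : 0 ≤ δ := (norm_nonneg _).trans (hδ 0)
  have h1 : |M.det * lam j0| ≤ (l + 1) * ((Nat.factorial (l + 1) * R ^ (l + 1)) * (‖L‖ * δ)) := by
    rw [hkey]
    refine (Finset.abs_sum_le_sum_abs _ _).trans ?_
    have h2 : ∀ i ∈ (Finset.univ : Finset (Fin (l+1))), |M.adjugate j0 i * (M.mulVec lam) i| ≤
        (Nat.factorial (l + 1) * R ^ (l + 1)) * (‖L‖ * δ) := by
      intro i _
      rw [abs_mul, hMlam]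
      refine mul_le_mul (hadj j0 i) ?_ (abs_nonneg _) (by positivity)
      exact (hfbound _).trans (mul_le_mul_of_nonneg_left (hδ i) (norm_nonneg _))
    refine (Finset.sum_le_sum h2).trans (le_of_eq ?_)
    simp
  rw [abs_mul] at h1
  have h2 : 0 < |lam j0| := abs_pos.2 hj0
  have h3 : (l + 1) * (Nat.factorial (l + 1) * ‖L‖) / |lam j0| * δ * R ^ (l + 1) =
      ((l + 1) * ((Nat.factorial (l + 1) * R ^ (l + 1)) * (‖L‖ * δ))) / |lam j0| := by
    field_simp
  rw [h3, le_div_iff₀ h2]
  exact h1

/-- Sublevel sets of polynomials with large leading coefficient. -/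
theorem sublevel (f : Polynomial ℝ) {d : ℕ} (hdeg : f.natDegree = d)
    (hlead : 1 ≤ |f.leadingCoeff|) {ρ : ℝ} (hρ : 0 < ρ) :
    volume {t : ℝ | |f.eval t| < ρ ^ d} ≤ d * ENNReal.ofReal (2 * ρ) := by
  classical
  set F : Polynomial ℂ := f.map (algebraMap ℝ ℂ) with hF
  have hsplit : F.Splits := IsAlgClosed.splits F
  set roots := F.roots with hroots
  have hcard : Multiset.card roots = d := by
    rw [hroots, ← hdeg, ← hsplit.natDegree_eq_card_roots]
    exact Polynomial.natDegree_map _
  have hsub : {t : ℝ | |f.eval t| < ρ ^ d} ⊆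
      ⋃ z ∈ roots.toFinset, Metric.ball z.re ρ := by
    intro t ht
    by_contra hcon
    simp only [Set.mem_iUnion, not_exists] at hcon
    have h1 : ∀ z ∈ roots, ρ ≤ ‖(t : ℂ) - z‖ := by
      intro z hz
      have h2 := hcon z (Multiset.mem_toFinset.2 hz)
      rw [Metric.mem_ball, Real.dist_eq, not_lt] at h2
      refine h2.trans ?_
      have := Complex.abs_re_le_norm ((t:ℂ) - z)
      simpa using this
    have h2 : F.eval (t : ℂ) = (f.eval t : ℝ) := by
      rw [hF, Polynomial.eval_map_algebraMap]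
      exact Polynomial.aeval_ofReal f t
    have h3 : ‖F.eval (t : ℂ)‖ = |f.eval t| := by
      rw [h2, Complex.norm_real]
      rfl
    have h4 : F.eval (t:ℂ) = F.leadingCoeff * (roots.map fun z => (t:ℂ) - z).prod := by
      conv_lhs => rw [hsplit.eq_prod_roots]
      rw [Polynomial.eval_mul, Polynomial.eval_C, Polynomial.eval_multiset_prod,
        Multiset.map_map]
      congr 3
      funext z
      simp
    have h5 : ρ ^ d ≤ ‖(roots.map fun z => (t:ℂ) - z).prod‖ := by
      have : ∀ s : Multiset ℂ, (∀ z ∈ s, ρ ≤ ‖(t : ℂ) - z‖) →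
          ρ ^ (Multiset.card s) ≤ ‖(s.map fun z => (t:ℂ) - z).prod‖ := by
        intro s
        induction s using Multiset.induction_on with
        | empty => intro _; simp
        | cons a s ih =>
          intro hs
          rw [Multiset.card_cons, Multiset.map_cons, Multiset.prod_cons, norm_mul, pow_succ,
            mul_comm]
          exact mul_le_mul (hs a (Multiset.mem_cons_self a s))
            (ih fun z hz => hs z (Multiset.mem_cons_of_mem hz)) (by positivity) (norm_nonneg _)
      have := this roots h1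
      rwa [hcard] at this
    have h6 : ‖F.leadingCoeff‖ = |f.leadingCoeff| := by
      rw [hF, Polynomial.leadingCoeff_map]
      simp
    rw [h4, norm_mul, h6] at h3
    have h7 : |f.eval t| < ρ ^ d := ht
    rw [← h3] at h7
    have h8 : 1 * ρ ^ d ≤ |f.leadingCoeff| * ‖(roots.map fun z => (t:ℂ) - z).prod‖ :=
      mul_le_mul hlead h5 (by positivity) (abs_nonneg _)
    linarith
  refine (measure_mono hsub).trans ?_
  refine (measure_biUnion_finset_le _ _).trans ?_
  simp only [Real.volume_ball, Finset.sum_const, nsmul_eq_mul]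
  refine mul_le_mul_left ?_ _
  have : roots.toFinset.card ≤ d := by
    rw [← hcard]
    exact Multiset.toFinset_card_le _
  exact_mod_cast this

end Pool.Agent.V7H68.SS
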