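import Pool.Agent.V7H68.SS.Psi

/-!
Bounded measurable functions with bounded support, and integrals of `psi` of linear
expressions of them.
-/

namespace Pool.Agent.V7H68.SS

open Finset Real MeasureTheory

variable {ι : Type*} [Fintype ι]

/-- Bounded measurable functions with bounded support. -/
structure CS (f : (ι → ℝ) → ℝ) : Prop where
  meas : Measurable f
  bdd : ∃ M, ∀ u, |f u| ≤ M
  supp : ∃ R, ∀ u, R < ‖u‖ → f u = 0

theorem CS.integrable {f : (ι → ℝ) → ℝ} (h : CS f) : Integrable f := by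
  obtain ⟨M, hM⟩ := h.bdd
  obtain ⟨R, hR⟩ := h.supp
  have h1 : IntegrableOn f (Metric.closedBall 0 R) := by
    refine Measure.integrableOn_of_bounded (M := M) ?_ h.meas.aestronglyMeasurable ?_
    · exact (isCompact_closedBall (0 : ι → ℝ) R).measure_lt_top.ne
    · exact Filter.Eventually.of_forall fun u => by simpa using hM u
  refine (integrableOn_iff_integrable_of_support_subset ?_).1 h1
  intro u hu
  by_contra hne
  have : R < ‖u‖ := by
    by_contra h2
    exact hne (by simpa using not_lt.1 h2)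
  exact hu (hR u this)

theorem CS.zero : CS (fun _ : ι → ℝ => (0:ℝ)) :=
  ⟨measurable_const, ⟨0, fun _ => by simp⟩, ⟨0, fun _ _ => rfl⟩⟩

theorem CS.add {f g : (ι → ℝ) → ℝ} (hf : CS f) (hg : CS g) : CS (fun u => f u + g u) := by
  obtain ⟨M, hM⟩ := hf.bdd
  obtain ⟨R, hR⟩ := hf.supp
  obtain ⟨M', hM'⟩ := hg.bdd
  obtain ⟨R', hR'⟩ := hg.supp
  refine ⟨hf.meas.add hg.meas, ⟨M + M', fun u => (abs_add_le _ _).trans (add_le_add (hM u) (hM' u))⟩,
    ⟨max R R', fun u hu => ?_⟩⟩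
  rw [hR u (lt_of_le_of_lt (le_max_left _ _) hu), hR' u (lt_of_le_of_lt (le_max_right _ _) hu)]
  simp

theorem CS.const_mul {f : (ι → ℝ) → ℝ} (hf : CS f) (c : ℝ) : CS (fun u => c * f u) := by
  obtain ⟨M, hM⟩ := hf.bdd
  obtain ⟨R, hR⟩ := hf.supp
  refine ⟨hf.meas.const_mul c, ⟨|c| * M, fun u => ?_⟩, ⟨R, fun u hu => by simp [hR u hu]⟩⟩
  rw [abs_mul]
  exact mul_le_mul_of_nonneg_left (hM u) (abs_nonneg c)

theorem CS.neg {f : (ι → ℝ) → ℝ} (hf : CS f) : CS (fun u => - f u) := by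
  simpa using hf.const_mul (-1)

theorem CS.sub {f g : (ι → ℝ) → ℝ} (hf : CS f) (hg : CS g) : CS (fun u => f u - g u) := by
  simpa [sub_eq_add_neg] using hf.add hg.neg

theorem CS.sum {σ : Type*} (s : Finset σ) {f : σ → (ι → ℝ) → ℝ} (hf : ∀ i ∈ s, CS (f i)) :
    CS (fun u => ∑ i ∈ s, f i u) := by
  classical
  induction s using Finset.induction_on with
  | empty => simpa using CS.zero
  | insert a s ha ih =>
    have := (hf a (Finset.mem_insert_self a s)).add
      (ih fun i hi => hf i (Finset.mem_insert_of_mem hi))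
    simpa [Finset.sum_insert ha] using this

theorem CS.comp_cont {f : (ι → ℝ) → ℝ} (hf : CS f) {g : ℝ → ℝ} (hg : Continuous g)
    (h0 : g 0 = 0) : CS (fun u => g (f u)) := by
  obtain ⟨M, hM⟩ := hf.bdd
  obtain ⟨R, hR⟩ := hf.supp
  obtain ⟨M', hM'⟩ := (isCompact_Icc (a := -M) (b := M)).exists_bound_of_continuousOn
    hg.continuousOn
  refine ⟨hg.measurable.comp hf.meas, ⟨M', fun u => ?_⟩, ⟨R, fun u hu => by rw [hR u hu, h0]⟩⟩
  exact hM' _ ⟨(abs_le.1 (hM u)).1, (abs_le.1 (hM u)).2⟩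

theorem CS.abs {f : (ι → ℝ) → ℝ} (hf : CS f) : CS (fun u => |f u|) :=
  hf.comp_cont continuous_abs (by simp)

theorem CS.negMulLog {f : (ι → ℝ) → ℝ} (hf : CS f) : CS (fun u => Real.negMulLog (f u)) :=
  hf.comp_cont Real.continuous_negMulLog (by simp)

theorem CS.comp_affine {f : (ι → ℝ) → ℝ} (hf : CS f) {lam : ℝ} (hl : 0 < lam) (h : ι → ℝ) :
    CS (fun u => f (lam • u + h)) := by
  obtain ⟨M, hM⟩ := hf.bdd
  obtain ⟨R, hR⟩ := hf.supp
  refine ⟨hf.meas.comp (by fun_prop), ⟨M, fun u => hM _⟩, ⟨(R + ‖h‖) / lam, fun u hu => ?_⟩⟩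
  apply hR
  rw [div_lt_iff₀ hl] at hu
  have h1 : ‖lam • u‖ ≤ ‖lam • u + h‖ + ‖h‖ := by
    have := norm_sub_le (lam • u + h) h
    simpa using this
  rw [norm_smul, Real.norm_of_nonneg hl.le] at h1
  linarith

theorem CS.comp_sub {f : (ι → ℝ) → ℝ} (hf : CS f) (y : ι → ℝ) :
    CS (fun u => f (u - y)) := by
  simpa [sub_eq_add_neg] using hf.comp_affine one_pos (-y)

theorem integral_comp_affine {f : (ι → ℝ) → ℝ} {lam : ℝ} (hl : 0 < lam) (h : ι → ℝ) :
    ∫ u, f (lam • u + h) = (lam ^ Fintype.card ι)⁻¹ * ∫ u, f u := by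
  have h1 := Measure.integral_comp_smul (volume : Measure (ι → ℝ)) (fun u => f (u + h)) lam
  rw [h1, integral_add_right_eq_self (fun u => f u) h]
  simp only [Module.finrank_fintype_fun_eq_card, smul_eq_mul]
  rw [abs_of_pos (by positivity)]

theorem integral_comp_sub {f : (ι → ℝ) → ℝ} (y : ι → ℝ) :
    ∫ u, f (u - y) = ∫ u, f u :=
  integral_sub_right_eq_self f y

/-- Integral of `psi` of finitely many affine copies. -/
noncomputable def FF {κ : Type*} [Fintype κ] (lam a : ℝ) (h : κ → ι → ℝ)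
    (p : (ι → ℝ) → ℝ) : ℝ :=
  ∫ v, psi (fun e => a * p (lam • v + h e))

theorem CS.psi {κ : Type*} [Fintype κ] {r : κ → (ι → ℝ) → ℝ} (hr : ∀ e, CS (r e)) :
    CS (fun v => SS.psi (fun e => r e v)) := by
  unfold SS.psi
  exact (CS.sum _ fun e _ => (hr e).negMulLog).sub (CS.sum _ fun e _ => hr e).negMulLog

theorem FF_translate {κ : Type*} [Fintype κ] {lam : ℝ} (hl : 0 < lam) (a : ℝ)
    (h : κ → ι → ℝ) (p : (ι → ℝ) → ℝ) (y : ι → ℝ) :
    FF lam a h (fun u => p (u - y)) = FF lam a h p := by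
  unfold FF
  rw [← integral_comp_sub (f := fun v => psi (fun e => a * p (lam • v + h e))) (lam⁻¹ • y)]
  congr 1
  funext v
  congr 1
  funext e
  congr 2
  rw [smul_sub, smul_smul, mul_inv_cancel₀ hl.ne', one_smul]
  abel_nf

theorem FF_mix {κ σ : Type*} [Fintype κ] (s : Finset σ) {lam a : ℝ} (hl : 0 < lam)
    (ha : 0 ≤ a) (h : κ → ι → ℝ) {w : σ → ℝ} {p : σ → (ι → ℝ) → ℝ}
    (hw : ∀ i ∈ s, 0 ≤ w i) (hp : ∀ i ∈ s, CS (p i)) (hp0 : ∀ i ∈ s, ∀ u, 0 ≤ p i u) :
    ∑ i ∈ s, w i * FF lam a h (p i) ≤ FF lam a h (fun u => ∑ i ∈ s, w i * p i u) := by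
  unfold FF
  have hcs : ∀ i ∈ s, CS (fun v => psi (fun e => a * p i (lam • v + h e))) := fun i hi =>
    CS.psi fun e => ((hp i hi).comp_affine hl (h e)).const_mul a
  have h1 : ∑ i ∈ s, w i * ∫ v, psi (fun e => a * p i (lam • v + h e)) =
      ∫ v, ∑ i ∈ s, w i * psi (fun e => a * p i (lam • v + h e)) := by
    rw [integral_finsetSum _ fun i hi => ((hcs i hi).const_mul (w i)).integrable]
    refine Finset.sum_congr rfl fun i _ => by rw [integral_const_mul]
  rw [h1]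
  refine integral_mono (CS.sum s fun i hi => (hcs i hi).const_mul (w i)).integrable ?_ ?_
  · refine CS.integrable ?_
    refine CS.psi fun e => ?_
    refine CS.const_mul ?_ a
    exact (CS.sum s fun i hi => (hp i hi).const_mul (w i)).comp_affine hl (h e)
  · intro v
    have := psi_mix s (w := w) (r := fun i e => a * p i (lam • v + h e)) hw
      (fun i hi e => mul_nonneg ha (hp0 i hi _))
    refine this.trans (le_of_eq ?_)
    congr 1
    funext e
    rw [Finset.mul_sum]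
    refine Finset.sum_congr rfl fun i _ => by ring

end Pool.Agent.V7H68.SS
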