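import Pool.Agent.V7H68.SS.Ops

/-!
Two-sided bounds of the entropy gap by the translation norm.
-/

namespace Pool.Agent.V7H68.SS

open Finset Real MeasureTheory

set_option linter.unusedSectionVars false

variable {ι : Type*} [Fintype ι]

/-- Relative entropy integrand of an average. -/
noncomputable def relf {Ω : Type*} (s : Finset Ω) (Y : Ω → ι → ℝ) (p : (ι → ℝ) → ℝ)
    (u : ι → ℝ) : ℝ :=
  ∑ w ∈ s, (s.card : ℝ)⁻¹ *
    (p (u - Y w) * (log (p (u - Y w)) - log (avg s Y p u)) - p (u - Y w) + avg s Y p u)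

theorem relf_eq {Ω : Type*} {s : Finset Ω} (hs : s.Nonempty) (Y : Ω → ι → ℝ)
    (p : (ι → ℝ) → ℝ) (u : ι → ℝ) :
    relf s Y p u = negMulLog (avg s Y p u) -
      ∑ w ∈ s, (s.card : ℝ)⁻¹ * negMulLog (p (u - Y w)) := by
  have hc : (s.card : ℝ) ≠ 0 := by exact_mod_cast (Finset.card_pos.2 hs).ne'
  set q := avg s Y p u with hq
  have hq' : q = ∑ w ∈ s, (s.card : ℝ)⁻¹ * p (u - Y w) := rfl
  have h1 : ∀ w, (s.card : ℝ)⁻¹ *
      (p (u - Y w) * (log (p (u - Y w)) - log q) - p (u - Y w) + q) =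
      - ((s.card : ℝ)⁻¹ * negMulLog (p (u - Y w))) - ((s.card : ℝ)⁻¹ * p (u - Y w)) * log q
        - (s.card : ℝ)⁻¹ * p (u - Y w) + (s.card : ℝ)⁻¹ * q := by
    intro w
    unfold negMulLog
    ring
  unfold relf
  rw [Finset.sum_congr rfl fun w _ => h1 w, Finset.sum_add_distrib, Finset.sum_sub_distrib,
    Finset.sum_sub_distrib, Finset.sum_neg_distrib, ← Finset.sum_mul, ← hq']
  have h2 : ∑ w ∈ s, (s.card : ℝ)⁻¹ * q = q := by
    simp only [Finset.sum_const, nsmul_eq_mul]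
    field_simp
  rw [h2]
  unfold negMulLog
  ring

theorem relf_cs {Ω : Type*} {s : Finset Ω} (hs : s.Nonempty) (Y : Ω → ι → ℝ)
    {p : (ι → ℝ) → ℝ} (hp : CS p) : CS (relf s Y p) := by
  have : relf s Y p = fun u => negMulLog (avg s Y p u) -
      ∑ w ∈ s, (s.card : ℝ)⁻¹ * negMulLog (p (u - Y w)) := by
    funext u; exact relf_eq hs Y p u
  rw [this]
  exact (hp.avg s Y).negMulLog.sub (CS.sum s fun w _ => (hp.comp_sub _).negMulLog.const_mul _)

theorem gap_integral {Ω : Type*} {s : Finset Ω} (hs : s.Nonempty) (Y : Ω → ι → ℝ)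
    {p : (ι → ℝ) → ℝ} (hp : CS p) : gap s Y p = ∫ u, relf s Y p u := by
  have hc : (s.card : ℝ) ≠ 0 := by exact_mod_cast (Finset.card_pos.2 hs).ne'
  have : relf s Y p = fun u => negMulLog (avg s Y p u) -
      ∑ w ∈ s, (s.card : ℝ)⁻¹ * negMulLog (p (u - Y w)) := by
    funext u; exact relf_eq hs Y p u
  rw [this, integral_sub (hp.avg s Y).negMulLog.integrable
    (CS.sum s fun w _ => (hp.comp_sub _).negMulLog.const_mul _).integrable,
    integral_finsetSum _ fun w _ => ((hp.comp_sub _).negMulLog.const_mul _).integrable]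
  have h2 : ∀ w, ∫ u, (s.card : ℝ)⁻¹ * negMulLog (p (u - Y w)) = (s.card : ℝ)⁻¹ * ent p := by
    intro w
    rw [integral_const_mul, integral_comp_sub (f := fun u => negMulLog (p u)) (Y w)]
    rfl
  rw [Finset.sum_congr rfl fun w _ => h2 w]
  simp only [Finset.sum_const, nsmul_eq_mul]
  unfold gap ent
  field_simp

/-- Mean deviation of the translates from their average. -/
noncomputable def dev {Ω : Type*} (s : Finset Ω) (Y : Ω → ι → ℝ) (p : (ι → ℝ) → ℝ) : ℝ :=
  ∑ w ∈ s, (s.card : ℝ)⁻¹ * ∫ u, |p (u - Y w) - avg s Y p u|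

theorem avg_zero_imp {Ω : Type*} {s : Finset Ω} (hs : s.Nonempty) (Y : Ω → ι → ℝ)
    {p : (ι → ℝ) → ℝ} (hp0 : ∀ u, 0 ≤ p u) {u : ι → ℝ} (h : avg s Y p u = 0)
    {w : Ω} (hw : w ∈ s) : p (u - Y w) = 0 := by
  have hc : (0:ℝ) < s.card := by exact_mod_cast Finset.card_pos.2 hs
  have h1 := (Finset.sum_eq_zero_iff_of_nonneg
    (fun w _ => mul_nonneg (by positivity) (hp0 _))).1 h w hw
  rcases mul_eq_zero.1 h1 with h2 | h2
  · exact absurd h2 (by positivity)
  · exact h2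

theorem dev_le {Ω : Type*} {s : Finset Ω} (hs : s.Nonempty) (Y : Ω → ι → ℝ)
    {p : (ι → ℝ) → ℝ} (hp : Dens p) {lam : ℝ} (hl : 0 < lam) :
    dev s Y p ≤ gap s Y p / (2 * lam) + 2 * lam := by
  have hc : (0:ℝ) < s.card := by exact_mod_cast Finset.card_pos.2 hs
  have hcs : ∀ w, CS (fun u => |p (u - Y w) - avg s Y p u|) := fun w =>
    ((hp.cs.comp_sub _).sub (hp.cs.avg s Y)).abs
  have h1 : dev s Y p = ∫ u, ∑ w ∈ s, (s.card : ℝ)⁻¹ * |p (u - Y w) - avg s Y p u| := by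
    unfold dev
    rw [integral_finsetSum _ fun w _ => ((hcs w).const_mul _).integrable]
    refine Finset.sum_congr rfl fun w _ => by rw [integral_const_mul]
  have h2 : gap s Y p / (2 * lam) + 2 * lam =
      ∫ u, ((1 / (2 * lam)) * relf s Y p u + (2 * lam) * avg s Y p u) := by
    rw [integral_add ((relf_cs hs Y hp.cs).const_mul _).integrable
      ((hp.cs.avg s Y).const_mul _).integrable, integral_const_mul, integral_const_mul,
      avg_mass hs Y hp.cs, hp.mass, gap_integral hs Y hp.cs]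
    ring
  rw [h1, h2]
  refine integral_mono (CS.sum s fun w _ => (hcs w).const_mul _).integrable
    (((relf_cs hs Y hp.cs).const_mul _).add ((hp.cs.avg s Y).const_mul _)).integrable ?_
  intro u
  have h3 : ∀ w ∈ s, (s.card : ℝ)⁻¹ * |p (u - Y w) - avg s Y p u| ≤
      (s.card : ℝ)⁻¹ * ((1 / (2 * lam)) *
        (p (u - Y w) * (log (p (u - Y w)) - log (avg s Y p u)) - p (u - Y w) + avg s Y p u)
        + lam * (p (u - Y w) + avg s Y p u)) := fun w hw =>
    mul_le_mul_of_nonneg_left (abs_sub_le_rel (hp.nonneg _) (avg_nonneg s Y hp.nonneg u)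
      (fun h => avg_zero_imp hs Y hp.nonneg h hw) hl) (by positivity)
  refine (Finset.sum_le_sum h3).trans (le_of_eq ?_)
  have h4 : ∑ w ∈ s, (s.card : ℝ)⁻¹ * (p (u - Y w) + avg s Y p u) = 2 * avg s Y p u := by
    simp only [mul_add, Finset.sum_add_distrib]
    have : ∑ w ∈ s, (s.card : ℝ)⁻¹ * avg s Y p u = avg s Y p u := by
      simp only [Finset.sum_const, nsmul_eq_mul]
      field_simp
    rw [this]
    have : ∑ w ∈ s, (s.card : ℝ)⁻¹ * p (u - Y w) = avg s Y p u := rfl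
    rw [this]
    ring
  have h5 : ∀ w, (s.card : ℝ)⁻¹ * ((1 / (2 * lam)) *
        (p (u - Y w) * (log (p (u - Y w)) - log (avg s Y p u)) - p (u - Y w) + avg s Y p u)
        + lam * (p (u - Y w) + avg s Y p u)) =
      (1 / (2 * lam)) * ((s.card : ℝ)⁻¹ *
        (p (u - Y w) * (log (p (u - Y w)) - log (avg s Y p u)) - p (u - Y w) + avg s Y p u))
        + lam * ((s.card : ℝ)⁻¹ * (p (u - Y w) + avg s Y p u)) := fun w => by ring
  rw [Finset.sum_congr rfl fun w _ => h5 w, Finset.sum_add_distrib]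
  have h6 : ∑ w ∈ s, lam * ((s.card : ℝ)⁻¹ * (p (u - Y w) + avg s Y p u)) =
      lam * (2 * avg s Y p u) := by rw [← h4, Finset.mul_sum]
  have h7 : ∑ w ∈ s, (1 / (2 * lam)) * ((s.card : ℝ)⁻¹ *
        (p (u - Y w) * (log (p (u - Y w)) - log (avg s Y p u)) - p (u - Y w) + avg s Y p u)) =
      (1 / (2 * lam)) * relf s Y p u := by
    unfold relf
    rw [Finset.mul_sum]
  rw [h6, h7]
  ring

/-- Mean translation norm over pairs. -/
noncomputable def pairN {Ω : Type*} (s : Finset Ω) (Y : Ω → ι → ℝ) (N : (ι → ℝ) → ℝ) : ℝ :=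
  ∑ w ∈ s, (s.card : ℝ)⁻¹ * ∑ w' ∈ s, (s.card : ℝ)⁻¹ * N (Y w - Y w')

theorem pair_le_dev {Ω : Type*} {s : Finset Ω} (hs : s.Nonempty) (Y : Ω → ι → ℝ)
    {p : (ι → ℝ) → ℝ} (hp : CS p) : pairN s Y (nrm p) ≤ 2 * dev s Y p := by
  have hc : (0:ℝ) < s.card := by exact_mod_cast Finset.card_pos.2 hs
  have hcs : ∀ w, CS (fun u => |p (u - Y w) - avg s Y p u|) := fun w =>
    ((hp.comp_sub _).sub (hp.avg s Y)).abs
  have h1 : ∀ w w', nrm p (Y w - Y w') ≤
      (∫ u, |p (u - Y w) - avg s Y p u|) + ∫ u, |p (u - Y w') - avg s Y p u| := by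
    intro w w'
    rw [← nrm_sub, ← integral_add (hcs w).integrable (hcs w').integrable]
    refine integral_mono ((hp.comp_sub _).sub (hp.comp_sub _)).abs.integrable
      ((hcs w).add (hcs w')).integrable ?_
    intro u
    simp only
    rw [abs_sub_comm (p (u - Y w'))]
    exact abs_sub_le _ _ _
  set d : Ω → ℝ := fun w => ∫ u, |p (u - Y w) - avg s Y p u| with hd
  have h2 : pairN s Y (nrm p) ≤
      ∑ w ∈ s, (s.card : ℝ)⁻¹ * ∑ w' ∈ s, (s.card : ℝ)⁻¹ * (d w + d w') := by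
    unfold pairN
    refine Finset.sum_le_sum fun w _ => mul_le_mul_of_nonneg_left ?_ (by positivity)
    exact Finset.sum_le_sum fun w' _ => mul_le_mul_of_nonneg_left (h1 w w') (by positivity)
  refine h2.trans (le_of_eq ?_)
  have h3 : ∀ w, ∑ w' ∈ s, (s.card : ℝ)⁻¹ * (d w + d w') = d w + dev s Y p := by
    intro w
    simp only [mul_add, Finset.sum_add_distrib]
    have : ∑ w' ∈ s, (s.card : ℝ)⁻¹ * d w = d w := by
      simp only [Finset.sum_const, nsmul_eq_mul]
      field_simp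
    rw [this]
    rfl
  rw [Finset.sum_congr rfl fun w _ => by rw [h3 w]]
  simp only [mul_add, Finset.sum_add_distrib]
  have : ∑ w ∈ s, (s.card : ℝ)⁻¹ * dev s Y p = dev s Y p := by
    simp only [Finset.sum_const, nsmul_eq_mul]
    field_simp
  rw [this]
  have : ∑ w ∈ s, (s.card : ℝ)⁻¹ * d w = dev s Y p := rfl
  rw [this]
  ring

theorem pair_le_gap {Ω : Type*} {s : Finset Ω} (hs : s.Nonempty) (Y : Ω → ι → ℝ)
    {p : (ι → ℝ) → ℝ} (hp : Dens p) {lam : ℝ} (hl : 0 < lam) :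
    pairN s Y (nrm p) ≤ gap s Y p / lam + 4 * lam := by
  have h1 := pair_le_dev hs Y hp.cs
  have h2 := dev_le hs Y hp hl
  have h3 : 2 * (gap s Y p / (2 * lam) + 2 * lam) = gap s Y p / lam + 4 * lam := by
    field_simp
    ring
  linarith

theorem gap_nonneg {Ω : Type*} {s : Finset Ω} (hs : s.Nonempty) (Y : Ω → ι → ℝ)
    {p : (ι → ℝ) → ℝ} (hp : CS p) (hp0 : ∀ u, 0 ≤ p u) : 0 ≤ gap s Y p := by
  rw [gap_integral hs Y hp]
  refine integral_nonneg fun u => ?_
  have hc : (0:ℝ) < s.card := by exact_mod_cast Finset.card_pos.2 hs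
  refine Finset.sum_nonneg fun w hw => mul_nonneg (by positivity) ?_
  have h1 := abs_sub_le_rel (lam := 1) (hp0 (u - Y w)) (avg_nonneg s Y hp0 u)
    (fun h => avg_zero_imp hs Y hp0 h hw) one_pos
  rcases (avg_nonneg s Y hp0 u).eq_or_lt with h | h
  · rw [← h, avg_zero_imp hs Y hp0 h.symm hw]; simp
  · have h2 := gibbs (hp0 (u - Y w)) h
    unfold negMulLog at h2
    linarith

theorem dev_le_pair {Ω : Type*} {s : Finset Ω} (hs : s.Nonempty) (Y : Ω → ι → ℝ)
    {p : (ι → ℝ) → ℝ} (hp : CS p) : dev s Y p ≤ pairN s Y (nrm p) := by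
  have hc : (0:ℝ) < s.card := by exact_mod_cast Finset.card_pos.2 hs
  unfold dev pairN
  refine Finset.sum_le_sum fun w _ => mul_le_mul_of_nonneg_left ?_ (by positivity)
  have hcs : ∀ w', CS (fun u => |p (u - Y w) - p (u - Y w')|) := fun w' =>
    ((hp.comp_sub _).sub (hp.comp_sub _)).abs
  have h1 : ∑ w' ∈ s, (s.card : ℝ)⁻¹ * nrm p (Y w - Y w') =
      ∫ u, ∑ w' ∈ s, (s.card : ℝ)⁻¹ * |p (u - Y w) - p (u - Y w')| := by
    rw [integral_finsetSum _ fun w' _ => ((hcs w').const_mul _).integrable]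
    refine Finset.sum_congr rfl fun w' _ => by rw [integral_const_mul, nrm_sub]
  rw [h1]
  refine integral_mono ((hp.comp_sub _).sub (hp.avg s Y)).abs.integrable
    (CS.sum s fun w' _ => (hcs w').const_mul _).integrable ?_
  intro u
  have h2 : p (u - Y w) - avg s Y p u =
      ∑ w' ∈ s, (s.card : ℝ)⁻¹ * (p (u - Y w) - p (u - Y w')) := by
    simp only [mul_sub, Finset.sum_sub_distrib]
    have : ∑ w' ∈ s, (s.card : ℝ)⁻¹ * p (u - Y w) = p (u - Y w) := by
      simp only [Finset.sum_const, nsmul_eq_mul]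
      field_simp
    rw [this]
    rfl
  simp only
  rw [h2]
  refine (Finset.abs_sum_le_sum_abs _ _).trans (le_of_eq ?_)
  refine Finset.sum_congr rfl fun w' _ => ?_
  rw [abs_mul, abs_of_pos (by positivity)]

theorem gap_le_dev {Ω : Type*} {s : Finset Ω} (hs : s.Nonempty) (Y : Ω → ι → ℝ)
    {p : (ι → ℝ) → ℝ} (hp : CS p) (hp0 : ∀ u, 0 ≤ p u) :
    gap s Y p ≤ (1 + log s.card) * dev s Y p := by
  have hc : (0:ℝ) < s.card := by exact_mod_cast Finset.card_pos.2 hs
  have hc1 : (1:ℝ) ≤ s.card := by exact_mod_cast Finset.card_pos.2 hs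
  have hcs : ∀ w, CS (fun u => |p (u - Y w) - avg s Y p u|) := fun w =>
    ((hp.comp_sub _).sub (hp.avg s Y)).abs
  have h1 : dev s Y p = ∫ u, ∑ w ∈ s, (s.card : ℝ)⁻¹ * |p (u - Y w) - avg s Y p u| := by
    unfold dev
    rw [integral_finsetSum _ fun w _ => ((hcs w).const_mul _).integrable]
    refine Finset.sum_congr rfl fun w _ => by rw [integral_const_mul]
  rw [gap_integral hs Y hp, h1, ← integral_const_mul]
  refine integral_mono (relf_cs hs Y hp).integrable
    ((CS.sum s fun w _ => (hcs w).const_mul _).const_mul _).integrable ?_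
  intro u
  simp only
  unfold relf
  rw [Finset.mul_sum]
  refine Finset.sum_le_sum fun w hw => ?_
  rcases (avg_nonneg s Y hp0 u).eq_or_lt with h | h
  · rw [← h, avg_zero_imp hs Y hp0 h.symm hw]; simp
  · have h2 : p (u - Y w) ≤ s.card * avg s Y p u := by
      unfold avg
      rw [← Finset.mul_sum, ← mul_assoc, mul_inv_cancel₀ hc.ne', one_mul]
      exact Finset.single_le_sum (f := fun w => p (u - Y w)) (fun _ _ => hp0 _) hw
    have h3 := rel_le_abs_sub (hp0 (u - Y w)) h hc1 h2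
    calc (s.card : ℝ)⁻¹ * _ ≤ (s.card : ℝ)⁻¹ * ((1 + log s.card) * |p (u - Y w) - avg s Y p u|) :=
          mul_le_mul_of_nonneg_left h3 (by positivity)
      _ = _ := by ring

theorem gap_le_pair {Ω : Type*} {s : Finset Ω} (hs : s.Nonempty) (Y : Ω → ι → ℝ)
    {p : (ι → ℝ) → ℝ} (hp : CS p) (hp0 : ∀ u, 0 ≤ p u) :
    gap s Y p ≤ (1 + log s.card) * pairN s Y (nrm p) := by
  have hc1 : (1:ℝ) ≤ s.card := by exact_mod_cast Finset.card_pos.2 hs
  refine (gap_le_dev hs Y hp hp0).trans ?_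
  exact mul_le_mul_of_nonneg_left (dev_le_pair hs Y hp)
    (by have := Real.log_nonneg hc1; linarith)

end Pool.Agent.V7H68.SS
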