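import Pool.Agent.V7H68.SS.Win
import Pool.Agent.V7H68.SS.Cls

/-!
The key lemma: words that are close have almost invariant differences.
-/

namespace Pool.Agent.V7H68.SS

open Finset Real MeasureTheory

set_option linter.unusedSectionVars false

variable {ι : Type*} [Fintype ι] {D : Type*} [Fintype D] [Nonempty D] {b : ℕ} (c : D → ι → ℝ)

/-- Limit translation norm. -/
noncomputable def nn (b : ℕ) (c : D → ι → ℝ) (y : ι → ℝ) : ℝ :=
  ⨅ k : ℕ, nrm (PP b c (-k) (2 * k)) y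

theorem nn_bdd (y : ι → ℝ) :
    BddBelow (Set.range fun k : ℕ => nrm (PP b c (-k) (2 * k)) y) :=
  ⟨0, by rintro _ ⟨k, rfl⟩; exact nrm_nonneg _ _⟩

theorem nn_nonneg (y : ι → ℝ) : 0 ≤ nn b c y := le_ciInf fun _ => nrm_nonneg _ _

theorem nn_le (lo : ℤ) (n : ℕ) (y : ι → ℝ) : nn b c y ≤ nrm (PP b c lo n) y := by
  set k := lo.natAbs + n with hk
  refine (ciInf_le (nn_bdd c y) k).trans ?_
  exact nrm_PP_anti c (by omega) (by push_cast; omega) y

theorem nn_window (y : ι → ℝ) {ε : ℝ} (hε : 0 < ε) : ∃ k0 : ℕ, ∀ (lo : ℤ) (n : ℕ),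
    lo ≤ -k0 → (k0 : ℤ) ≤ lo + n → nrm (PP b c lo n) y ≤ nn b c y + ε := by
  obtain ⟨k0, hk0⟩ := exists_lt_of_ciInf_lt (show nn b c y < nn b c y + ε by linarith)
  refine ⟨k0, fun lo n h1 h2 => (nrm_PP_anti c h1 ?_ y).trans hk0.le⟩
  push_cast
  omega

theorem nn_add (x y : ι → ℝ) : nn b c (x + y) ≤ nn b c x + nn b c y := by
  refine le_of_forall_pos_le_add fun ε hε => ?_
  obtain ⟨k1, h1⟩ := nn_window (b := b) c x (half_pos hε)
  obtain ⟨k2, h2⟩ := nn_window (b := b) c y (half_pos hε)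
  set k := max k1 k2 with hk
  have e1 := h1 (-k) (2 * k) (by omega) (by push_cast; omega)
  have e2 := h2 (-k) (2 * k) (by omega) (by push_cast; omega)
  have e3 := nrm_add (PP_dens (b := b) c (-k) (2 * k)).cs x y
  have e4 := nn_le (b := b) c (-k) (2 * k) (x + y)
  linarith

theorem nn_neg (y : ι → ℝ) : nn b c (-y) = nn b c y := by
  unfold nn
  simp only [nrm_neg]

theorem nn_small {y : ι → ℝ} (hy : ‖y‖ ≤ 1) : nn b c y ≤ KK ι * ‖y‖ :=
  (nn_le c 0 0 y).trans (nrm_q0_le hy)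

theorem nn_sub_le (x y : ι → ℝ) : |nn b c x - nn b c y| ≤ nn b c (x - y) := by
  rw [abs_le]
  have h1 := nn_add (b := b) c (x - y) y
  have h2 := nn_add (b := b) c (y - x) x
  rw [sub_add_cancel] at h1 h2
  have h3 : nn b c (y - x) = nn b c (x - y) := by rw [← nn_neg c (x - y), neg_sub]
  constructor <;> linarith

theorem nn_cont : Continuous (nn b c) := by
  rw [Metric.continuous_iff]
  intro x ε hε
  have hK := KK_nonneg ι
  refine ⟨min 1 (ε / (KK ι + 1)), by positivity, fun y hy => ?_⟩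
  rw [dist_eq_norm] at hy
  have h1 : ‖y - x‖ ≤ 1 := hy.le.trans (min_le_left _ _)
  have h2 : ‖y - x‖ < ε / (KK ι + 1) := hy.trans_le (min_le_right _ _)
  rw [Real.dist_eq]
  refine (nn_sub_le c y x).trans_lt ?_
  refine (nn_small c h1).trans_lt ?_
  rw [lt_div_iff₀ (by linarith)] at h2
  nlinarith [norm_nonneg (y - x)]

theorem nn_nsmul {u : ι → ℝ} (hu : nn b c u = 0) (j : ℕ) : nn b c ((j:ℝ) • u) = 0 := by
  induction j with
  | zero =>
    refine le_antisymm ?_ (nn_nonneg c _)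
    refine (nn_le c 0 0 _).trans (le_of_eq ?_)
    simp [nrm_zero]
  | succ j ih =>
    refine le_antisymm ?_ (nn_nonneg c _)
    have : ((j + 1 : ℕ) : ℝ) • u = (j:ℝ) • u + u := by push_cast; rw [add_smul, one_smul]
    rw [this]
    have := nn_add (b := b) c ((j:ℝ) • u) u
    linarith

theorem avg_cls {Ω κ : Type*} [Fintype Ω] [DecidableEq κ] (F : Ω → κ) (Y : Ω → ι → ℝ)
    (p : (ι → ℝ) → ℝ) :
    avg Finset.univ Y p =
      fun u => ∑ w ∈ (Finset.univ : Finset Ω), (Fintype.card Ω : ℝ)⁻¹ * avg (cls F w) Y p u := by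
  funext u
  have h := sum_cls F (fun v => p (u - Y v))
  unfold avg
  rw [← Finset.mul_sum, ← Finset.mul_sum, Finset.card_univ, h]

theorem key_step (hb : 2 ≤ b) {η : ℝ} {k0 r s k i : ℕ} (hs : s ≤ r) (hi : k0 + r ≤ i)
    (hk0 : ∀ (lo : ℤ) (n : ℕ), lo ≤ -k0 → (k0 : ℤ) ≤ lo + n →
      alpha b c - η ≤ inc b (PP b c lo n))
    {κ : Type*} [DecidableEq κ] (F : (Fin k → D) → κ) :
    ∑ w, (Fintype.card (Fin k → D) : ℝ)⁻¹ * gap (cls F w)
        (fun v => (b:ℝ) ^ ((i:ℤ) - s) • XX b c k v) (PP b c (-k0 - s) (2 * k0 + r)) ≤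
      ∑ w, (Fintype.card (Fin k → D) : ℝ)⁻¹ * gap (cls F w)
        (fun v => (b:ℝ) ^ ((i:ℤ) - (s + 1 : ℕ)) • XX b c k v)
        (PP b c (-k0 - (s + 1 : ℕ)) (2 * k0 + r)) + η := by
  have hb0 : 0 < b := by omega
  have hb' : (b:ℝ) ≠ 0 := by exact_mod_cast hb0.ne'
  set N : ℝ := (Fintype.card (Fin k → D) : ℝ) with hN
  have hNpos : 0 < N := by rw [hN]; exact_mod_cast Fintype.card_pos
  set p := PP b c (-k0 - s) (2 * k0 + r) with hp
  have hpd : Dens p := PP_dens c _ _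
  set Y : (Fin k → D) → ι → ℝ := fun v => (b:ℝ) ^ ((i:ℤ) - s) • XX b c k v with hY
  have h1 : ∀ w, gap (cls F w) Y p -
      gap (cls F w) (fun v => (b:ℝ) ^ ((i:ℤ) - (s + 1 : ℕ)) • XX b c k v)
        (PP b c (-k0 - (s + 1 : ℕ)) (2 * k0 + r)) = inc b (avg (cls F w) Y p) - inc b p := by
    intro w
    rw [inc_gap hb0]
    congr 2
    · funext v
      rw [hY]
      simp only
      rw [smul_smul]
      congr 1
      have : (i:ℤ) - (s + 1 : ℕ) = -1 + ((i:ℤ) - s) := by push_cast; ring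
      rw [this, zpow_add₀ hb', zpow_neg_one]
    · rw [hp, coarse_PP c hb]
      congr 1
      push_cast
      ring
  have h2 : ∑ w ∈ (Finset.univ : Finset (Fin k → D)), N⁻¹ * inc b (avg (cls F w) Y p) ≤
      inc b (avg Finset.univ Y p) := by
    rw [avg_cls F Y p]
    exact inc_mix hb0 _ (fun _ _ => by positivity) (fun w _ => hpd.cs.avg _ _)
      (fun w _ => avg_nonneg _ _ hpd.nonneg)
  have h3 : inc b (avg Finset.univ Y p) ≤ alpha b c := by
    rw [hY, avg_XX c hb]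
    obtain ⟨g, hg⟩ := Int.eq_ofNat_of_zero_le (show 0 ≤ (i:ℤ) - k0 - r by omega)
    refine (inc_It_ge c hb (-k0 - s + ((2 * k0 + r : ℕ) : ℤ)) g
      (It_dens c _ k hpd)).trans ?_
    rw [It_It_comm]
    have h4 : It b c ((i:ℤ) - s) k (It b c (-k0 - s + ((2 * k0 + r : ℕ) : ℤ)) g p) =
        PP b c (-k0 - s) (2 * k0 + r + g + k) := by
      rw [hp]
      unfold PP
      rw [It_add c _ (2 * k0 + r + g) k, It_add c _ (2 * k0 + r) g]
      have h5 : (i:ℤ) - s = -k0 - s + ((2 * k0 + r + g : ℕ) : ℤ) := by push_cast; omega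
      rw [h5]
    rw [h4]
    exact inc_le_alpha c hb _ _
  have h4 : alpha b c - η ≤ inc b p := hk0 _ _ (by omega) (by push_cast; omega)
  have h5 : ∑ w ∈ (Finset.univ : Finset (Fin k → D)), N⁻¹ * inc b p = inc b p := by
    rw [Finset.sum_const, nsmul_eq_mul, Finset.card_univ, ← hN]
    field_simp
  have h6 : ∑ w, N⁻¹ * gap (cls F w) Y p - ∑ w, N⁻¹ * gap (cls F w)
        (fun v => (b:ℝ) ^ ((i:ℤ) - (s + 1 : ℕ)) • XX b c k v)
        (PP b c (-k0 - (s + 1 : ℕ)) (2 * k0 + r)) =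
      ∑ w ∈ (Finset.univ : Finset (Fin k → D)), N⁻¹ * inc b (avg (cls F w) Y p) -
        ∑ w ∈ (Finset.univ : Finset (Fin k → D)), N⁻¹ * inc b p := by
    rw [← Finset.sum_sub_distrib, ← Finset.sum_sub_distrib]
    refine Finset.sum_congr rfl fun w _ => ?_
    rw [← mul_sub, ← mul_sub, h1 w]
  rw [h5] at h6
  linarith

/-- The key lemma. -/
theorem key (hb : 2 ≤ b) {ε : ℝ} (hε : 0 < ε) : ∃ i0 : ℕ, ∀ (k i : ℕ), i0 ≤ i →
    ∀ (κ : Type) [DecidableEq κ] (F : (Fin k → D) → κ),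
    (∀ w w', F w = F w' → ‖(b:ℝ) ^ i • (XX b c k w - XX b c k w')‖ ≤ 1) →
    ∑ w, (Fintype.card (Fin k → D) : ℝ)⁻¹ *
      pairN (cls F w) (fun v => (b:ℝ) ^ i • XX b c k v) (nn b c) ≤ ε := by
  have hb0 : 0 < b := by omega
  have hb1 : (1:ℝ) < b := by exact_mod_cast (by omega : 1 < b)
  have hb' : (b:ℝ) ≠ 0 := by positivity
  have hK := KK_nonneg ι
  set lam := ε / 8 with hlam
  have hl : 0 < lam := by positivity
  obtain ⟨r, hr⟩ : ∃ r : ℕ, KK ι * ((b:ℝ) ^ r)⁻¹ ≤ lam * (ε / 4) := by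
    obtain ⟨r, hr⟩ := exists_pow_lt_of_lt_one (show 0 < lam * (ε / 4) / (KK ι + 1) by positivity)
      (show (b:ℝ)⁻¹ < 1 by exact inv_lt_one_of_one_lt₀ hb1)
    refine ⟨r, ?_⟩
    rw [inv_pow, lt_div_iff₀ (by linarith)] at hr
    nlinarith [show (0:ℝ) < ((b:ℝ) ^ r)⁻¹ by positivity]
  set η := lam * (ε / 4) / (r + 1) with hη
  have hη0 : 0 < η := by positivity
  have hrη : r * η ≤ lam * (ε / 4) := by
    rw [hη]
    have : (r:ℝ) * (lam * (ε / 4) / (r + 1)) = lam * (ε / 4) * (r / (r + 1)) := by ring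
    rw [this]
    have h2 : (r:ℝ) / (r + 1) ≤ 1 := by rw [div_le_one (by positivity)]; linarith
    nlinarith [show 0 < lam * (ε / 4) by positivity]
  obtain ⟨k0, hk0⟩ := exists_window c hb hη0
  refine ⟨k0 + r, fun k i hi κ _ F hF => ?_⟩
  set N : ℝ := (Fintype.card (Fin k → D) : ℝ) with hN
  have hNpos : 0 < N := by rw [hN]; exact_mod_cast Fintype.card_pos
  set g : ℕ → ℝ := fun s => ∑ w, N⁻¹ * gap (cls F w)
        (fun v => (b:ℝ) ^ ((i:ℤ) - s) • XX b c k v) (PP b c (-k0 - s) (2 * k0 + r)) with hg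
  have h1 : ∀ s, s ≤ r → g 0 ≤ g s + s * η := by
    intro s hs
    induction s with
    | zero => simp
    | succ s ih =>
      have h2 := key_step c hb (k := k) (show s ≤ r by omega) hi hk0 F
      have h3 := ih (by omega)
      have h4 : g s ≤ g (s + 1) + η := h2
      push_cast
      linarith
  have h2 : g r ≤ KK ι * ((b:ℝ) ^ r)⁻¹ := by
    have h3 : ∀ w ∈ (Finset.univ : Finset (Fin k → D)), N⁻¹ * gap (cls F w)
        (fun v => (b:ℝ) ^ ((i:ℤ) - r) • XX b c k v) (PP b c (-k0 - r) (2 * k0 + r)) ≤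
        N⁻¹ * (KK ι * ((b:ℝ) ^ r)⁻¹) := by
      intro w _
      refine mul_le_mul_of_nonneg_left ?_ (by positivity)
      refine (gap_It_le c (cls_ne F w) _ _ _ q0_dens).trans ?_
      refine gap_q0_le (cls_ne F w) _ ?_ ?_
      · exact inv_le_one_of_one_le₀ (one_le_pow₀ hb1.le)
      · intro v hv v' hv'
        rw [mem_cls] at hv hv'
        have h4 := hF v v' (hv.trans hv'.symm)
        rw [← smul_sub]
        have h5 : (b:ℝ) ^ ((i:ℤ) - r) • (XX b c k v - XX b c k v') =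
            ((b:ℝ) ^ r)⁻¹ • ((b:ℝ) ^ i • (XX b c k v - XX b c k v')) := by
          rw [smul_smul]
          congr 1
          rw [zpow_sub₀ hb', zpow_natCast, zpow_natCast]
          field_simp
        rw [h5, norm_smul, Real.norm_of_nonneg (by positivity)]
        have : (0:ℝ) < ((b:ℝ) ^ r)⁻¹ := by positivity
        nlinarith
    refine (Finset.sum_le_sum h3).trans (le_of_eq ?_)
    rw [Finset.sum_const, nsmul_eq_mul, Finset.card_univ, ← hN]
    field_simp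
  have h3 : g 0 ≤ 2 * (lam * (ε / 4)) := by
    have := h1 r le_rfl
    linarith
  have h4 : ∀ w ∈ (Finset.univ : Finset (Fin k → D)),
      N⁻¹ * pairN (cls F w) (fun v => (b:ℝ) ^ i • XX b c k v) (nn b c) ≤
      N⁻¹ * (gap (cls F w) (fun v => (b:ℝ) ^ ((i:ℤ) - (0:ℕ)) • XX b c k v)
        (PP b c (-k0 - (0:ℕ)) (2 * k0 + r)) / lam + 4 * lam) := by
    intro w _
    refine mul_le_mul_of_nonneg_left ?_ (by positivity)
    have h5 := pair_le_gap (cls_ne F w) (fun v => (b:ℝ) ^ i • XX b c k v)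
      (PP_dens (b := b) c (-k0 - (0:ℕ)) (2 * k0 + r)) hl
    have h6 : (fun v => (b:ℝ) ^ ((i:ℤ) - (0:ℕ)) • XX b c k v) =
        fun v => (b:ℝ) ^ i • XX b c k v := by
      funext v
      simp
    rw [h6]
    refine le_trans ?_ h5
    unfold pairN
    refine Finset.sum_le_sum fun v _ => mul_le_mul_of_nonneg_left ?_ (by positivity)
    refine Finset.sum_le_sum fun v' _ => mul_le_mul_of_nonneg_left ?_ (by positivity)
    exact nn_le c _ _ _
  refine (Finset.sum_le_sum h4).trans ?_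
  have h5 : ∑ w ∈ (Finset.univ : Finset (Fin k → D)),
      N⁻¹ * (gap (cls F w) (fun v => (b:ℝ) ^ ((i:ℤ) - (0:ℕ)) • XX b c k v)
        (PP b c (-k0 - (0:ℕ)) (2 * k0 + r)) / lam + 4 * lam) = g 0 / lam + 4 * lam := by
    simp only [mul_add, Finset.sum_add_distrib, Finset.sum_const, nsmul_eq_mul,
      Finset.card_univ, ← hN]
    rw [hg]
    simp only
    rw [Finset.sum_div]
    congr 1
    · refine Finset.sum_congr rfl fun w _ => by rw [mul_div_assoc]
    · field_simp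
  rw [h5]
  have h6 : g 0 / lam ≤ ε / 2 := by
    rw [div_le_iff₀ hl]
    linarith
  have h7 : 4 * lam = ε / 2 := by rw [hlam]; ring
  linarith

end Pool.Agent.V7H68.SS
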