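import Pool.Agent.V7H68.SS.Cs

/-!
Entropy, coarse-graining, averages of translates, entropy gap and translation norm.
-/

namespace Pool.Agent.V7H68.SS

open Finset Real MeasureTheory

set_option linter.unusedSectionVars false

variable {ι : Type*} [Fintype ι]

/-- Densities: bounded by one, with bounded support and mass one. -/
structure Dens (p : (ι → ℝ) → ℝ) : Prop where
  cs : CS p
  nonneg : ∀ u, 0 ≤ p u
  le_one : ∀ u, p u ≤ 1
  mass : ∫ u, p u = 1

/-- Differential entropy. -/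
noncomputable def ent (p : (ι → ℝ) → ℝ) : ℝ := ∫ u, negMulLog (p u)

theorem Dens.ent_nonneg {p : (ι → ℝ) → ℝ} (hp : Dens p) : 0 ≤ ent p :=
  integral_nonneg fun u => negMulLog_nonneg (hp.nonneg u) (hp.le_one u)

/-- Coarse-graining with ratio `b`. -/
noncomputable def coarse (b : ℕ) (p : (ι → ℝ) → ℝ) : (ι → ℝ) → ℝ := by
  classical
  exact fun v => ∑ e : ι → Fin b, p ((b : ℝ) • v + fun i => - ((e i : ℕ) : ℝ))

theorem coarse_apply [DecidableEq ι] (b : ℕ) (p : (ι → ℝ) → ℝ) (v : ι → ℝ) :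
    coarse b p v = ∑ e : ι → Fin b, p ((b : ℝ) • v + fun i => - ((e i : ℕ) : ℝ)) := by
  unfold coarse
  have h : (fun a b => Classical.propDecidable (a = b) : DecidableEq ι) = ‹DecidableEq ι› :=
    Subsingleton.elim _ _
  rw [h]

/-- Entropy increment under coarse-graining. -/
noncomputable def inc (b : ℕ) (p : (ι → ℝ) → ℝ) : ℝ := ent p - ent (coarse b p)

theorem CS.crs {b : ℕ} (hb : 0 < b) {p : (ι → ℝ) → ℝ} (hp : CS p) : CS (coarse b p) := by
  classical
  have : coarse b p = fun v => ∑ e : ι → Fin b, p ((b : ℝ) • v + fun i => - ((e i : ℕ) : ℝ)) := by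
    funext v; exact coarse_apply b p v
  rw [this]
  exact CS.sum _ fun e _ => hp.comp_affine (by exact_mod_cast hb) _

theorem coarse_nonneg {b : ℕ} {p : (ι → ℝ) → ℝ} (hp : ∀ u, 0 ≤ p u) (v : ι → ℝ) :
    0 ≤ coarse b p v := by
  classical
  rw [coarse_apply]
  exact Finset.sum_nonneg fun e _ => hp _

theorem sum_integral_affine [DecidableEq ι] {b : ℕ} (hb : 0 < b) {f : (ι → ℝ) → ℝ}
    (hf : CS f) :
    ∫ v, ∑ e : ι → Fin b, f ((b : ℝ) • v + fun i => - ((e i : ℕ) : ℝ)) = ∫ u, f u := by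
  have hb' : (0:ℝ) < b := by exact_mod_cast hb
  rw [integral_finsetSum _ fun e _ => (hf.comp_affine hb' _).integrable]
  have : ∀ e : ι → Fin b, ∫ v, f ((b : ℝ) • v + fun i => - ((e i : ℕ) : ℝ)) =
      ((b:ℝ) ^ Fintype.card ι)⁻¹ * ∫ u, f u := fun e => integral_comp_affine hb' _
  rw [Finset.sum_congr rfl fun e _ => this e]
  simp only [Finset.sum_const, Finset.card_univ, Fintype.card_pi, Fintype.card_fin,
    Finset.prod_const, nsmul_eq_mul, Nat.cast_pow]
  field_simp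

theorem coarse_mass {b : ℕ} (hb : 0 < b) {p : (ι → ℝ) → ℝ} (hp : CS p) :
    ∫ v, coarse b p v = ∫ u, p u := by
  classical
  simp only [coarse_apply]
  exact sum_integral_affine hb hp

theorem inc_eq [DecidableEq ι] {b : ℕ} (hb : 0 < b) {p : (ι → ℝ) → ℝ} (hp : CS p) :
    inc b p = FF (κ := ι → Fin b) b 1 (fun e i => - ((e i : ℕ) : ℝ)) p := by
  have hb' : (0:ℝ) < b := by exact_mod_cast hb
  unfold inc ent FF psi
  rw [← sum_integral_affine hb hp.negMulLog]
  simp only [one_mul]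
  rw [← integral_sub]
  · congr 1
    funext v
    rw [coarse_apply]
  · exact (CS.sum _ fun e _ => hp.negMulLog.comp_affine hb' _).integrable
  · exact (hp.crs hb).negMulLog.integrable

/-- Average of translates. -/
noncomputable def avg {Ω : Type*} (s : Finset Ω) (Y : Ω → ι → ℝ) (p : (ι → ℝ) → ℝ) :
    (ι → ℝ) → ℝ :=
  fun u => ∑ w ∈ s, (s.card : ℝ)⁻¹ * p (u - Y w)

theorem CS.avg {Ω : Type*} (s : Finset Ω) (Y : Ω → ι → ℝ) {p : (ι → ℝ) → ℝ} (hp : CS p) :
    CS (avg s Y p) :=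
  CS.sum s fun w _ => (hp.comp_sub (Y w)).const_mul _

theorem avg_nonneg {Ω : Type*} (s : Finset Ω) (Y : Ω → ι → ℝ) {p : (ι → ℝ) → ℝ}
    (hp : ∀ u, 0 ≤ p u) (u : ι → ℝ) : 0 ≤ avg s Y p u :=
  Finset.sum_nonneg fun w _ => mul_nonneg (by positivity) (hp _)

theorem avg_mass {Ω : Type*} {s : Finset Ω} (hs : s.Nonempty) (Y : Ω → ι → ℝ)
    {p : (ι → ℝ) → ℝ} (hp : CS p) : ∫ u, avg s Y p u = ∫ u, p u := by
  unfold avg
  rw [integral_finsetSum _ fun w _ => ((hp.comp_sub (Y w)).const_mul _).integrable]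
  have : ∀ w, ∫ u, (s.card : ℝ)⁻¹ * p (u - Y w) = (s.card : ℝ)⁻¹ * ∫ u, p u := fun w => by
    rw [integral_const_mul, integral_comp_sub]
  rw [Finset.sum_congr rfl fun w _ => this w]
  have hc : (s.card : ℝ) ≠ 0 := by exact_mod_cast (Finset.card_pos.2 hs).ne'
  simp only [Finset.sum_const, nsmul_eq_mul]
  field_simp

theorem Dens.avg {Ω : Type*} {s : Finset Ω} (hs : s.Nonempty) (Y : Ω → ι → ℝ)
    {p : (ι → ℝ) → ℝ} (hp : Dens p) : Dens (avg s Y p) := by
  refine ⟨hp.cs.avg s Y, avg_nonneg s Y hp.nonneg, fun u => ?_, ?_⟩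
  · have hc : (0:ℝ) < s.card := by exact_mod_cast Finset.card_pos.2 hs
    calc SS.avg s Y p u ≤ ∑ w ∈ s, (s.card : ℝ)⁻¹ * 1 :=
          Finset.sum_le_sum fun w _ => mul_le_mul_of_nonneg_left (hp.le_one _) (by positivity)
      _ = 1 := by simp; field_simp
  · rw [avg_mass hs Y hp.cs, hp.mass]

theorem ent_translate (p : (ι → ℝ) → ℝ) (y : ι → ℝ) : ent (fun u => p (u - y)) = ent p :=
  integral_comp_sub (f := fun u => negMulLog (p u)) y

theorem coarse_avg {Ω : Type*} {b : ℕ} (hb : 0 < b) (s : Finset Ω) (Y : Ω → ι → ℝ)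
    (p : (ι → ℝ) → ℝ) :
    coarse b (avg s Y p) = avg s (fun w => (b:ℝ)⁻¹ • Y w) (coarse b p) := by
  classical
  have hb' : (b:ℝ) ≠ 0 := by exact_mod_cast hb.ne'
  funext v
  rw [coarse_apply]
  unfold avg
  rw [Finset.sum_comm]
  refine Finset.sum_congr rfl fun w _ => ?_
  rw [← Finset.mul_sum, coarse_apply]
  congr 1
  refine Finset.sum_congr rfl fun e _ => ?_
  congr 1
  rw [smul_sub, smul_smul, mul_inv_cancel₀ hb', one_smul]
  abel_nf

theorem inc_mix {σ : Type*} {b : ℕ} (hb : 0 < b) (s : Finset σ) {w : σ → ℝ}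
    {p : σ → (ι → ℝ) → ℝ} (hw : ∀ i ∈ s, 0 ≤ w i) (hp : ∀ i ∈ s, CS (p i))
    (hp0 : ∀ i ∈ s, ∀ u, 0 ≤ p i u) :
    ∑ i ∈ s, w i * inc b (p i) ≤ inc b (fun u => ∑ i ∈ s, w i * p i u) := by
  classical
  have hb' : (0:ℝ) < b := by exact_mod_cast hb
  rw [inc_eq hb (CS.sum s fun i hi => (hp i hi).const_mul (w i)),
    Finset.sum_congr rfl fun i hi => by rw [inc_eq hb (hp i hi)]]
  exact FF_mix s hb' zero_le_one _ hw hp hp0

theorem inc_translate {b : ℕ} (hb : 0 < b) {p : (ι → ℝ) → ℝ} (hp : CS p) (y : ι → ℝ) :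
    inc b (fun u => p (u - y)) = inc b p := by
  classical
  have hb' : (0:ℝ) < b := by exact_mod_cast hb
  rw [inc_eq hb hp, inc_eq hb (hp.comp_sub y), FF_translate hb']

theorem inc_avg_ge {Ω : Type*} {b : ℕ} (hb : 0 < b) {s : Finset Ω} (hs : s.Nonempty)
    (Y : Ω → ι → ℝ) {p : (ι → ℝ) → ℝ} (hp : CS p) (hp0 : ∀ u, 0 ≤ p u) :
    inc b p ≤ inc b (avg s Y p) := by
  have h1 := inc_mix hb s (w := fun _ => (s.card : ℝ)⁻¹) (p := fun w u => p (u - Y w))
    (fun _ _ => by positivity) (fun w _ => hp.comp_sub (Y w)) (fun w _ u => hp0 _)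
  have h2 : ∑ w ∈ s, (s.card : ℝ)⁻¹ * inc b (fun u => p (u - Y w)) = inc b p := by
    simp only [inc_translate hb hp]
    have hc : (s.card : ℝ) ≠ 0 := by exact_mod_cast (Finset.card_pos.2 hs).ne'
    simp only [Finset.sum_const, nsmul_eq_mul]
    field_simp
  rw [h2] at h1
  exact h1

/-- Entropy gap. -/
noncomputable def gap {Ω : Type*} (s : Finset Ω) (Y : Ω → ι → ℝ) (p : (ι → ℝ) → ℝ) : ℝ :=
  ent (avg s Y p) - ent p

theorem inc_gap {Ω : Type*} {b : ℕ} (hb : 0 < b) (s : Finset Ω)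
    (Y : Ω → ι → ℝ) (p : (ι → ℝ) → ℝ) :
    inc b (avg s Y p) - inc b p =
      gap s Y p - gap s (fun w => (b:ℝ)⁻¹ • Y w) (coarse b p) := by
  unfold inc gap
  rw [coarse_avg hb]
  ring

theorem gap_eq {Ω : Type*} {s : Finset Ω} (hs : s.Nonempty) (Y : Ω → ι → ℝ)
    {p : (ι → ℝ) → ℝ} (hp : CS p) :
    gap s Y p = log s.card * (∫ u, p u) -
      FF (κ := s) 1 (s.card : ℝ)⁻¹ (fun w => - Y w.1) p := by
  have hc : (0:ℝ) < s.card := by exact_mod_cast Finset.card_pos.2 hs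
  have hcs : ∀ w : s, CS (fun u => (s.card : ℝ)⁻¹ * p (u - Y w.1)) := fun w =>
    (hp.comp_sub (Y w.1)).const_mul _
  have h1 : FF (κ := s) 1 (s.card : ℝ)⁻¹ (fun w => - Y w.1) p =
      (∑ w : s, ∫ u, negMulLog ((s.card : ℝ)⁻¹ * p (u - Y w.1))) - ent (avg s Y p) := by
    unfold FF psi ent
    simp only [one_smul, ← sub_eq_add_neg]
    rw [integral_sub, integral_finsetSum]
    · congr 2
      funext u
      unfold avg
      rw [← Finset.sum_coe_sort s]
    · exact fun w _ => (hcs w).negMulLog.integrable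
    · exact (CS.sum _ fun w _ => (hcs w).negMulLog).integrable
    · exact (CS.sum _ fun w _ => hcs w).negMulLog.integrable
  have h2 : ∀ w : s, ∫ u, negMulLog ((s.card : ℝ)⁻¹ * p (u - Y w.1)) =
      (s.card : ℝ)⁻¹ * (ent p + log s.card * ∫ u, p u) := by
    intro w
    rw [integral_comp_sub (f := fun u => negMulLog ((s.card : ℝ)⁻¹ * p u)) (Y w.1)]
    have : (fun u => negMulLog ((s.card : ℝ)⁻¹ * p u)) =
        fun u => (s.card : ℝ)⁻¹ * (negMulLog (p u) + log s.card * p u) := by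
      funext u
      rw [negMulLog_mul]
      unfold negMulLog
      rw [Real.log_inv]
      ring
    rw [this, integral_const_mul, integral_add hp.negMulLog.integrable
      (hp.const_mul _).integrable, integral_const_mul]
    rfl
  rw [h1, Finset.sum_congr rfl fun w _ => h2 w]
  unfold gap
  simp only [Finset.sum_const, Finset.card_univ, Fintype.card_coe, nsmul_eq_mul]
  field_simp
  ring

theorem gap_avg_le {Ω Θ : Type*} {s : Finset Ω} (hs : s.Nonempty) (Y : Ω → ι → ℝ)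
    {t : Finset Θ} (ht : t.Nonempty) (Z : Θ → ι → ℝ)
    {p : (ι → ℝ) → ℝ} (hp : CS p) (hp0 : ∀ u, 0 ≤ p u) :
    gap s Y (avg t Z p) ≤ gap s Y p := by
  rw [gap_eq hs Y hp, gap_eq hs Y (hp.avg t Z), avg_mass ht Z hp]
  have hc : (t.card : ℝ) ≠ 0 := by exact_mod_cast (Finset.card_pos.2 ht).ne'
  have h1 := FF_mix (κ := s) t (lam := 1) (a := (s.card : ℝ)⁻¹) one_pos (by positivity)
    (fun w => - Y w.1) (w := fun _ => (t.card : ℝ)⁻¹) (p := fun w u => p (u - Z w))
    (fun _ _ => by positivity) (fun w _ => hp.comp_sub (Z w)) (fun w _ u => hp0 _)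
  simp only [FF_translate one_pos, Finset.sum_const, nsmul_eq_mul] at h1
  rw [← mul_assoc, mul_inv_cancel₀ hc, one_mul] at h1
  unfold avg
  linarith

/-- Translation norm. -/
noncomputable def nrm (p : (ι → ℝ) → ℝ) (y : ι → ℝ) : ℝ := ∫ u, |p (u - y) - p u|

theorem nrm_nonneg (p : (ι → ℝ) → ℝ) (y : ι → ℝ) : 0 ≤ nrm p y :=
  integral_nonneg fun _ => abs_nonneg _

theorem nrm_sub (p : (ι → ℝ) → ℝ) (x y : ι → ℝ) :
    ∫ u, |p (u - x) - p (u - y)| = nrm p (x - y) := by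
  unfold nrm
  rw [← integral_comp_sub (f := fun u => |p (u - (x - y)) - p u|) y]
  congr 1
  funext u
  congr 3
  abel_nf

theorem nrm_add {p : (ι → ℝ) → ℝ} (hp : CS p) (x y : ι → ℝ) :
    nrm p (x + y) ≤ nrm p x + nrm p y := by
  have h1 : nrm p x = ∫ u, |p (u - (x + y)) - p (u - y)| := by
    rw [nrm_sub]; congr 1; abel_nf
  rw [h1]
  unfold nrm
  rw [← integral_add ((hp.comp_sub _).sub (hp.comp_sub _)).abs.integrable
    ((hp.comp_sub _).sub hp).abs.integrable]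
  refine integral_mono ((hp.comp_sub _).sub hp).abs.integrable
    (((hp.comp_sub _).sub (hp.comp_sub _)).abs.add ((hp.comp_sub _).sub hp).abs).integrable ?_
  intro u
  exact abs_sub_le _ _ _

theorem nrm_neg (p : (ι → ℝ) → ℝ) (y : ι → ℝ) : nrm p (-y) = nrm p y := by
  have h := nrm_sub p 0 y
  rw [zero_sub] at h
  rw [← h]
  unfold nrm
  congr 1
  funext u
  rw [abs_sub_comm]
  simp

theorem nrm_zero (p : (ι → ℝ) → ℝ) : nrm p 0 = 0 := by
  unfold nrm; simp

theorem nrm_mix {σ : Type*} (s : Finset σ) {w : σ → ℝ} {p : σ → (ι → ℝ) → ℝ}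
    (hw : ∀ i ∈ s, 0 ≤ w i) (hp : ∀ i ∈ s, CS (p i)) (y : ι → ℝ) :
    nrm (fun u => ∑ i ∈ s, w i * p i u) y ≤ ∑ i ∈ s, w i * nrm (p i) y := by
  have h1 : ∑ i ∈ s, w i * nrm (p i) y = ∫ u, ∑ i ∈ s, w i * |p i (u - y) - p i u| := by
    rw [integral_finsetSum _ fun i hi =>
      ((((hp i hi).comp_sub y).sub (hp i hi)).abs.const_mul (w i)).integrable]
    refine Finset.sum_congr rfl fun i _ => by rw [integral_const_mul]; rfl
  rw [h1]
  unfold nrm
  refine integral_mono ?_ (CS.sum s fun i hi =>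
    (((hp i hi).comp_sub y).sub (hp i hi)).abs.const_mul (w i)).integrable ?_
  · have hc : CS (fun u => ∑ i ∈ s, w i * p i u) := CS.sum s fun i hi => (hp i hi).const_mul _
    exact ((hc.comp_sub y).sub hc).abs.integrable
  · intro u
    simp only
    rw [← Finset.sum_sub_distrib]
    refine (Finset.abs_sum_le_sum_abs _ _).trans (Finset.sum_le_sum fun i hi => ?_)
    rw [← mul_sub, abs_mul, abs_of_nonneg (hw i hi)]

theorem nrm_translate (p : (ι → ℝ) → ℝ) (z y : ι → ℝ) :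
    nrm (fun u => p (u - z)) y = nrm p y := by
  unfold nrm
  rw [← integral_comp_sub (f := fun u => |p (u - y) - p u|) z]
  congr 1
  funext u
  congr 3
  abel_nf

theorem nrm_avg_le {Ω : Type*} {s : Finset Ω} (hs : s.Nonempty) (Y : Ω → ι → ℝ)
    {p : (ι → ℝ) → ℝ} (hp : CS p) (y : ι → ℝ) : nrm (avg s Y p) y ≤ nrm p y := by
  have hc : (s.card : ℝ) ≠ 0 := by exact_mod_cast (Finset.card_pos.2 hs).ne'
  refine (nrm_mix s (w := fun _ => (s.card : ℝ)⁻¹) (p := fun w u => p (u - Y w))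
    (fun _ _ => by positivity) (fun w _ => hp.comp_sub (Y w)) y).trans (le_of_eq ?_)
  simp only [nrm_translate, Finset.sum_const, nsmul_eq_mul]
  field_simp

theorem nrm_coarse_le {b : ℕ} (hb : 0 < b) {p : (ι → ℝ) → ℝ} (hp : CS p) (y : ι → ℝ) :
    nrm (coarse b p) y ≤ nrm p ((b:ℝ) • y) := by
  classical
  have hb' : (0:ℝ) < b := by exact_mod_cast hb
  have hcs : CS (fun u => |p (u - (b:ℝ) • y) - p u|) := ((hp.comp_sub _).sub hp).abs
  unfold nrm
  rw [← sum_integral_affine hb hcs]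
  refine integral_mono ((((hp.crs hb).comp_sub y).sub (hp.crs hb)).abs.integrable)
    (CS.sum _ fun e _ => hcs.comp_affine hb' _).integrable ?_
  intro v
  simp only [coarse_apply]
  rw [← Finset.sum_sub_distrib]
  refine (Finset.abs_sum_le_sum_abs _ _).trans (le_of_eq ?_)
  refine Finset.sum_congr rfl fun e _ => ?_
  congr 3
  rw [smul_sub]
  abel_nf

end Pool.Agent.V7H68.SS
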