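import Mathlib

/-!
Elementary inequalities for the function `x ↦ -x log x` and for the block entropy
`psi r = ∑ negMulLog (r e) - negMulLog (∑ r e)`.
-/

namespace Pool.Agent.V7H68.SS

open Finset Real

/-- Gibbs inequality for two numbers. -/
theorem gibbs {x y : ℝ} (hx : 0 ≤ x) (hy : 0 < y) : negMulLog x + x * log y ≤ y - x := by
  rcases hx.eq_or_lt with h | h
  · subst h
    simp [hy.le]
  · have h1 := Real.log_le_sub_one_of_pos (div_pos hy h)
    rw [Real.log_div hy.ne' h.ne'] at h1
    have h2 : x * (log y - log x) ≤ x * (y / x - 1) := mul_le_mul_of_nonneg_left h1 hx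
    have h3 : x * (y / x - 1) = y - x := by field_simp
    rw [h3] at h2
    unfold negMulLog
    linarith

theorem negMulLog_le_one {x : ℝ} (hx : 0 ≤ x) : negMulLog x ≤ 1 := by
  have h := gibbs hx (one_pos)
  simp at h
  linarith

/-- Block entropy. -/
noncomputable def psi {κ : Type*} [Fintype κ] (r : κ → ℝ) : ℝ :=
  ∑ e, negMulLog (r e) - negMulLog (∑ e, r e)

theorem psi_nonneg {κ : Type*} [Fintype κ] {r : κ → ℝ} (hr : ∀ e, 0 ≤ r e) : 0 ≤ psi r := by
  unfold psi
  have hS : 0 ≤ ∑ e, r e := Finset.sum_nonneg fun e _ => hr e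
  have h1 : negMulLog (∑ e, r e) = ∑ e, - (r e * log (∑ e, r e)) := by
    unfold negMulLog
    rw [Finset.sum_neg_distrib, ← Finset.sum_mul]
    ring
  rw [h1, ← Finset.sum_sub_distrib]
  refine Finset.sum_nonneg fun e _ => ?_
  unfold negMulLog
  rcases (hr e).eq_or_lt with h | h
  · simp [← h]
  · have h2 : log (r e) ≤ log (∑ e, r e) :=
      Real.log_le_log h (Finset.single_le_sum (fun e _ => hr e) (Finset.mem_univ e))
    nlinarith

/-- The variational upper bound of `psi`. -/
theorem psi_le_gibbs {κ : Type*} [Fintype κ] {r q : κ → ℝ} (hr : ∀ e, 0 ≤ r e)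
    (hq : ∀ e, 0 ≤ q e) (hrq : ∀ e, q e = 0 → r e = 0) :
    psi r ≤ ∑ e, r e * (log (∑ e, q e) - log (q e)) := by
  classical
  set R := ∑ e, r e with hR
  set Q := ∑ e, q e with hQ
  have hR0 : 0 ≤ R := Finset.sum_nonneg fun e _ => hr e
  have hQ0 : 0 ≤ Q := Finset.sum_nonneg fun e _ => hq e
  rcases hR0.eq_or_lt with h | h
  · have hr0 : ∀ e, r e = 0 := by
      intro e
      have := (Finset.sum_eq_zero_iff_of_nonneg (s := Finset.univ) (f := r)
        (fun e _ => hr e)).1 (by rw [← hR, ← h])
      exact this e (Finset.mem_univ e)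
    unfold psi
    simp [hr0]
  · have hQpos : 0 < Q := by
      rcases hQ0.eq_or_lt with h' | h'
      · exfalso
        have hq0 : ∀ e, q e = 0 := by
          intro e
          have := (Finset.sum_eq_zero_iff_of_nonneg (s := Finset.univ) (f := q)
            (fun e _ => hq e)).1 (by rw [← hQ, ← h'])
          exact this e (Finset.mem_univ e)
        have : R = 0 := Finset.sum_eq_zero fun e _ => hrq e (hq0 e)
        exact h.ne' this
      · exact h'
    have key : ∀ e, negMulLog (r e) + r e * log R - r e * (log Q - log (q e))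
        ≤ R / Q * q e - r e := by
      intro e
      rcases (hq e).eq_or_lt with hz | hz
      · rw [hrq e hz.symm, ← hz]; simp
      · have hy : 0 < R / Q * q e := by positivity
        have h1 := gibbs (hr e) hy
        rw [Real.log_mul (by positivity) hz.ne', Real.log_div h.ne' hQpos.ne'] at h1
        linarith
    have hs := Finset.sum_le_sum fun e (_ : e ∈ (Finset.univ : Finset κ)) => key e
    simp only [Finset.sum_sub_distrib, Finset.sum_add_distrib, ← Finset.mul_sum,
      ← Finset.sum_mul] at hs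
    rw [← hR, ← hQ] at hs
    have h3 : R / Q * Q - R = 0 := by field_simp; ring
    rw [h3] at hs
    unfold psi
    rw [← hR]
    have h4 : negMulLog R = - (R * log R) := by unfold negMulLog; ring
    rw [h4]
    linarith

theorem psi_eq {κ : Type*} [Fintype κ] (q : κ → ℝ) :
    psi q = ∑ e, q e * (log (∑ e, q e) - log (q e)) := by
  unfold psi
  simp only [mul_sub, Finset.sum_sub_distrib, ← Finset.sum_mul]
  unfold negMulLog
  simp only [neg_mul, Finset.sum_neg_distrib]
  ring

/-- `psi` is superadditive (and homogeneous): the mixture inequality. -/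
theorem psi_mix {κ σ : Type*} [Fintype κ] (s : Finset σ) {w : σ → ℝ} {r : σ → κ → ℝ}
    (hw : ∀ i ∈ s, 0 ≤ w i) (hr : ∀ i ∈ s, ∀ e, 0 ≤ r i e) :
    ∑ i ∈ s, w i * psi (r i) ≤ psi (fun e => ∑ i ∈ s, w i * r i e) := by
  classical
  set q : κ → ℝ := fun e => ∑ i ∈ s, w i * r i e with hq
  have hq0 : ∀ e, 0 ≤ q e := fun e => Finset.sum_nonneg fun i hi => mul_nonneg (hw i hi) (hr i hi e)
  rw [psi_eq q]
  have h1 : ∑ e, q e * (log (∑ e, q e) - log (q e)) =
      ∑ i ∈ s, w i * ∑ e, r i e * (log (∑ e, q e) - log (q e)) := by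
    have : ∀ e, q e * (log (∑ e, q e) - log (q e)) =
        ∑ i ∈ s, w i * (r i e * (log (∑ e, q e) - log (q e))) := by
      intro e
      conv_lhs => rw [hq]
      simp only
      rw [Finset.sum_mul]
      refine Finset.sum_congr rfl fun i _ => by ring
    rw [Finset.sum_congr rfl fun e _ => this e, Finset.sum_comm]
    refine Finset.sum_congr rfl fun i _ => by rw [Finset.mul_sum]
  rw [h1]
  refine Finset.sum_le_sum fun i hi => ?_
  rcases (hw i hi).eq_or_lt with h | h
  · rw [← h]; simp
  · refine mul_le_mul_of_nonneg_left ?_ (hw i hi)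
    refine psi_le_gibbs (hr i hi) hq0 ?_
    intro e he
    have h2 := (Finset.sum_eq_zero_iff_of_nonneg
      (fun j hj => mul_nonneg (hw j hj) (hr j hj e))).1 he i hi
    rcases mul_eq_zero.1 h2 with h3 | h3
    · exact absurd h3 h.ne'
    · exact h3

/-- `psi` is at most the total mass times the log of the size of a set carrying the mass. -/
theorem psi_le_log {κ : Type*} [Fintype κ] {r : κ → ℝ} (hr : ∀ e, 0 ≤ r e)
    (s : Finset κ) (hs : ∀ e, r e ≠ 0 → e ∈ s) (M : ℝ) (hM : (s.card : ℝ) ≤ M) :
    psi r ≤ (∑ e, r e) * log M := by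
  classical
  set q : κ → ℝ := fun e => if e ∈ s then 1 else 0 with hq
  have hq0 : ∀ e, 0 ≤ q e := fun e => by simp only [hq]; split <;> norm_num
  have h1 := psi_le_gibbs hr hq0 (fun e he => by
    by_contra hne
    have := hs e hne
    simp [hq, this] at he)
  have h2 : ∑ e, q e = s.card := by simp [hq]
  rw [h2] at h1
  refine h1.trans ?_
  rw [Finset.sum_mul]
  refine Finset.sum_le_sum fun e _ => ?_
  by_cases h0 : r e = 0
  · simp [h0]
  · have hes := hs e h0
    have hc : (0:ℝ) < s.card := by exact_mod_cast Finset.card_pos.2 ⟨e, hes⟩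
    have h3 : q e = 1 := by simp [hq, hes]
    rw [h3]
    simp only [log_one, sub_zero]
    exact mul_le_mul_of_nonneg_left (Real.log_le_log hc hM) (hr e)

/-- Lower bound of one relative entropy term. -/
theorem abs_sub_le_rel {x y lam : ℝ} (hx : 0 ≤ x) (hy : 0 ≤ y) (hxy : y = 0 → x = 0)
    (hl : 0 < lam) :
    |x - y| ≤ (1 / (2 * lam)) * (x * (log x - log y) - x + y) + lam * (x + y) := by
  rcases hy.eq_or_lt with h | h
  · rw [← h, hxy h.symm]; simp
  -- a = sqrt x, b = sqrt y
  set a := √x with ha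
  set b := √y with hb
  have ha0 : 0 ≤ a := Real.sqrt_nonneg _
  have hb0 : 0 < b := Real.sqrt_pos.2 h
  have hxa : x = a ^ 2 := (Real.sq_sqrt hx).symm
  have hyb : y = b ^ 2 := (Real.sq_sqrt hy).symm
  have h1 : (a - b) ^ 2 ≤ x * (log x - log y) - x + y := by
    rcases ha0.eq_or_lt with h0 | h0
    · rw [hxa, ← h0, hyb]; simp
    · rw [hxa, hyb, Real.log_pow, Real.log_pow]
      have h2 := Real.log_le_sub_one_of_pos (div_pos hb0 h0)
      rw [Real.log_div hb0.ne' h0.ne'] at h2
      have h3 : a ^ 2 * (log b - log a) ≤ a ^ 2 * (b / a - 1) :=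
        mul_le_mul_of_nonneg_left h2 (sq_nonneg _)
      have h4 : a ^ 2 * (b / a - 1) = a * b - a ^ 2 := by field_simp
      rw [h4] at h3
      push_cast
      nlinarith
  have h2 : |x - y| = |a - b| * (a + b) := by
    rw [hxa, hyb, sq_sub_sq, abs_mul, abs_of_nonneg (by positivity : 0 ≤ a + b)]
    ring
  have h3 : |a - b| * (a + b) ≤ (1 / (2 * lam)) * (a - b) ^ 2 + lam / 2 * (a + b) ^ 2 := by
    have h5 : 0 ≤ (|a - b| - lam * (a + b)) ^ 2 := sq_nonneg _
    have h6 : |a - b| ^ 2 = (a - b) ^ 2 := sq_abs _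
    have h7 : (1 / (2 * lam)) * (a - b) ^ 2 + lam / 2 * (a + b) ^ 2 - |a - b| * (a + b)
        = (1 / (2 * lam)) * (|a - b| - lam * (a + b)) ^ 2 := by
      rw [← h6]
      field_simp
      ring
    have h8 : 0 ≤ (1 / (2 * lam)) * (|a - b| - lam * (a + b)) ^ 2 := by positivity
    linarith
  have h4 : lam / 2 * (a + b) ^ 2 ≤ lam * (x + y) := by
    rw [hxa, hyb]
    nlinarith [sq_nonneg (a - b), mul_nonneg hl.le (sq_nonneg (a - b))]
  have h5 : (1 / (2 * lam)) * (a - b) ^ 2 ≤ (1 / (2 * lam)) * (x * (log x - log y) - x + y) :=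
    mul_le_mul_of_nonneg_left h1 (by positivity)
  rw [h2]
  linarith

/-- Upper bound of one relative entropy term. -/
theorem rel_le_abs_sub {x y B : ℝ} (hx : 0 ≤ x) (hy : 0 < y) (hB : 1 ≤ B) (hxy : x ≤ B * y) :
    x * (log x - log y) - x + y ≤ (1 + log B) * |x - y| := by
  have hlB : 0 ≤ log B := Real.log_nonneg hB
  rcases hx.eq_or_lt with h | h
  · rw [← h]
    simp only [zero_mul, zero_sub, neg_zero, zero_add, abs_neg, abs_of_pos hy]
    nlinarith
  · rcases le_total x y with hle | hle
    · have h1 : log x ≤ log y := Real.log_le_log h hle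
      rw [abs_of_nonpos (by linarith)]
      nlinarith
    · rw [abs_of_nonneg (by linarith)]
      -- log x - log y ≤ log B
      have h1 : log x - log y ≤ log B := by
        rw [← Real.log_div h.ne' hy.ne']
        exact Real.log_le_log (by positivity) (by rw [div_le_iff₀ hy]; exact hxy)
      have h2 : y * (log x - log y) ≤ x - y := by
        have h3 := Real.log_le_sub_one_of_pos (div_pos h hy)
        rw [Real.log_div h.ne' hy.ne'] at h3
        have h4 : y * (log x - log y) ≤ y * (x / y - 1) := mul_le_mul_of_nonneg_left h3 hy.le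
        have h5 : y * (x / y - 1) = x - y := by field_simp
        linarith
      nlinarith

end Pool.Agent.V7H68.SS
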