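import Pool.Agent.V7H68.SS.Struct
import Pool.Agent.V7H68.SS.Lin

/-!
Digits `φ d + t v d`: for almost every `t` the entropy rate is the full `log #D`.
-/

namespace Pool.Agent.V7H68.SS

open Finset Real MeasureTheory

set_option linter.unusedSectionVars false

variable {D : Type} [Fintype D] [Nonempty D] {ι : Type} [Fintype ι]

/-- The digits at parameter `t`. -/
def dg (φ : D → ι → ℝ) (v : D → ι → ℕ) (t : ℝ) : D → ι → ℝ := fun d i => φ d i + t * v d i

/-- The integer part of a word. -/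
def Vn (b : ℕ) (v : D → ι → ℕ) (k : ℕ) (w : Fin k → D) (i : ι) : ℕ :=
  ∑ j : Fin k, b ^ (j : ℕ) * v (w j) i

theorem Vn_succ (b : ℕ) (v : D → ι → ℕ) (k : ℕ) (w : Fin (k + 1) → D) (i : ι) :
    Vn b v (k + 1) w i = v (w 0) i + b * Vn b v k (fun j => w j.succ) i := by
  unfold Vn
  rw [Fin.sum_univ_succ, Finset.mul_sum]
  simp only [Fin.val_zero, pow_zero, one_mul, Fin.val_succ]
  congr 1
  refine Finset.sum_congr rfl fun j _ => by rw [pow_succ]; ring

theorem Vn_lt {b : ℕ} (v : D → ι → ℕ) (hv : ∀ d i, v d i < b) (k : ℕ) (w : Fin k → D) (i : ι) :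
    Vn b v k w i < b ^ k := by
  induction k with
  | zero => simp [Vn]
  | succ k ih =>
    rw [Vn_succ, pow_succ]
    have h1 := ih (fun j => w j.succ)
    have h2 := hv (w 0) i
    nlinarith

theorem Vn_inj {b : ℕ} {v : D → ι → ℕ} (hv : ∀ d i, v d i < b) (hinj : Function.Injective v)
    (k : ℕ) : Function.Injective (Vn b v k : (Fin k → D) → ι → ℕ) := by
  induction k with
  | zero => intro w w' _; exact Subsingleton.elim _ _
  | succ k ih =>
    intro w w' h
    have h1 : ∀ i, v (w 0) i = v (w' 0) i ∧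
        Vn b v k (fun j => w j.succ) i = Vn b v k (fun j => w' j.succ) i := by
      intro i
      have h2 := congrFun h i
      rw [Vn_succ, Vn_succ] at h2
      have h3 := hv (w 0) i
      have h4 := hv (w' 0) i
      have h5 : v (w 0) i = v (w' 0) i := by
        have := congrArg (fun x => x % b) h2
        simp only [Nat.add_mul_mod_self_left, Nat.mod_eq_of_lt h3, Nat.mod_eq_of_lt h4] at this
        exact this
      refine ⟨h5, ?_⟩
      rw [h5] at h2
      have h6 := Nat.add_left_cancel h2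
      exact Nat.eq_of_mul_eq_mul_left (by omega) h6
    have h2 : w 0 = w' 0 := hinj (funext fun i => (h1 i).1)
    have h3 : (fun j : Fin k => w j.succ) = fun j : Fin k => w' j.succ :=
      ih (funext fun i => (h1 i).2)
    funext j
    refine Fin.cases h2 (fun j => congrFun h3 j) j

theorem XX_dg (b : ℕ) (φ : D → ι → ℝ) (v : D → ι → ℕ) (t : ℝ) (k : ℕ) (w : Fin k → D) (i : ι) :
    XX b (dg φ v t) k w i = XX b φ k w i + t * (Vn b v k w i : ℝ) := by
  unfold XX Vn dg
  simp only [Finset.sum_apply, Pi.smul_apply, smul_eq_mul]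
  push_cast
  rw [Finset.mul_sum, ← Finset.sum_add_distrib]
  refine Finset.sum_congr rfl fun j _ => by ring

/-- The matrix of translation differences. -/
noncomputable def mA (b : ℕ) (φ : D → ι → ℝ) {k l : ℕ} (ws : Fin l → Fin k → D)
    (w0 : Fin k → D) (σ : Fin l → ι) : Matrix (Fin l) (Fin l) ℝ :=
  Matrix.of fun i j => XX b φ k (ws i) (σ j) - XX b φ k w0 (σ j)

/-- The matrix of direction differences. -/
noncomputable def mW (b : ℕ) (v : D → ι → ℕ) {k l : ℕ} (ws : Fin l → Fin k → D)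
    (w0 : Fin k → D) (σ : Fin l → ι) : Matrix (Fin l) (Fin l) ℝ :=
  Matrix.of fun i j => (Vn b v k (ws i) (σ j) : ℝ) - Vn b v k w0 (σ j)

theorem mW_int (b : ℕ) (v : D → ι → ℕ) {k l : ℕ} (ws : Fin l → Fin k → D)
    (w0 : Fin k → D) (σ : Fin l → ι) (h : (mW b v ws w0 σ).det ≠ 0) :
    1 ≤ |(mW b v ws w0 σ).det| := by
  set Z : Matrix (Fin l) (Fin l) ℤ := Matrix.of fun i j =>
    (Vn b v k (ws i) (σ j) : ℤ) - Vn b v k w0 (σ j) with hZ
  have h1 : mW b v ws w0 σ = (Int.castRingHom ℝ).mapMatrix Z := by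
    ext i j
    simp [mW, hZ]
  rw [h1, ← RingHom.map_det] at h ⊢
  simp only [eq_intCast] at h ⊢
  have h2 : Z.det ≠ 0 := by exact_mod_cast h
  have h3 : 1 ≤ |Z.det| := Int.one_le_abs h2
  exact_mod_cast h3

/-- One bad set. -/
def bad1 (b : ℕ) (φ : D → ι → ℝ) (v : D → ι → ℕ) (ρ : ℝ) {k l : ℕ} (ws : Fin l → Fin k → D)
    (w0 : Fin k → D) (σ : Fin l → ι) : Set ℝ :=
  {t | (mW b v ws w0 σ).det ≠ 0 ∧ |(mA b φ ws w0 σ + t • mW b v ws w0 σ).det| < ρ ^ l}

theorem bad1_vol (b : ℕ) (φ : D → ι → ℝ) (v : D → ι → ℕ) {ρ : ℝ} (hρ : 0 < ρ) {k l : ℕ}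
    (ws : Fin l → Fin k → D) (w0 : Fin k → D) (σ : Fin l → ι) :
    volume (bad1 b φ v ρ ws w0 σ) ≤ l * ENNReal.ofReal (2 * ρ) := by
  by_cases h : (mW b v ws w0 σ).det = 0
  · have : bad1 b φ v ρ ws w0 σ = ∅ := by
      ext t
      simp [bad1, h]
    rw [this]
    simp
  · set W := mW b v ws w0 σ with hW
    set A := mA b φ ws w0 σ with hA
    set f : Polynomial ℝ := ((Polynomial.X : Polynomial ℝ) • W.map Polynomial.C +
      A.map Polynomial.C).det with hf
    have hcoef : f.coeff l = W.det := by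
      have := Polynomial.coeff_det_X_add_C_card W A
      simpa using this
    have hle : f.natDegree ≤ l := by
      have := Polynomial.natDegree_det_X_add_C_le W A
      simpa using this
    have hdeg : f.natDegree = l := by
      refine le_antisymm hle (Polynomial.le_natDegree_of_ne_zero ?_)
      rw [hcoef]
      exact h
    have hlead : f.leadingCoeff = W.det := by
      rw [Polynomial.leadingCoeff, hdeg, hcoef]
    have heval : ∀ t : ℝ, f.eval t = (A + t • W).det := by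
      intro t
      have h1 : f.eval t = (Polynomial.evalRingHom t) f := rfl
      rw [h1, hf, RingHom.map_det]
      congr 1
      ext i j
      simp [Matrix.add_apply, Matrix.smul_apply]
      ring
    have hsub : bad1 b φ v ρ ws w0 σ ⊆ {t : ℝ | |f.eval t| < ρ ^ l} := by
      intro t ht
      have h1 := ht.2
      change |f.eval t| < ρ ^ l
      rw [heval]
      exact h1
    refine (measure_mono hsub).trans (sublevel f hdeg ?_ hρ)
    rw [hlead]
    exact mW_int b v ws w0 σ h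

/-- All bad parameters at level `k`. -/
def badk (b : ℕ) (φ : D → ι → ℝ) (v : D → ι → ℕ) (A : ℕ) (k : ℕ) : Set ℝ :=
  ⋃ l ∈ Finset.range (Fintype.card ι + 1),
    ⋃ x : (Fin (l + 1) → Fin k → D) × (Fin k → D) × (Fin (l + 1) → ι),
      bad1 b φ v (((b:ℝ) ^ (A * k))⁻¹) x.1 x.2.1 x.2.2

theorem badk_vol {b : ℕ} (hb : 2 ≤ b) (φ : D → ι → ℝ) (v : D → ι → ℕ) {A : ℕ}
    (hA : 2 * Fintype.card D ^ (Fintype.card ι + 2) ≤ b ^ A) :
    ∃ C : ℝ, 0 ≤ C ∧ ∀ k : ℕ, volume (badk b φ v A k) ≤ ENNReal.ofReal (C * (1 / 2) ^ k) := by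
  have hb0 : (0:ℝ) < b := by exact_mod_cast (by omega : 0 < b)
  set m := Fintype.card ι with hm
  set N := Fintype.card D with hN
  have hN1 : 1 ≤ N := Fintype.card_pos
  refine ⟨(m + 1) * ((m + 1) ^ (m + 1) * ((m + 1) * 2)), by positivity, fun k => ?_⟩
  set ρ : ℝ := ((b:ℝ) ^ (A * k))⁻¹ with hρ
  have hρ0 : 0 < ρ := by positivity
  have h1 : volume (badk b φ v A k) ≤ ∑ l ∈ Finset.range (m + 1),
      ∑ _x : (Fin (l + 1) → Fin k → D) × (Fin k → D) × (Fin (l + 1) → ι),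
        ((l + 1 : ℕ) * ENNReal.ofReal (2 * ρ)) := by
    unfold badk
    refine (measure_biUnion_finset_le _ _).trans (Finset.sum_le_sum fun l _ => ?_)
    refine (measure_iUnion_fintype_le _ _).trans (Finset.sum_le_sum fun x _ => ?_)
    exact bad1_vol b φ v hρ0 x.1 x.2.1 x.2.2
  refine h1.trans ?_
  have h2 : ∀ l ∈ Finset.range (m + 1),
      (∑ _x : (Fin (l + 1) → Fin k → D) × (Fin k → D) × (Fin (l + 1) → ι),
        ((l + 1 : ℕ) * ENNReal.ofReal (2 * ρ))) ≤
      ENNReal.ofReal ((N ^ (m + 2)) ^ k * (m + 1) ^ (m + 1) * ((m + 1) * (2 * ρ))) := by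
    intro l hl
    rw [Finset.mem_range] at hl
    rw [Finset.sum_const, nsmul_eq_mul]
    have h3 : ((l + 1 : ℕ) : ENNReal) = ENNReal.ofReal ((l + 1 : ℕ) : ℝ) := by
      rw [ENNReal.ofReal_natCast]
    have h4 : ((Finset.univ : Finset ((Fin (l + 1) → Fin k → D) × (Fin k → D) ×
        (Fin (l + 1) → ι))).card : ENNReal) =
        ENNReal.ofReal (((Finset.univ : Finset ((Fin (l + 1) → Fin k → D) × (Fin k → D) ×
        (Fin (l + 1) → ι))).card : ℕ) : ℝ) := by
      rw [ENNReal.ofReal_natCast]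
    rw [h3, h4, ← ENNReal.ofReal_mul (by positivity), ← ENNReal.ofReal_mul (by positivity)]
    refine ENNReal.ofReal_le_ofReal ?_
    have h5 : ((Finset.univ : Finset ((Fin (l + 1) → Fin k → D) × (Fin k → D) ×
        (Fin (l + 1) → ι))).card : ℝ) ≤ (N ^ (m + 2)) ^ k * (m + 1) ^ (m + 1) := by
      have h6 : (Finset.univ : Finset ((Fin (l + 1) → Fin k → D) × (Fin k → D) ×
        (Fin (l + 1) → ι))).card = (N ^ (l + 2)) ^ k * m ^ (l + 1) := by
        simp only [Finset.card_univ, Fintype.card_prod, Fintype.card_pi, Finset.prod_const,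
          Fintype.card_fin, ← hN, ← hm]
        rw [← mul_assoc]
        congr 1
        rw [← pow_mul, ← pow_mul, ← pow_add]
        congr 1
        ring
      rw [h6]
      push_cast
      have h7 : ((N:ℝ) ^ (l + 2)) ^ k ≤ ((N:ℝ) ^ (m + 2)) ^ k :=
        pow_le_pow_left₀ (by positivity)
          (pow_le_pow_right₀ (by exact_mod_cast hN1) (by omega)) k
      have h8 : (m:ℝ) ^ (l + 1) ≤ ((m:ℝ) + 1) ^ (m + 1) := by
        calc (m:ℝ) ^ (l + 1) ≤ ((m:ℝ) + 1) ^ (l + 1) :=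
              pow_le_pow_left₀ (by positivity) (by linarith) _
          _ ≤ ((m:ℝ) + 1) ^ (m + 1) :=
              pow_le_pow_right₀ (by have : (0:ℝ) ≤ m := by positivity
                                    linarith) (by omega)
      exact mul_le_mul h7 h8 (by positivity) (by positivity)
    have h6 : ((l + 1 : ℕ) : ℝ) * (2 * ρ) ≤ ((m:ℝ) + 1) * (2 * ρ) := by
      refine mul_le_mul_of_nonneg_right ?_ (by positivity)
      push_cast
      have : (l:ℝ) ≤ m := by exact_mod_cast (by omega : l ≤ m)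
      linarith
    exact mul_le_mul h5 h6 (by positivity) (by positivity)
  refine (Finset.sum_le_sum h2).trans ?_
  rw [Finset.sum_const, nsmul_eq_mul, Finset.card_range]
  have h3 : ((m + 1 : ℕ) : ENNReal) = ENNReal.ofReal ((m + 1 : ℕ) : ℝ) := by
    rw [ENNReal.ofReal_natCast]
  rw [h3, ← ENNReal.ofReal_mul (by positivity)]
  refine ENNReal.ofReal_le_ofReal ?_
  have h4 : ((N:ℝ) ^ (m + 2)) ^ k * ρ ≤ (1 / 2) ^ k := by
    have h5 : 2 * (N:ℝ) ^ (m + 2) ≤ (b:ℝ) ^ A := by exact_mod_cast hA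
    have h6 : (2 * (N:ℝ) ^ (m + 2)) ^ k ≤ ((b:ℝ) ^ A) ^ k := pow_le_pow_left₀ (by positivity) h5 k
    rw [mul_pow] at h6
    rw [hρ, pow_mul, ← div_eq_mul_inv, div_le_iff₀ (by positivity), one_div, inv_pow,
      inv_mul_eq_div, le_div_iff₀ (by positivity)]
    linarith
  push_cast
  have h5 : ((m:ℝ) + 1) * (((N:ℝ) ^ (m + 2)) ^ k * (m + 1) ^ (m + 1) * ((m + 1) * (2 * ρ))) =
      (((m:ℝ) + 1) * ((m + 1) ^ (m + 1) * ((m + 1) * 2))) * (((N:ℝ) ^ (m + 2)) ^ k * ρ) := by
    ring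
  rw [h5]
  exact mul_le_mul_of_nonneg_left h4 (by positivity)

theorem not_bad {b : ℕ} (hb : 2 ≤ b) (φ : D → ι → ℝ) {v : D → ι → ℕ}
    (hv : ∀ d i, v d i < b) (hinj : Function.Injective v) (A : ℕ) (t : ℝ)
    (h : ∀ᶠ k in Filter.atTop, t ∉ badk b φ v A k) :
    log (Fintype.card D) ≤ alpha b (dg φ v t) := by
  classical
  by_contra hcon
  rw [not_le] at hcon
  have hb0 : (0:ℝ) < b := by exact_mod_cast (by omega : 0 < b)
  have hb1 : (1:ℝ) < b := by exact_mod_cast (by omega : 1 < b)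
  set m := Fintype.card ι with hm
  obtain ⟨l, κ, hκ, P, hl, hP, hst⟩ := structure_thm hb (dg φ v t)
  have hlm : l ≤ m := by omega
  set η : ℝ := (log (Fintype.card D) - alpha b (dg φ v t)) / 2 with hη
  have hη0 : 0 < η := by rw [hη]; linarith
  set A' := (m + 1) * (A + 1) + 1 with hA'
  obtain ⟨k0, hk0⟩ := hst A' η hη0
  choose Cσ hCσ0 hCσ using fun σ : Fin (l + 1) → ι => small_minor P hP hl σ
  set C : ℝ := ∑ σ, Cσ σ with hC
  have hC0 : 0 ≤ C := Finset.sum_nonneg fun σ _ => hCσ0 σ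
  have hCle : ∀ σ, Cσ σ ≤ C := fun σ =>
    Finset.single_le_sum (f := Cσ) (fun σ _ => hCσ0 σ) (Finset.mem_univ σ)
  set cc : ℝ := 2 * cn (dg φ v t) + 1 with hcc
  have hcn := cn_nonneg (dg φ v t)
  have hcc1 : 1 ≤ cc := by rw [hcc]; linarith
  -- a large k
  have hlim : ∀ᶠ k : ℕ in Filter.atTop, C * cc ^ (l + 1) < (b:ℝ) ^ k :=
    (tendsto_pow_atTop_atTop_of_one_lt hb1).eventually_gt_atTop _
  obtain ⟨k, hk1, hk2, hk3, hk4⟩ := (h.and (hlim.and ((Filter.eventually_ge_atTop k0).and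
    (Filter.eventually_ge_atTop 1)))).exists
  apply hk1
  obtain ⟨w0, hw0⟩ := hk0 k hk3
  set S : Finset (Fin k → D) := Finset.univ.filter fun w =>
    ‖(b:ℝ) ^ (A' * k) • (P (XX b (dg φ v t) k w) - P (XX b (dg φ v t) k w0))‖ ≤ 1 with hS
  have hScard : ((b ^ k) ^ l : ℕ) < S.card := by
    rw [Nat.card_eq_fintype_card, Fintype.card_subtype, ← hS] at hw0
    have hD : (0:ℝ) < Fintype.card D := by exact_mod_cast Fintype.card_pos
    have h1 : (Fintype.card (Fin k → D) : ℝ) = exp (log (Fintype.card D) * k) := by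
      rw [Fintype.card_pi]
      simp only [Finset.prod_const, Finset.card_univ, Fintype.card_fin]
      push_cast
      rw [mul_comm, Real.exp_nat_mul, Real.exp_log hD]
    have h2 : (((b ^ k) ^ l : ℕ) : ℝ) = exp (l * log b * k) := by
      push_cast
      rw [← pow_mul, show (l:ℝ) * log b * k = ((k * l : ℕ) : ℝ) * log b by push_cast; ring,
        Real.exp_nat_mul, Real.exp_log hb0]
    have h3 : (((b ^ k) ^ l : ℕ) : ℝ) < S.card := by
      refine lt_of_lt_of_le ?_ hw0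
      rw [h1, h2, ← Real.exp_add]
      apply Real.exp_lt_exp.2
      have hk' : (1:ℝ) ≤ k := by exact_mod_cast hk4
      have : log (Fintype.card D) * k + -((alpha b (dg φ v t) - l * log b + η) * k) =
          l * log b * k + η * k := by rw [hη]; ring
      rw [this]
      nlinarith
    exact_mod_cast h3
  obtain ⟨ws, hws, σ, hdet⟩ := exists_minor S (Vn b v k) (b ^ k) l
    (fun w _ i => Vn_lt v hv k w i) (fun w _ w' _ hww => Vn_inj hv hinj k hww) hScard
    (Nat.one_le_pow _ _ (by omega)) w0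
  -- smallness
  set Z : Fin (l + 1) → ι → ℝ := fun i =>
    XX b (dg φ v t) k (ws i) - XX b (dg φ v t) k w0 with hZ
  have hPZ : ∀ i, ‖P (Z i)‖ ≤ ((b:ℝ) ^ (A' * k))⁻¹ := by
    intro i
    have h1 := hws i
    rw [hS, Finset.mem_filter] at h1
    have h2 := h1.2
    rw [← map_sub, norm_smul, Real.norm_of_nonneg (by positivity)] at h2
    rw [hZ, inv_eq_one_div, le_div_iff₀ (by positivity)]
    linarith
  have hZR : ∀ i, ‖Z i‖ ≤ (b:ℝ) ^ k * cc := by
    intro i
    rw [hZ]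
    refine (norm_sub_le _ _).trans ?_
    have h1 := norm_XX_le (dg φ v t) hb k (ws i)
    have h2 := norm_XX_le (dg φ v t) hb k w0
    have h3 : (1:ℝ) ≤ (b:ℝ) ^ k := one_le_pow₀ hb1.le
    rw [hcc]
    nlinarith
  have hR1 : 1 ≤ (b:ℝ) ^ k * cc := by
    have h3 : (1:ℝ) ≤ (b:ℝ) ^ k := one_le_pow₀ hb1.le
    nlinarith
  have hsm := hCσ σ Z _ _ hR1 hPZ hZR
  have hmat : (Matrix.of fun i j => Z i (σ j)) = mA b φ ws w0 σ + t • mW b v ws w0 σ := by
    ext i j
    simp only [Matrix.of_apply, hZ, Pi.sub_apply, XX_dg, mA, mW, Matrix.add_apply,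
      Matrix.smul_apply, smul_eq_mul]
    ring
  rw [hmat] at hsm
  have hfinal : Cσ σ * ((b:ℝ) ^ (A' * k))⁻¹ * ((b:ℝ) ^ k * cc) ^ (l + 1) <
      (((b:ℝ) ^ (A * k))⁻¹) ^ (l + 1) := by
    have hX : (0:ℝ) < (b:ℝ) ^ k := by positivity
    have h1 : (b:ℝ) ^ (A' * k) ≥ ((b:ℝ) ^ k) ^ ((l + 1) * (A + 1) + 1) := by
      rw [← pow_mul]
      refine pow_le_pow_right₀ hb1.le ?_
      rw [hA']
      have : (l + 1) * (A + 1) + 1 ≤ (m + 1) * (A + 1) + 1 := by
        have : (l + 1) * (A + 1) ≤ (m + 1) * (A + 1) := Nat.mul_le_mul_right _ (by omega)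
        omega
      rw [mul_comm]
      exact Nat.mul_le_mul_right _ this
    have h2 : ((b:ℝ) ^ (A * k))⁻¹ = (((b:ℝ) ^ k) ^ A)⁻¹ := by rw [← pow_mul, mul_comm]
    set X : ℝ := (b:ℝ) ^ k with hXdef
    have h3 : ((b:ℝ) ^ (A' * k))⁻¹ ≤ (X ^ ((l + 1) * (A + 1) + 1))⁻¹ :=
      inv_anti₀ (by positivity) h1
    clear_value X
    calc Cσ σ * ((b:ℝ) ^ (A' * k))⁻¹ * (X * cc) ^ (l + 1)
        ≤ C * (X ^ ((l + 1) * (A + 1) + 1))⁻¹ * (X * cc) ^ (l + 1) := by
          refine mul_le_mul_of_nonneg_right ?_ (by positivity)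
          exact mul_le_mul (hCle σ) h3 (by positivity) hC0
      _ = (C * cc ^ (l + 1)) * ((X ^ A)⁻¹) ^ (l + 1) * X⁻¹ := by
          rw [mul_pow, inv_pow, ← pow_mul]
          have e1 : X ^ ((l + 1) * (A + 1) + 1) = X ^ (A * (l + 1)) * X ^ (l + 1) * X := by
            rw [← pow_add, ← pow_succ]
            congr 1
            ring
          rw [e1]
          field_simp
      _ < X * ((X ^ A)⁻¹) ^ (l + 1) * X⁻¹ := by
          have : 0 < ((X ^ A)⁻¹) ^ (l + 1) := by positivity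
          have hXi : 0 < X⁻¹ := by positivity
          exact mul_lt_mul_of_pos_right (mul_lt_mul_of_pos_right hk2 this) hXi
      _ = (((b:ℝ) ^ (A * k))⁻¹) ^ (l + 1) := by
          rw [h2]
          field_simp
  unfold badk
  simp only [Set.mem_iUnion]
  refine ⟨l, Finset.mem_range.2 (by omega), (ws, w0, σ), hdet, ?_⟩
  exact hsm.trans_lt hfinal

/-- For almost every parameter the entropy rate is full. -/
theorem ae_alpha {b : ℕ} (hb : 2 ≤ b) (φ : D → ι → ℝ) {v : D → ι → ℕ}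
    (hv : ∀ d i, v d i < b) (hinj : Function.Injective v) :
    ∀ᵐ t : ℝ, log (Fintype.card D) ≤ alpha b (dg φ v t) := by
  obtain ⟨A, hA⟩ : ∃ A : ℕ, 2 * Fintype.card D ^ (Fintype.card ι + 2) ≤ b ^ A :=
    ⟨_, (Nat.lt_pow_self (by omega : 1 < b)).le⟩
  obtain ⟨C, hC0, hC⟩ := badk_vol hb φ v hA
  have hsum : ∑' k, volume (badk b φ v A k) ≠ ⊤ := by
    refine ne_top_of_le_ne_top ?_ (ENNReal.tsum_le_tsum hC)
    have hs : Summable fun k : ℕ => C * (1 / 2 : ℝ) ^ k :=
      (summable_geometric_of_lt_one (by norm_num) (by norm_num)).mul_left C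
    exact hs.tsum_ofReal_ne_top
  filter_upwards [ae_eventually_notMem hsum] with t ht
  exact not_bad hb φ hv hinj A t ht

end Pool.Agent.V7H68.SS
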